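/-! Kernel computation core for MP_e13726_nt (only core `Nat` operations). -/
set_option autoImplicit false
set_option maxRecDepth 100000
namespace Pool.Agent.H36E13726
noncomputable section

/-- periodic bit pattern: bits at `0, p, 2p, …` -/
def pat (L p : Nat) : Nat :=
  Nat.div (Nat.sub (Nat.shiftLeft 1 (Nat.mul p (Nat.succ (Nat.div L p)))) 1)
    (Nat.sub (Nat.shiftLeft 1 p) 1)

/-- list of pairs (p, pattern) -/
def pats (L : Nat) (l : List Nat) : List (Nat × Nat) :=
  List.rec (motive := fun _ => List (Nat × Nat)) [] (fun p _ ih => (p, pat L p) :: ih) l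

/-- offset of the first multiple -/
def off (x p : Nat) : Nat :=
  Nat.mod (Nat.mul (Nat.sub p (Nat.mod x p)) (Nat.div (Nat.succ p) 2)) p

/-- union of the masks -/
def marks (x : Nat) (l : List (Nat × Nat)) : Nat :=
  List.rec (motive := fun _ => Nat) 0
    (fun a _ ih => Nat.lor ih (Nat.shiftLeft a.2 (off x a.1))) l

/-- bits of the primes in the window -/
def sieve (l : List (Nat × Nat)) (lo len : Nat) : Nat :=
  Nat.xor (Nat.mod (marks (Nat.succ (Nat.mul 2 lo)) l) (Nat.shiftLeft 1 len))
    (Nat.sub (Nat.shiftLeft 1 len) 1)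

abbrev Kont := Bool → Nat → Nat → Nat → Bool

/-- update of the counter with a hint -/
def surv (S C H : Nat) (k : Nat → Nat → Bool) : Bool :=
  Bool.rec (motive := fun _ => Bool)
    (Bool.rec (motive := fun _ => Bool) false
      (Bool.rec (motive := fun _ => Bool)
        (Bool.rec (motive := fun _ => Bool) false (k (Nat.add C 4294967296) (Nat.div H 33554432))
          (Nat.ble (Nat.succ (Nat.mod H 33554432)) S))
        false (Nat.beq (Nat.mod H 33554432) 1))
      (Nat.beq (Nat.mod S (Nat.mod H 33554432)) 0))
    (k (Nat.add C 4294967297) (Nat.div H 33554432))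
    (Nat.beq (Nat.mod H 33554432) 0)

/-- process the bits of `w` in ascending order -/
def leaf (M T P : Nat) (fuel : Nat) : Nat → Nat → Bool → Nat → Nat → Nat → Kont → Bool :=
  Nat.rec (motive := fun _ => Nat → Nat → Bool → Nat → Nat → Nat → Kont → Bool)
    (fun _ _ _ _ _ _ _ => false)
    (fun _ ih w X b S C H k =>
      Bool.rec (motive := fun _ => Bool)
        ((fun X S w =>
            Bool.rec (motive := fun _ => Bool)
              (ih w X true S C H k)
              (Bool.rec (motive := fun _ => Bool)
                (ih w X false S (Nat.add C 4294967296) H k)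
                (surv S C H (fun C H => ih w X false S C H k))
                (Nat.beq (Nat.gcd S M) 1))
              b)
          (Nat.add X (Nat.mod (Nat.div T (Nat.pow (Nat.gcd w P) 9)) 512))
          (Nat.add S (Nat.add X (Nat.mod (Nat.div T (Nat.pow (Nat.gcd w P) 9)) 512)))
          (Nat.sub (Nat.div w (Nat.gcd w P)) 1))
        (Nat.rec (motive := fun _ => Bool) false
          (fun S' _ => Nat.rec (motive := fun _ => Bool) false
            (fun C' _ => k b (Nat.succ S') (Nat.succ C') H) C) S)
        (Nat.beq w 0))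
    fuel

/-- split a window of `lw * 2^d` bits; bit `i` of `w` is the number `X + 2 (i+1)` -/
def split (M T P : Nat) (lw : Nat) (d : Nat) : Nat → Nat → Bool → Nat → Nat → Nat → Kont → Bool :=
  Nat.rec (motive := fun _ => Nat → Nat → Bool → Nat → Nat → Nat → Kont → Bool)
    (fun w X b S C H k => leaf M T P (Nat.succ lw) (Nat.mul 2 w) X b S C H k)
    (fun d ih w X b S C H k =>
      ih (Nat.mod w (Nat.shiftLeft 1 (Nat.mul lw (Nat.pow 2 d)))) X b S C H
        (fun b S C H =>
          ih (Nat.shiftRight w (Nat.mul lw (Nat.pow 2 d)))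
            (Nat.add X (Nat.mul 2 (Nat.mul lw (Nat.pow 2 d)))) b S C H k))
    d

def seg (M T P : Nat) (l : List (Nat × Nat)) (lw d lo len : Nat)
    (b : Bool) (S C H : Nat) (k : Kont) : Bool :=
  split M T P lw d (sieve l lo len) (Nat.sub (Nat.mul 2 lo) 1) b S C H k

/-- `n` windows of length `L` -/
def run (M T P : Nat) (l : List (Nat × Nat)) (lw d L n : Nat) :
    Nat → Bool → Nat → Nat → Nat → Kont → Bool :=
  Nat.rec (motive := fun _ => Nat → Bool → Nat → Nat → Nat → Kont → Bool)
    (fun _ b S C H k => k b S C H)
    (fun _ ih lo b S C H k =>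
      seg M T P l lw d lo L b S C H (fun b S C H => ih (Nat.add lo L) b S C H k))
    n

/-- final comparison -/
def fin (b' : Bool) (S' C' : Nat) : Kont := fun b S C _ =>
  (b == b') && (Nat.beq S S' && Nat.beq C C')

/-- odd primes up to 112 -/
def small : List Nat := [3, 5, 7, 11, 13, 17, 19, 23, 29, 31, 37, 41, 43, 47, 53, 59, 61, 67, 71, 73, 79, 83, 89, 97, 101, 103, 107, 109]

/-- primality test for odd numbers below `113^2` -/
def isP (q : Nat) : Bool :=
  List.rec (motive := fun _ => Bool) true
    (fun p _ ih => Bool.rec (motive := fun _ => Bool) ih (Nat.ble q p) (Nat.beq (Nat.mod q p) 0)) small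

/-- `n` odd numbers starting from `q` -/
def initRun (n : Nat) : Nat → Bool → Nat → Nat → Nat → Kont → Bool :=
  Nat.rec (motive := fun _ => Nat → Bool → Nat → Nat → Nat → Kont → Bool)
    (fun _ b S C H k => k b S C H)
    (fun _ ih q b S C H k =>
      Bool.rec (motive := fun _ => Bool)
        (ih (Nat.add q 2) b S C H k)
        (Bool.rec (motive := fun _ => Bool)
          (ih (Nat.add q 2) true (Nat.add S q) C H k)
          (surv (Nat.add S q) C H (fun C H => ih (Nat.add q 2) false (Nat.add S q) C H k))
          b)
        (isP q))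
    n

/-- odd primes up to 11904 -/
def plist : List Nat := [nat_lit 3, nat_lit 5, nat_lit 7, nat_lit 11, nat_lit 13, nat_lit 17, nat_lit 19, nat_lit 23, nat_lit 29, nat_lit 31, nat_lit 37, nat_lit 41, nat_lit 43, nat_lit 47, nat_lit 53, nat_lit 59, nat_lit 61, nat_lit 67, nat_lit 71, nat_lit 73, nat_lit 79, nat_lit 83, nat_lit 89, nat_lit 97, nat_lit 101, nat_lit 103, nat_lit 107, nat_lit 109, nat_lit 113, nat_lit 127, nat_lit 131, nat_lit 137, nat_lit 139, nat_lit 149, nat_lit 151, nat_lit 157, nat_lit 163, nat_lit 167, nat_lit 173, nat_lit 179, nat_lit 181, nat_lit 191, nat_lit 193, nat_lit 197, nat_lit 199, nat_lit 211, nat_lit 223, nat_lit 227, nat_lit 229, nat_lit 233, nat_lit 239, nat_lit 241, nat_lit 251, nat_lit 257, nat_lit 263, nat_lit 269, nat_lit 271, nat_lit 277, nat_lit 281, nat_lit 283, nat_lit 293, nat_lit 307, nat_lit 311, nat_lit 313, nat_lit 317, nat_lit 331, nat_lit 337, nat_lit 347, nat_lit 349, nat_lit 353, nat_lit 359, nat_lit 367, nat_lit 373, nat_lit 379, nat_lit 383, nat_lit 389, nat_lit 397, nat_lit 401, nat_lit 409,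 nat_lit 419, nat_lit 421, nat_lit 431, nat_lit 433, nat_lit 439, nat_lit 443, nat_lit 449, nat_lit 457, nat_lit 461, nat_lit 463, nat_lit 467, nat_lit 479, nat_lit 487, nat_lit 491, nat_lit 499, nat_lit 503, nat_lit 509, nat_lit 521, nat_lit 523, nat_lit 541, nat_lit 547, nat_lit 557, nat_lit 563, nat_lit 569, nat_lit 571, nat_lit 577, nat_lit 587, nat_lit 593, nat_lit 599, nat_lit 601, nat_lit 607, nat_lit 613, nat_lit 617, nat_lit 619, nat_lit 631, nat_lit 641, nat_lit 643, nat_lit 647, nat_lit 653, nat_lit 659, nat_lit 661, nat_lit 673, nat_lit 677, nat_lit 683, nat_lit 691, nat_lit 701, nat_lit 709, nat_lit 719, nat_lit 727, nat_lit 733, nat_lit 739, nat_lit 743, nat_lit 751, nat_lit 757, nat_lit 761, nat_lit 769, nat_lit 773, nat_lit 787, nat_lit 797, nat_lit 809, nat_lit 811, nat_lit 821, nat_lit 823, nat_lit 827, nat_lit 829, nat_lit 839, nat_lit 853, nat_lit 857, nat_lit 859, nat_lit 863, nat_lit 877, nat_lit 881, nat_lit 883, nat_lit 887, nat_lit 907, nat_lit 911, nat_lit 919, nat_lit 929, nat_lit 937, nat_lit 941, nat_lit 947, nat_lit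 953, nat_lit 967, nat_lit 971, nat_lit 977, nat_lit 983, nat_lit 991, nat_lit 997, nat_lit 1009, nat_lit 1013, nat_lit 1019, nat_lit 1021, nat_lit 1031, nat_lit 1033, nat_lit 1039, nat_lit 1049, nat_lit 1051, nat_lit 1061, nat_lit 1063, nat_lit 1069, nat_lit 1087, nat_lit 1091, nat_lit 1093, nat_lit 1097, nat_lit 1103, nat_lit 1109, nat_lit 1117, nat_lit 1123, nat_lit 1129, nat_lit 1151, nat_lit 1153, nat_lit 1163, nat_lit 1171, nat_lit 1181, nat_lit 1187, nat_lit 1193, nat_lit 1201, nat_lit 1213, nat_lit 1217, nat_lit 1223, nat_lit 1229, nat_lit 1231, nat_lit 1237, nat_lit 1249, nat_lit 1259, nat_lit 1277, nat_lit 1279, nat_lit 1283, nat_lit 1289, nat_lit 1291, nat_lit 1297, nat_lit 1301, nat_lit 1303, nat_lit 1307, nat_lit 1319, nat_lit 1321, nat_lit 1327, nat_lit 1361, nat_lit 1367, nat_lit 1373, nat_lit 1381, nat_lit 1399, nat_lit 1409, nat_lit 1423, nat_lit 1427, nat_lit 1429, nat_lit 1433, nat_lit 1439, nat_lit 1447, nat_lit 1451, nat_lit 1453, nat_lit 1459, nat_lit 1471, nat_lit 1481, nat_lit 1483, nat_lit 1487, nat_lit 1489, nat_lit 1493,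 nat_lit 1499, nat_lit 1511, nat_lit 1523, nat_lit 1531, nat_lit 1543, nat_lit 1549, nat_lit 1553, nat_lit 1559, nat_lit 1567, nat_lit 1571, nat_lit 1579, nat_lit 1583, nat_lit 1597, nat_lit 1601, nat_lit 1607, nat_lit 1609, nat_lit 1613, nat_lit 1619, nat_lit 1621, nat_lit 1627, nat_lit 1637, nat_lit 1657, nat_lit 1663, nat_lit 1667, nat_lit 1669, nat_lit 1693, nat_lit 1697, nat_lit 1699, nat_lit 1709, nat_lit 1721, nat_lit 1723, nat_lit 1733, nat_lit 1741, nat_lit 1747, nat_lit 1753, nat_lit 1759, nat_lit 1777, nat_lit 1783, nat_lit 1787, nat_lit 1789, nat_lit 1801, nat_lit 1811, nat_lit 1823, nat_lit 1831, nat_lit 1847, nat_lit 1861, nat_lit 1867, nat_lit 1871, nat_lit 1873, nat_lit 1877, nat_lit 1879, nat_lit 1889, nat_lit 1901, nat_lit 1907, nat_lit 1913, nat_lit 1931, nat_lit 1933, nat_lit 1949, nat_lit 1951, nat_lit 1973, nat_lit 1979, nat_lit 1987, nat_lit 1993, nat_lit 1997, nat_lit 1999, nat_lit 2003, nat_lit 2011, nat_lit 2017, nat_lit 2027, nat_lit 2029, nat_lit 2039, nat_lit 2053, nat_lit 2063, nat_lit 2069, nat_lit 2081, nat_lit 2083,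 nat_lit 2087, nat_lit 2089, nat_lit 2099, nat_lit 2111, nat_lit 2113, nat_lit 2129, nat_lit 2131, nat_lit 2137, nat_lit 2141, nat_lit 2143, nat_lit 2153, nat_lit 2161, nat_lit 2179, nat_lit 2203, nat_lit 2207, nat_lit 2213, nat_lit 2221, nat_lit 2237, nat_lit 2239, nat_lit 2243, nat_lit 2251, nat_lit 2267, nat_lit 2269, nat_lit 2273, nat_lit 2281, nat_lit 2287, nat_lit 2293, nat_lit 2297, nat_lit 2309, nat_lit 2311, nat_lit 2333, nat_lit 2339, nat_lit 2341, nat_lit 2347, nat_lit 2351, nat_lit 2357, nat_lit 2371, nat_lit 2377, nat_lit 2381, nat_lit 2383, nat_lit 2389, nat_lit 2393, nat_lit 2399, nat_lit 2411, nat_lit 2417, nat_lit 2423, nat_lit 2437, nat_lit 2441, nat_lit 2447, nat_lit 2459, nat_lit 2467, nat_lit 2473, nat_lit 2477, nat_lit 2503, nat_lit 2521, nat_lit 2531, nat_lit 2539, nat_lit 2543, nat_lit 2549, nat_lit 2551, nat_lit 2557, nat_lit 2579, nat_lit 2591, nat_lit 2593, nat_lit 2609, nat_lit 2617, nat_lit 2621, nat_lit 2633, nat_lit 2647, nat_lit 2657, nat_lit 2659, nat_lit 2663, nat_lit 2671, nat_lit 2677, nat_lit 2683, nat_lit 2687,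 nat_lit 2689, nat_lit 2693, nat_lit 2699, nat_lit 2707, nat_lit 2711, nat_lit 2713, nat_lit 2719, nat_lit 2729, nat_lit 2731, nat_lit 2741, nat_lit 2749, nat_lit 2753, nat_lit 2767, nat_lit 2777, nat_lit 2789, nat_lit 2791, nat_lit 2797, nat_lit 2801, nat_lit 2803, nat_lit 2819, nat_lit 2833, nat_lit 2837, nat_lit 2843, nat_lit 2851, nat_lit 2857, nat_lit 2861, nat_lit 2879, nat_lit 2887, nat_lit 2897, nat_lit 2903, nat_lit 2909, nat_lit 2917, nat_lit 2927, nat_lit 2939, nat_lit 2953, nat_lit 2957, nat_lit 2963, nat_lit 2969, nat_lit 2971, nat_lit 2999, nat_lit 3001, nat_lit 3011, nat_lit 3019, nat_lit 3023, nat_lit 3037, nat_lit 3041, nat_lit 3049, nat_lit 3061, nat_lit 3067, nat_lit 3079, nat_lit 3083, nat_lit 3089, nat_lit 3109, nat_lit 3119, nat_lit 3121, nat_lit 3137, nat_lit 3163, nat_lit 3167, nat_lit 3169, nat_lit 3181, nat_lit 3187, nat_lit 3191, nat_lit 3203, nat_lit 3209, nat_lit 3217, nat_lit 3221, nat_lit 3229, nat_lit 3251, nat_lit 3253, nat_lit 3257, nat_lit 3259, nat_lit 3271, nat_lit 3299, nat_lit 3301, nat_lit 3307, nat_lit 3313,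 nat_lit 3319, nat_lit 3323, nat_lit 3329, nat_lit 3331, nat_lit 3343, nat_lit 3347, nat_lit 3359, nat_lit 3361, nat_lit 3371, nat_lit 3373, nat_lit 3389, nat_lit 3391, nat_lit 3407, nat_lit 3413, nat_lit 3433, nat_lit 3449, nat_lit 3457, nat_lit 3461, nat_lit 3463, nat_lit 3467, nat_lit 3469, nat_lit 3491, nat_lit 3499, nat_lit 3511, nat_lit 3517, nat_lit 3527, nat_lit 3529, nat_lit 3533, nat_lit 3539, nat_lit 3541, nat_lit 3547, nat_lit 3557, nat_lit 3559, nat_lit 3571, nat_lit 3581, nat_lit 3583, nat_lit 3593, nat_lit 3607, nat_lit 3613, nat_lit 3617, nat_lit 3623, nat_lit 3631, nat_lit 3637, nat_lit 3643, nat_lit 3659, nat_lit 3671, nat_lit 3673, nat_lit 3677, nat_lit 3691, nat_lit 3697, nat_lit 3701, nat_lit 3709, nat_lit 3719, nat_lit 3727, nat_lit 3733, nat_lit 3739, nat_lit 3761, nat_lit 3767, nat_lit 3769, nat_lit 3779, nat_lit 3793, nat_lit 3797, nat_lit 3803, nat_lit 3821, nat_lit 3823, nat_lit 3833, nat_lit 3847, nat_lit 3851, nat_lit 3853, nat_lit 3863, nat_lit 3877, nat_lit 3881, nat_lit 3889, nat_lit 3907, nat_lit 3911, nat_lit 3917,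 nat_lit 3919, nat_lit 3923, nat_lit 3929, nat_lit 3931, nat_lit 3943, nat_lit 3947, nat_lit 3967, nat_lit 3989, nat_lit 4001, nat_lit 4003, nat_lit 4007, nat_lit 4013, nat_lit 4019, nat_lit 4021, nat_lit 4027, nat_lit 4049, nat_lit 4051, nat_lit 4057, nat_lit 4073, nat_lit 4079, nat_lit 4091, nat_lit 4093, nat_lit 4099, nat_lit 4111, nat_lit 4127, nat_lit 4129, nat_lit 4133, nat_lit 4139, nat_lit 4153, nat_lit 4157, nat_lit 4159, nat_lit 4177, nat_lit 4201, nat_lit 4211, nat_lit 4217, nat_lit 4219, nat_lit 4229, nat_lit 4231, nat_lit 4241, nat_lit 4243, nat_lit 4253, nat_lit 4259, nat_lit 4261, nat_lit 4271, nat_lit 4273, nat_lit 4283, nat_lit 4289, nat_lit 4297, nat_lit 4327, nat_lit 4337, nat_lit 4339, nat_lit 4349, nat_lit 4357, nat_lit 4363, nat_lit 4373, nat_lit 4391, nat_lit 4397, nat_lit 4409, nat_lit 4421, nat_lit 4423, nat_lit 4441, nat_lit 4447, nat_lit 4451, nat_lit 4457, nat_lit 4463, nat_lit 4481, nat_lit 4483, nat_lit 4493, nat_lit 4507, nat_lit 4513, nat_lit 4517, nat_lit 4519, nat_lit 4523, nat_lit 4547, nat_lit 4549, nat_lit 4561,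 nat_lit 4567, nat_lit 4583, nat_lit 4591, nat_lit 4597, nat_lit 4603, nat_lit 4621, nat_lit 4637, nat_lit 4639, nat_lit 4643, nat_lit 4649, nat_lit 4651, nat_lit 4657, nat_lit 4663, nat_lit 4673, nat_lit 4679, nat_lit 4691, nat_lit 4703, nat_lit 4721, nat_lit 4723, nat_lit 4729, nat_lit 4733, nat_lit 4751, nat_lit 4759, nat_lit 4783, nat_lit 4787, nat_lit 4789, nat_lit 4793, nat_lit 4799, nat_lit 4801, nat_lit 4813, nat_lit 4817, nat_lit 4831, nat_lit 4861, nat_lit 4871, nat_lit 4877, nat_lit 4889, nat_lit 4903, nat_lit 4909, nat_lit 4919, nat_lit 4931, nat_lit 4933, nat_lit 4937, nat_lit 4943, nat_lit 4951, nat_lit 4957, nat_lit 4967, nat_lit 4969, nat_lit 4973, nat_lit 4987, nat_lit 4993, nat_lit 4999, nat_lit 5003, nat_lit 5009, nat_lit 5011, nat_lit 5021, nat_lit 5023, nat_lit 5039, nat_lit 5051, nat_lit 5059, nat_lit 5077, nat_lit 5081, nat_lit 5087, nat_lit 5099, nat_lit 5101, nat_lit 5107, nat_lit 5113, nat_lit 5119, nat_lit 5147, nat_lit 5153, nat_lit 5167, nat_lit 5171, nat_lit 5179, nat_lit 5189, nat_lit 5197, nat_lit 5209, nat_lit 5227,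 nat_lit 5231, nat_lit 5233, nat_lit 5237, nat_lit 5261, nat_lit 5273, nat_lit 5279, nat_lit 5281, nat_lit 5297, nat_lit 5303, nat_lit 5309, nat_lit 5323, nat_lit 5333, nat_lit 5347, nat_lit 5351, nat_lit 5381, nat_lit 5387, nat_lit 5393, nat_lit 5399, nat_lit 5407, nat_lit 5413, nat_lit 5417, nat_lit 5419, nat_lit 5431, nat_lit 5437, nat_lit 5441, nat_lit 5443, nat_lit 5449, nat_lit 5471, nat_lit 5477, nat_lit 5479, nat_lit 5483, nat_lit 5501, nat_lit 5503, nat_lit 5507, nat_lit 5519, nat_lit 5521, nat_lit 5527, nat_lit 5531, nat_lit 5557, nat_lit 5563, nat_lit 5569, nat_lit 5573, nat_lit 5581, nat_lit 5591, nat_lit 5623, nat_lit 5639, nat_lit 5641, nat_lit 5647, nat_lit 5651, nat_lit 5653, nat_lit 5657, nat_lit 5659, nat_lit 5669, nat_lit 5683, nat_lit 5689, nat_lit 5693, nat_lit 5701, nat_lit 5711, nat_lit 5717, nat_lit 5737, nat_lit 5741, nat_lit 5743, nat_lit 5749, nat_lit 5779, nat_lit 5783, nat_lit 5791, nat_lit 5801, nat_lit 5807, nat_lit 5813, nat_lit 5821, nat_lit 5827, nat_lit 5839, nat_lit 5843, nat_lit 5849, nat_lit 5851, nat_lit 5857,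 nat_lit 5861, nat_lit 5867, nat_lit 5869, nat_lit 5879, nat_lit 5881, nat_lit 5897, nat_lit 5903, nat_lit 5923, nat_lit 5927, nat_lit 5939, nat_lit 5953, nat_lit 5981, nat_lit 5987, nat_lit 6007, nat_lit 6011, nat_lit 6029, nat_lit 6037, nat_lit 6043, nat_lit 6047, nat_lit 6053, nat_lit 6067, nat_lit 6073, nat_lit 6079, nat_lit 6089, nat_lit 6091, nat_lit 6101, nat_lit 6113, nat_lit 6121, nat_lit 6131, nat_lit 6133, nat_lit 6143, nat_lit 6151, nat_lit 6163, nat_lit 6173, nat_lit 6197, nat_lit 6199, nat_lit 6203, nat_lit 6211, nat_lit 6217, nat_lit 6221, nat_lit 6229, nat_lit 6247, nat_lit 6257, nat_lit 6263, nat_lit 6269, nat_lit 6271, nat_lit 6277, nat_lit 6287, nat_lit 6299, nat_lit 6301, nat_lit 6311, nat_lit 6317, nat_lit 6323, nat_lit 6329, nat_lit 6337, nat_lit 6343, nat_lit 6353, nat_lit 6359, nat_lit 6361, nat_lit 6367, nat_lit 6373, nat_lit 6379, nat_lit 6389, nat_lit 6397, nat_lit 6421, nat_lit 6427, nat_lit 6449, nat_lit 6451, nat_lit 6469, nat_lit 6473, nat_lit 6481, nat_lit 6491, nat_lit 6521, nat_lit 6529, nat_lit 6547, nat_lit 6551,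 nat_lit 6553, nat_lit 6563, nat_lit 6569, nat_lit 6571, nat_lit 6577, nat_lit 6581, nat_lit 6599, nat_lit 6607, nat_lit 6619, nat_lit 6637, nat_lit 6653, nat_lit 6659, nat_lit 6661, nat_lit 6673, nat_lit 6679, nat_lit 6689, nat_lit 6691, nat_lit 6701, nat_lit 6703, nat_lit 6709, nat_lit 6719, nat_lit 6733, nat_lit 6737, nat_lit 6761, nat_lit 6763, nat_lit 6779, nat_lit 6781, nat_lit 6791, nat_lit 6793, nat_lit 6803, nat_lit 6823, nat_lit 6827, nat_lit 6829, nat_lit 6833, nat_lit 6841, nat_lit 6857, nat_lit 6863, nat_lit 6869, nat_lit 6871, nat_lit 6883, nat_lit 6899, nat_lit 6907, nat_lit 6911, nat_lit 6917, nat_lit 6947, nat_lit 6949, nat_lit 6959, nat_lit 6961, nat_lit 6967, nat_lit 6971, nat_lit 6977, nat_lit 6983, nat_lit 6991, nat_lit 6997, nat_lit 7001, nat_lit 7013, nat_lit 7019, nat_lit 7027, nat_lit 7039, nat_lit 7043, nat_lit 7057, nat_lit 7069, nat_lit 7079, nat_lit 7103, nat_lit 7109, nat_lit 7121, nat_lit 7127, nat_lit 7129, nat_lit 7151, nat_lit 7159, nat_lit 7177, nat_lit 7187, nat_lit 7193, nat_lit 7207, nat_lit 7211, nat_lit 7213,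 nat_lit 7219, nat_lit 7229, nat_lit 7237, nat_lit 7243, nat_lit 7247, nat_lit 7253, nat_lit 7283, nat_lit 7297, nat_lit 7307, nat_lit 7309, nat_lit 7321, nat_lit 7331, nat_lit 7333, nat_lit 7349, nat_lit 7351, nat_lit 7369, nat_lit 7393, nat_lit 7411, nat_lit 7417, nat_lit 7433, nat_lit 7451, nat_lit 7457, nat_lit 7459, nat_lit 7477, nat_lit 7481, nat_lit 7487, nat_lit 7489, nat_lit 7499, nat_lit 7507, nat_lit 7517, nat_lit 7523, nat_lit 7529, nat_lit 7537, nat_lit 7541, nat_lit 7547, nat_lit 7549, nat_lit 7559, nat_lit 7561, nat_lit 7573, nat_lit 7577, nat_lit 7583, nat_lit 7589, nat_lit 7591, nat_lit 7603, nat_lit 7607, nat_lit 7621, nat_lit 7639, nat_lit 7643, nat_lit 7649, nat_lit 7669, nat_lit 7673, nat_lit 7681, nat_lit 7687, nat_lit 7691, nat_lit 7699, nat_lit 7703, nat_lit 7717, nat_lit 7723, nat_lit 7727, nat_lit 7741, nat_lit 7753, nat_lit 7757, nat_lit 7759, nat_lit 7789, nat_lit 7793, nat_lit 7817, nat_lit 7823, nat_lit 7829, nat_lit 7841, nat_lit 7853, nat_lit 7867, nat_lit 7873, nat_lit 7877, nat_lit 7879, nat_lit 7883, nat_lit 7901,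 nat_lit 7907, nat_lit 7919, nat_lit 7927, nat_lit 7933, nat_lit 7937, nat_lit 7949, nat_lit 7951, nat_lit 7963, nat_lit 7993, nat_lit 8009, nat_lit 8011, nat_lit 8017, nat_lit 8039, nat_lit 8053, nat_lit 8059, nat_lit 8069, nat_lit 8081, nat_lit 8087, nat_lit 8089, nat_lit 8093, nat_lit 8101, nat_lit 8111, nat_lit 8117, nat_lit 8123, nat_lit 8147, nat_lit 8161, nat_lit 8167, nat_lit 8171, nat_lit 8179, nat_lit 8191, nat_lit 8209, nat_lit 8219, nat_lit 8221, nat_lit 8231, nat_lit 8233, nat_lit 8237, nat_lit 8243, nat_lit 8263, nat_lit 8269, nat_lit 8273, nat_lit 8287, nat_lit 8291, nat_lit 8293, nat_lit 8297, nat_lit 8311, nat_lit 8317, nat_lit 8329, nat_lit 8353, nat_lit 8363, nat_lit 8369, nat_lit 8377, nat_lit 8387, nat_lit 8389, nat_lit 8419, nat_lit 8423, nat_lit 8429, nat_lit 8431, nat_lit 8443, nat_lit 8447, nat_lit 8461, nat_lit 8467, nat_lit 8501, nat_lit 8513, nat_lit 8521, nat_lit 8527, nat_lit 8537, nat_lit 8539, nat_lit 8543, nat_lit 8563, nat_lit 8573, nat_lit 8581, nat_lit 8597, nat_lit 8599, nat_lit 8609, nat_lit 8623, nat_lit 8627,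 nat_lit 8629, nat_lit 8641, nat_lit 8647, nat_lit 8663, nat_lit 8669, nat_lit 8677, nat_lit 8681, nat_lit 8689, nat_lit 8693, nat_lit 8699, nat_lit 8707, nat_lit 8713, nat_lit 8719, nat_lit 8731, nat_lit 8737, nat_lit 8741, nat_lit 8747, nat_lit 8753, nat_lit 8761, nat_lit 8779, nat_lit 8783, nat_lit 8803, nat_lit 8807, nat_lit 8819, nat_lit 8821, nat_lit 8831, nat_lit 8837, nat_lit 8839, nat_lit 8849, nat_lit 8861, nat_lit 8863, nat_lit 8867, nat_lit 8887, nat_lit 8893, nat_lit 8923, nat_lit 8929, nat_lit 8933, nat_lit 8941, nat_lit 8951, nat_lit 8963, nat_lit 8969, nat_lit 8971, nat_lit 8999, nat_lit 9001, nat_lit 9007, nat_lit 9011, nat_lit 9013, nat_lit 9029, nat_lit 9041, nat_lit 9043, nat_lit 9049, nat_lit 9059, nat_lit 9067, nat_lit 9091, nat_lit 9103, nat_lit 9109, nat_lit 9127, nat_lit 9133, nat_lit 9137, nat_lit 9151, nat_lit 9157, nat_lit 9161, nat_lit 9173, nat_lit 9181, nat_lit 9187, nat_lit 9199, nat_lit 9203, nat_lit 9209, nat_lit 9221, nat_lit 9227, nat_lit 9239, nat_lit 9241, nat_lit 9257, nat_lit 9277, nat_lit 9281, nat_lit 9283,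 nat_lit 9293, nat_lit 9311, nat_lit 9319, nat_lit 9323, nat_lit 9337, nat_lit 9341, nat_lit 9343, nat_lit 9349, nat_lit 9371, nat_lit 9377, nat_lit 9391, nat_lit 9397, nat_lit 9403, nat_lit 9413, nat_lit 9419, nat_lit 9421, nat_lit 9431, nat_lit 9433, nat_lit 9437, nat_lit 9439, nat_lit 9461, nat_lit 9463, nat_lit 9467, nat_lit 9473, nat_lit 9479, nat_lit 9491, nat_lit 9497, nat_lit 9511, nat_lit 9521, nat_lit 9533, nat_lit 9539, nat_lit 9547, nat_lit 9551, nat_lit 9587, nat_lit 9601, nat_lit 9613, nat_lit 9619, nat_lit 9623, nat_lit 9629, nat_lit 9631, nat_lit 9643, nat_lit 9649, nat_lit 9661, nat_lit 9677, nat_lit 9679, nat_lit 9689, nat_lit 9697, nat_lit 9719, nat_lit 9721, nat_lit 9733, nat_lit 9739, nat_lit 9743, nat_lit 9749, nat_lit 9767, nat_lit 9769, nat_lit 9781, nat_lit 9787, nat_lit 9791, nat_lit 9803, nat_lit 9811, nat_lit 9817, nat_lit 9829, nat_lit 9833, nat_lit 9839, nat_lit 9851, nat_lit 9857, nat_lit 9859, nat_lit 9871, nat_lit 9883, nat_lit 9887, nat_lit 9901, nat_lit 9907, nat_lit 9923, nat_lit 9929, nat_lit 9931, nat_lit 9941,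 nat_lit 9949, nat_lit 9967, nat_lit 9973, nat_lit 10007, nat_lit 10009, nat_lit 10037, nat_lit 10039, nat_lit 10061, nat_lit 10067, nat_lit 10069, nat_lit 10079, nat_lit 10091, nat_lit 10093, nat_lit 10099, nat_lit 10103, nat_lit 10111, nat_lit 10133, nat_lit 10139, nat_lit 10141, nat_lit 10151, nat_lit 10159, nat_lit 10163, nat_lit 10169, nat_lit 10177, nat_lit 10181, nat_lit 10193, nat_lit 10211, nat_lit 10223, nat_lit 10243, nat_lit 10247, nat_lit 10253, nat_lit 10259, nat_lit 10267, nat_lit 10271, nat_lit 10273, nat_lit 10289, nat_lit 10301, nat_lit 10303, nat_lit 10313, nat_lit 10321, nat_lit 10331, nat_lit 10333, nat_lit 10337, nat_lit 10343, nat_lit 10357, nat_lit 10369, nat_lit 10391, nat_lit 10399, nat_lit 10427, nat_lit 10429, nat_lit 10433, nat_lit 10453, nat_lit 10457, nat_lit 10459, nat_lit 10463, nat_lit 10477, nat_lit 10487, nat_lit 10499, nat_lit 10501, nat_lit 10513, nat_lit 10529, nat_lit 10531, nat_lit 10559, nat_lit 10567, nat_lit 10589, nat_lit 10597, nat_lit 10601, nat_lit 10607, nat_lit 10613, nat_lit 10627, nat_lit 10631,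 nat_lit 10639, nat_lit 10651, nat_lit 10657, nat_lit 10663, nat_lit 10667, nat_lit 10687, nat_lit 10691, nat_lit 10709, nat_lit 10711, nat_lit 10723, nat_lit 10729, nat_lit 10733, nat_lit 10739, nat_lit 10753, nat_lit 10771, nat_lit 10781, nat_lit 10789, nat_lit 10799, nat_lit 10831, nat_lit 10837, nat_lit 10847, nat_lit 10853, nat_lit 10859, nat_lit 10861, nat_lit 10867, nat_lit 10883, nat_lit 10889, nat_lit 10891, nat_lit 10903, nat_lit 10909, nat_lit 10937, nat_lit 10939, nat_lit 10949, nat_lit 10957, nat_lit 10973, nat_lit 10979, nat_lit 10987, nat_lit 10993, nat_lit 11003, nat_lit 11027, nat_lit 11047, nat_lit 11057, nat_lit 11059, nat_lit 11069, nat_lit 11071, nat_lit 11083, nat_lit 11087, nat_lit 11093, nat_lit 11113, nat_lit 11117, nat_lit 11119, nat_lit 11131, nat_lit 11149, nat_lit 11159, nat_lit 11161, nat_lit 11171, nat_lit 11173, nat_lit 11177, nat_lit 11197, nat_lit 11213, nat_lit 11239, nat_lit 11243, nat_lit 11251, nat_lit 11257, nat_lit 11261, nat_lit 11273, nat_lit 11279, nat_lit 11287, nat_lit 11299, nat_lit 11311, nat_lit 11317,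 nat_lit 11321, nat_lit 11329, nat_lit 11351, nat_lit 11353, nat_lit 11369, nat_lit 11383, nat_lit 11393, nat_lit 11399, nat_lit 11411, nat_lit 11423, nat_lit 11437, nat_lit 11443, nat_lit 11447, nat_lit 11467, nat_lit 11471, nat_lit 11483, nat_lit 11489, nat_lit 11491, nat_lit 11497, nat_lit 11503, nat_lit 11519, nat_lit 11527, nat_lit 11549, nat_lit 11551, nat_lit 11579, nat_lit 11587, nat_lit 11593, nat_lit 11597, nat_lit 11617, nat_lit 11621, nat_lit 11633, nat_lit 11657, nat_lit 11677, nat_lit 11681, nat_lit 11689, nat_lit 11699, nat_lit 11701, nat_lit 11717, nat_lit 11719, nat_lit 11731, nat_lit 11743, nat_lit 11777, nat_lit 11779, nat_lit 11783, nat_lit 11789, nat_lit 11801, nat_lit 11807, nat_lit 11813, nat_lit 11821, nat_lit 11827, nat_lit 11831, nat_lit 11833, nat_lit 11839, nat_lit 11863, nat_lit 11867, nat_lit 11887, nat_lit 11897, nat_lit 11903]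

/-- their product -/
def primorial : Nat := nat_lit 10677804345650967832341942909121181561209179692022649500986555450357654695604097123966345810463519937451993480136919731308509701729581294682732652063862129405695679096170668466734945966627018750618866917836533156153603730129069436531259086113452341572963559701999421163115574021291065008377020797790193555110581363429638482485847818299464720682751280111638293179527024314658979187699016901508096257281988772854485946444605591143081169120990804862632744165510832567452826974931664540489804200372326934150000456242450495388897320280024318757460965273551840667033365004991973118656571156707850450071131919953251682467468875299488677626606599003820039313610897648109782284597736797514806507569682497927575052433262740287438143673026952043639268646783613708103868765446477605710277999741524412525485997311436417418379018550533328189020107999323685145406701377213004497035523154444704289705254808110798222438405447315286088748753374805051830371945285737033603432886158249344641158788938861312602990753141240469553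07735799786756757591888626815966491321707663986723010231265609264354637170309197501544925819022529919162149874367323651560191746038636880833887725299933944875898707277529744176755590789644938988487221787856267638891542539780459750291809930069321096527740706835234289948227747469221251521019319256896973907707312694696378588276292114613109126229088581742984372484222038722579748753413368927528858524284975623320071071674238099890064893010225413107045499029857268747381137129443299738219138950082349857919370054221051665088738809852574982005267038575835017938766712540191859835436004796134858705834941481914841783055969885158651693674819424382979239640018936578917927627588770550609613727356748658482006489858520699042161119030350566680337796488044569147482737563861661119151212206530522856527582751331063383210092398270291132093876431162401465973654148109224499719156059974889280102511726777054252955239556609026329916729728621246079207912796361861336423692724591631828957844793404165421725508870285141707308466977237719003296426711287875504956546519683471281350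03050246998934692161582151010582901997862053914588092592746534410048383753421125186492031405814429748967606501082866292537087879012160492632227155017866300349723341451276870769161476780282967312171395946184573136525844348117925452974224079411881149929142942747908287078241441395901349472762508505704844792035809237444419387956516061214925903985672919332462194580414730387171216106216618597318456737208483141692017431903369358848276482101329380277352574271702326744602584677830832766831841798117871553661561191229403089368694399620753642120040633382285011649031532414629355653850341930916887000670892987301185772889987412537760174047419662854588861818867344143722410221014038020954815088992191930036415018405607516384847547341672501985316213471396784308694487835788400057223794983055213806760347573351246081378501965461879736802524358820757496409226870400858939416040476622814838878298492875968772701201661252809459212146843573634255747199241710108422438754229916594083229521154960035548110593672982711968037610849641854148688598736879674070537638832071623750809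63728114518979931396413427409044975581416725562945694216070150158935478744385765762761199552698383362694927003391108161175299274750429503510552433243492154659660800675486769304181573808210210047042202731125401052518771113337706169776300635081981329857047576825783714162355088723885834607278975395433105213380281304351341183185826355395702862323089878748662598869255650306361446471189931883550405588051793937316312157989333007189701730120140800524015664274027831252745950139794045009061565059101983344982190140615272560331861956360190037326370886400981747880342197700235542778773508810306684256720493130541100861350908957260812682241131406355038261459401713819573093186932116427932279697375169738549281009541431037734356800298951803587179156079043522226863583373230939604348213291276466029131743561075326260634434816745122925499696010408940732269280769864530904228686003708470953756728069045966630011844237396351008191771570098567789153070300533486872040626949630242995424307663245907070828702656784503841436103422153104755882061046745568251749248487868851583068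6040844132573283870121604101590161494932286704730071391274705570673749196579673868941432671043147588851856991741862825240238826705210069098766256585664790951907462782780298008749850142154317164644601756300537152841671149146879504311653115987048926365283603620401921928798321958764887619686548756064802872366604350335509106666743302750305221436455515588318635069855829333483891395108831425527151273983043357835316229019485873202598384034118137093425671016702815070557235882705838359557289097096261985422609122399776766753504174453495974775900679276394869902941391291191430139399345012224031182408151156922562668823124704433590114722910078890084358634691903372868381243407947159129315168555371050960142442859091013794069214786402938248681814116671873801209121105514374544164261174243991579617937245322519420437992140166714399852499225679044754296950327131198407834776556653477437513709683439273279480032505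

/-- digits `2 l` in base 512 -/
def table : Nat := nat_lit 55648068673684165025046779452723691240577408071920312350303300140324850243383633532384083643594498054027103344124054094754117934227884846359324906616974423953519629970129565595517112193663461433609673027883608890738782177667719661642849660239168459314548969453007649463790157676632761309489959286514231381090380423348230220214565988582402585884719187007979660028407953712253882306337390737005360493500076238699586010703842066558723811292841139819145011768826354687341995981283702337741418303101524549006960935581267000491092472632489857254400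

/-- `2^200` -/
def p200 : Nat := nat_lit 1606938044258990275541962092341162602522202993782792835301376

/-- `n` full windows of 65536 odd numbers starting from `2 lo + 1` -/
def blk (n lo : Nat) (b : Bool) (S C H : Nat) (b' : Bool) (S' C' : Nat) : Bool :=
  run primorial table p200 (pats 65536 plist) 128 9 65536 n lo b S C H (fin b' S' C')

/-- last block: one full window and a partial one -/
def blkEnd (lo len : Nat) (b : Bool) (S C H : Nat) (b' : Bool) (S' C' : Nat) : Bool :=
  run primorial table p200 (pats 65536 plist) 128 9 65536 1 lo b S C H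
    (fun b S C H => seg primorial table p200 (pats 65536 plist) 128 9 (lo + 65536) len b S C H
      (fin b' S' C'))

/-- statement checked for a block -/
def Ok (n lo : Nat) (b : Bool) (S C : Nat) (b' : Bool) (S' C' : Nat) : Prop :=
  ∃ H, blk n lo b S C H b' S' C' = true

/-- statement checked for the last block -/
def OkEnd (lo len : Nat) (b : Bool) (S C : Nat) (b' : Bool) (S' C' : Nat) : Prop :=
  ∃ H, blkEnd lo len b S C H b' S' C' = true

/-- statement checked for the initial block -/
def OkInit (n : Nat) (b' : Bool) (S' C' : Nat) : Prop :=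
  ∃ H, initRun n 5 false 5 4294967297 H (fin b' S' C') = true

end

end Pool.Agent.H36E13726
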