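import Mathlib
import Pool.Agent.H36E13726.Core

open Finset

namespace Pool.Agent.H36E13726

/-- sum of the first `m` primes -/
noncomputable def PS (m : ℕ) : ℕ := ∑ i ∈ range m, Nat.nth Nat.Prime i

/-- number of `k` in `[1,m]` with `PS (2k)` prime -/
noncomputable def cntA (m : ℕ) : ℕ := ((Icc 1 m).filter (fun k => (PS (2 * k)).Prime)).card

theorem PS_succ (m : ℕ) : PS (m + 1) = PS m + Nat.nth Nat.Prime m :=
  Finset.sum_range_succ _ _

theorem cntA_succ (m : ℕ) :
    cntA (m + 1) = cntA m + if (PS (2 * (m + 1))).Prime then 1 else 0 := by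
  classical
  unfold cntA
  rw [Finset.card_filter, Finset.card_filter, Finset.sum_Icc_succ_top (by omega)]

theorem count_eq {y y' : ℕ} (h : y ≤ y') (hn : ∀ z, y ≤ z → z < y' → ¬ z.Prime) :
    Nat.count Nat.Prime y' = Nat.count Nat.Prime y := by
  induction y', h using Nat.le_induction with
  | base => rfl
  | succ n hn' ih =>
    rw [Nat.count_succ, ih (fun z h1 h2 => hn z h1 (by omega)), if_neg (hn n hn' (by omega))]
    simp

/-- state of the computation after all numbers below `y` -/
structure St (y : ℕ) (b : Bool) (S C : ℕ) : Prop where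
  hb : b = true ↔ Nat.count Nat.Prime y % 2 = 1
  hS : S = PS (Nat.count Nat.Prime y)
  hC : ∃ c, C = (Nat.count Nat.Prime y / 2) * 4294967296 + c ∧
    cntA (Nat.count Nat.Prime y / 2) ≤ c ∧ c ≤ Nat.count Nat.Prime y / 2

theorem St.skip {y y' : ℕ} {b S C} (h : St y b S C) (hy : y ≤ y')
    (hn : ∀ z, y ≤ z → z < y' → ¬ z.Prime) : St y' b S C := by
  have e := count_eq hy hn
  refine ⟨?_, ?_, ?_⟩
  · rw [e]; exact h.hb
  · rw [e]; exact h.hS
  · rw [e]; exact h.hC

theorem count_succ_prime {x : ℕ} (hx : x.Prime) :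
    Nat.count Nat.Prime (x + 1) = Nat.count Nat.Prime x + 1 := by
  rw [Nat.count_succ, if_pos hx]

theorem PS_count_succ {x : ℕ} (hx : x.Prime) :
    PS (Nat.count Nat.Prime (x + 1)) = PS (Nat.count Nat.Prime x) + x := by
  rw [count_succ_prime hx, PS_succ, Nat.nth_count hx]

theorem St.odd {x S C : ℕ} (h : St x false S C) (hx : x.Prime) : St (x + 1) true (S + x) C := by
  have hc := count_succ_prime hx
  have h0 : Nat.count Nat.Prime x % 2 = 0 := by
    have := h.hb
    simp at this
    omega
  refine ⟨?_, ?_, ?_⟩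
  · rw [hc]; simp; omega
  · rw [PS_count_succ hx, h.hS]
  · rw [hc]
    have e : (Nat.count Nat.Prime x + 1) / 2 = Nat.count Nat.Prime x / 2 := by omega
    rw [e]; exact h.hC

theorem St.even_any {x S C : ℕ} (h : St x true S C) (hx : x.Prime) :
    St (x + 1) false (S + x) (C + 4294967297) := by
  have hc := count_succ_prime hx
  have h0 : Nat.count Nat.Prime x % 2 = 1 := by
    have := h.hb
    simpa using this
  refine ⟨?_, ?_, ?_⟩
  · rw [hc]; simp; omega
  · rw [PS_count_succ hx, h.hS]
  · rw [hc]
    have e : (Nat.count Nat.Prime x + 1) / 2 = Nat.count Nat.Prime x / 2 + 1 := by omega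
    rw [e]
    obtain ⟨c, h1, h2, h3⟩ := h.hC
    refine ⟨c + 1, by omega, ?_, by omega⟩
    rw [cntA_succ]
    split_ifs <;> omega

theorem St.even_comp {x S C : ℕ} (h : St x true S C) (hx : x.Prime) (hnp : ¬ (S + x).Prime) :
    St (x + 1) false (S + x) (C + 4294967296) := by
  have hc := count_succ_prime hx
  have h0 : Nat.count Nat.Prime x % 2 = 1 := by
    have := h.hb
    simpa using this
  refine ⟨?_, ?_, ?_⟩
  · rw [hc]; simp; omega
  · rw [PS_count_succ hx, h.hS]
  · have hS : PS (Nat.count Nat.Prime (x + 1)) = S + x := by rw [PS_count_succ hx, h.hS]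
    rw [hc]
    have e : (Nat.count Nat.Prime x + 1) / 2 = Nat.count Nat.Prime x / 2 + 1 := by omega
    have e2 : 2 * (Nat.count Nat.Prime x / 2 + 1) = Nat.count Nat.Prime (x + 1) := by omega
    rw [e]
    obtain ⟨c, h1, h2, h3⟩ := h.hC
    refine ⟨c, by omega, ?_, by omega⟩
    rw [cntA_succ, e2, hS, if_neg hnp]
    omega

theorem brec (a c : Bool) (x : Bool) :
    @Bool.rec (fun _ => Bool) a c x = bif x then c else a := by cases x <;> rfl

theorem beq_iff (a b : ℕ) : Nat.beq a b = true ↔ a = b := by rw [Nat.beq_eq]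

theorem surv_spec {S C H : ℕ} {k : ℕ → ℕ → Bool} (h : surv S C H k = true) :
    (∃ H', k (C + 4294967297) H' = true) ∨
    (∃ H', k (C + 4294967296) H' = true ∧ ¬ S.Prime) := by
  unfold surv at h
  simp only [brec] at h
  by_cases h1 : Nat.beq (Nat.mod H 33554432) 0 = true
  · rw [h1] at h
    exact Or.inl ⟨_, h⟩
  · rw [Bool.not_eq_true] at h1
    rw [h1] at h
    simp only [cond_false] at h
    by_cases h2 : Nat.beq (Nat.mod S (Nat.mod H 33554432)) 0 = true
    · rw [h2] at h
      simp only [cond_true] at h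
      by_cases h3 : Nat.beq (Nat.mod H 33554432) 1 = true
      · rw [h3] at h; simp at h
      · rw [Bool.not_eq_true] at h3
        rw [h3] at h
        simp only [cond_false] at h
        by_cases h4 : Nat.ble (Nat.succ (Nat.mod H 33554432)) S = true
        · rw [h4] at h
          simp only [cond_true] at h
          refine Or.inr ⟨_, h, ?_⟩
          have e2 : S % (H % 33554432) = 0 := by
            exact (beq_iff _ _).mp h2
          have e3 : H % 33554432 ≠ 1 := by
            intro hh
            have : Nat.beq (Nat.mod H 33554432) 1 = true := (beq_iff _ _).mpr hh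
            rw [this] at h3; exact absurd h3 (by simp)
          have e4 : H % 33554432 + 1 ≤ S := Nat.le_of_ble_eq_true h4
          intro hp
          rcases (Nat.dvd_prime hp).mp (Nat.dvd_of_mod_eq_zero e2) with h5 | h5
          · exact e3 h5
          · omega
        · rw [Bool.not_eq_true] at h4
          rw [h4] at h; simp at h
    · rw [Bool.not_eq_true] at h2
      rw [h2] at h; simp at h

end Pool.Agent.H36E13726
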