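import Mathlib
import Pool.Agent.H36E13726.Core
import Pool.Agent.H36E13726.Spec1

open Finset

namespace Pool.Agent.H36E13726

theorem p200_eq : p200 = 2 ^ 200 := by decide +kernel

theorem table_spec : ∀ l < 200, Nat.mod (Nat.div table (Nat.pow (2 ^ l) 9)) 512 = 2 * l := by
  decide +kernel

theorem gcd_spec {l m : ℕ} (hl : l ≤ 200) (hm : m % 2 = 1) : Nat.gcd (2 ^ l * m) p200 = 2 ^ l := by
  have e : p200 = 2 ^ l * 2 ^ (200 - l) := by
    rw [p200_eq, ← pow_add]; congr 1; omega
  rw [e, Nat.gcd_mul_left]
  have : Nat.Coprime m (2 ^ (200 - l)) := by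
    apply Nat.Coprime.pow_right
    rw [Nat.coprime_two_right]
    exact Nat.odd_iff.mpr hm
  rw [this, mul_one]

theorem not_prime_even {z : ℕ} (h : 3 ≤ z) (h2 : z % 2 = 0) : ¬ z.Prime := by
  intro hp
  rcases hp.eq_two_or_odd with h3 | h3 <;> omega

theorem bits_step {W J X : ℕ} (hX : X % 2 = 1) (hX3 : 3 ≤ X)
    (hW : ∀ j, W.testBit j = true ↔ (1 ≤ j ∧ j ≤ J ∧ (X + 2 * j).Prime)) (h0 : W ≠ 0) :
    ∃ l m, m % 2 = 1 ∧ W = 2 ^ l * m ∧ 1 ≤ l ∧ l ≤ J ∧ (X + 2 * l).Prime ∧
      (∀ z, X + 1 ≤ z → z < X + 2 * l → ¬ z.Prime) ∧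
      (∀ j, (m - 1).testBit j = true ↔ (1 ≤ j ∧ j ≤ J - l ∧ (X + 2 * l + 2 * j).Prime)) := by
  obtain ⟨l, m, hodd, hWeq⟩ := Nat.exists_eq_two_pow_mul_odd h0
  have hm : m % 2 = 1 := Nat.odd_iff.mp hodd
  have htb : ∀ j, W.testBit j = (decide (j ≥ l) && m.testBit (j - l)) := by
    intro j; rw [hWeq, Nat.testBit_two_pow_mul]
  have hl : W.testBit l = true := by
    rw [htb]; simp [Nat.testBit_zero, hm]
  obtain ⟨h1, h2, h3⟩ := (hW l).mp hl
  refine ⟨l, m, hm, hWeq, h1, h2, h3, ?_, ?_⟩
  · intro z hz1 hz2
    by_cases hz : z % 2 = 0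
    · exact not_prime_even (by omega) hz
    · intro hp
      have e : z = X + 2 * ((z - X) / 2) := by omega
      have h4 : W.testBit ((z - X) / 2) = true := by
        rw [hW]
        refine ⟨by omega, by omega, ?_⟩
        rw [← e]; exact hp
      rw [htb] at h4
      simp only [Bool.and_eq_true, decide_eq_true_eq] at h4
      omega
  · intro j
    have key : (m - 1).testBit j = true ↔ (1 ≤ j ∧ W.testBit (l + j) = true) := by
      rw [htb]
      have e : l + j - l = j := by omega
      rw [e]
      cases j with
      | zero =>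
        have : (m - 1) % 2 = 0 := by omega
        simp [Nat.testBit_zero, this]
      | succ i =>
        rw [Nat.testBit_succ, Nat.testBit_succ]
        have e2 : (m - 1) / 2 = m / 2 := by omega
        rw [e2]
        simp
    rw [key, hW]
    have e3 : X + 2 * (l + j) = X + 2 * l + 2 * j := by ring
    rw [e3]
    constructor
    · rintro ⟨a, b, c, d⟩; exact ⟨a, by omega, d⟩
    · rintro ⟨a, b, c⟩; exact ⟨a, by omega, by omega, c⟩

theorem plist_bd : ∀ a ∈ plist, 3 ≤ a ∧ a ≤ 11904 := by
  have h : plist.all (fun a => Nat.ble 3 a && Nat.ble a 11904) = true := by decide +kernel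
  intro a ha
  have := List.all_eq_true.mp h a ha
  simp only [Bool.and_eq_true] at this
  exact ⟨Nat.le_of_ble_eq_true this.1, Nat.le_of_ble_eq_true this.2⟩

theorem primorial_eq : primorial = plist.foldr (fun a b => a * b) 1 := by decide +kernel

theorem dvd_foldr {S : ℕ} (hS : S.Prime) : ∀ (l : List ℕ), S ∣ l.foldr (fun a b => a * b) 1 →
    ∃ a ∈ l, S ∣ a := by
  intro l
  induction l with
  | nil =>
    intro h
    simp only [List.foldr_nil] at h
    exact absurd (Nat.dvd_one.mp h) hS.one_lt.ne'
  | cons x t ih =>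
    intro h
    simp only [List.foldr_cons] at h
    rcases (Nat.Prime.dvd_mul hS).mp h with h | h
    · exact ⟨x, by simp, h⟩
    · obtain ⟨a, ha, hb⟩ := ih h
      exact ⟨a, by simp [ha], hb⟩

theorem not_prime_of_gcd {S : ℕ} (hS : 11904 < S) (h : Nat.gcd S primorial ≠ 1) : ¬ S.Prime := by
  intro hp
  have hd : S ∣ primorial := by
    by_contra hc
    exact h ((Nat.Prime.coprime_iff_not_dvd hp).mpr hc)
  rw [primorial_eq] at hd
  obtain ⟨a, ha, hb⟩ := dvd_foldr hp _ hd
  have := plist_bd a ha
  have := Nat.le_of_dvd (by omega) hb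
  omega

theorem leaf_spec (fuel : ℕ) : ∀ {W J X : ℕ} {b : Bool} {S C H : ℕ} {k : Kont}, X % 2 = 1 → 3 ≤ X →
    J ≤ 128 → (∀ j, W.testBit j = true ↔ (1 ≤ j ∧ j ≤ J ∧ (X + 2 * j).Prime)) →
    St (X + 1) b S C → 11904 < S → leaf primorial table p200 fuel W X b S C H k = true →
    ∃ b' S' C' H', k b' S' C' H' = true ∧ St (X + 2 * J + 1) b' S' C' ∧ 11904 < S' := by
  induction fuel with
  | zero =>
    intro W J X b S C H k _ _ _ _ _ _ h
    exact absurd h (by simp [leaf])
  | succ n ih =>
    intro W J X b S C H k hX hX3 hJ hW hSt hS h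
    have hun : leaf primorial table p200 (n + 1) W X b S C H k =
      @Bool.rec (fun _ => Bool)
        (@Bool.rec (fun _ => Bool)
          (leaf primorial table p200 n (Nat.sub (Nat.div W (Nat.gcd W p200)) 1)
            (Nat.add X (Nat.mod (Nat.div table (Nat.pow (Nat.gcd W p200) 9)) 512)) true
            (Nat.add S (Nat.add X (Nat.mod (Nat.div table (Nat.pow (Nat.gcd W p200) 9)) 512)))
            C H k)
          (@Bool.rec (fun _ => Bool)
            (leaf primorial table p200 n (Nat.sub (Nat.div W (Nat.gcd W p200)) 1)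
              (Nat.add X (Nat.mod (Nat.div table (Nat.pow (Nat.gcd W p200) 9)) 512)) false
              (Nat.add S (Nat.add X (Nat.mod (Nat.div table (Nat.pow (Nat.gcd W p200) 9)) 512)))
              (Nat.add C 4294967296) H k)
            (surv (Nat.add S (Nat.add X (Nat.mod (Nat.div table (Nat.pow (Nat.gcd W p200) 9)) 512)))
              C H (fun C H =>
              leaf primorial table p200 n (Nat.sub (Nat.div W (Nat.gcd W p200)) 1)
              (Nat.add X (Nat.mod (Nat.div table (Nat.pow (Nat.gcd W p200) 9)) 512)) false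
              (Nat.add S (Nat.add X (Nat.mod (Nat.div table (Nat.pow (Nat.gcd W p200) 9)) 512)))
              C H k))
            (Nat.beq (Nat.gcd (Nat.add S (Nat.add X (Nat.mod (Nat.div table
              (Nat.pow (Nat.gcd W p200) 9)) 512))) primorial) 1))
          b)
        (@Nat.rec (fun _ => Bool) false
          (fun S' _ => @Nat.rec (fun _ => Bool) false
            (fun C' _ => k b (Nat.succ S') (Nat.succ C') H) C) S)
        (Nat.beq W 0) := rfl
    rw [hun] at h
    simp only [brec] at h
    by_cases hW0 : W = 0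
    · have hb : Nat.beq W 0 = true := (beq_iff _ _).mpr hW0
      rw [hb] at h
      simp only [cond_true] at h
      cases S with
      | zero => omega
      | succ S' =>
        cases C with
        | zero => exact absurd h (by simp)
        | succ C' =>
          refine ⟨b, S' + 1, C' + 1, H, h, ?_, hS⟩
          refine hSt.skip (by omega) ?_
          intro z hz1 hz2
          by_cases hz : z % 2 = 0
          · exact not_prime_even (by omega) hz
          · intro hp
            have e : z = X + 2 * ((z - X) / 2) := by omega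
            have h4 : W.testBit ((z - X) / 2) = true := by
              rw [hW]
              refine ⟨by omega, by omega, ?_⟩
              rw [← e]; exact hp
            rw [hW0] at h4
            simp at h4
    · have hb : Nat.beq W 0 = false := by
        rw [← Bool.not_eq_true, beq_iff]; exact hW0
      rw [hb] at h
      simp only [cond_false] at h
      obtain ⟨l, m, hm, hWeq, hl1, hlJ, hlp, hskip, hbits⟩ := bits_step hX hX3 hW hW0
      have hg : Nat.gcd W p200 = 2 ^ l := by rw [hWeq]; exact gcd_spec (by omega) hm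
      have hT : Nat.mod (Nat.div table (Nat.pow (Nat.gcd W p200) 9)) 512 = 2 * l := by
        rw [hg]; exact table_spec l (by omega)
      have hD : Nat.sub (Nat.div W (Nat.gcd W p200)) 1 = m - 1 := by
        rw [hg, hWeq]
        show (2 ^ l * m) / 2 ^ l - 1 = m - 1
        rw [Nat.mul_div_cancel_left _ (by positivity)]
      rw [hT, hD] at h
      have eX : Nat.add X (2 * l) = X + 2 * l := rfl
      have eS : Nat.add S (X + 2 * l) = S + (X + 2 * l) := rfl
      have eC : Nat.add C 4294967296 = C + 4294967296 := rfl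
      rw [eX, eS, eC] at h
      have hSt' : St (X + 2 * l) b S C := hSt.skip (by omega) hskip
      have hfin : ∀ {b' S' C' H'}, St (X + 2 * l + 1) b' S' C' → 11904 < S' →
          leaf primorial table p200 n (m - 1) (X + 2 * l) b' S' C' H' k = true →
          ∃ b' S' C' H', k b' S' C' H' = true ∧ St (X + 2 * J + 1) b' S' C' ∧ 11904 < S' := by
        intro b' S' C' H' h1 h2 h3
        have := ih (J := J - l) (by omega) (by omega) (by omega) hbits h1 h2 h3
        have e : X + 2 * l + 2 * (J - l) + 1 = X + 2 * J + 1 := by omega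
        rwa [e] at this
      cases b with
      | false =>
        simp only [cond_false] at h
        exact hfin (hSt'.odd hlp) (by omega) h
      | true =>
        simp only [cond_true] at h
        by_cases hgc : Nat.gcd (S + (X + 2 * l)) primorial = 1
        · have hb2 : Nat.beq (Nat.gcd (S + (X + 2 * l)) primorial) 1 = true := (beq_iff _ _).mpr hgc
          rw [hb2] at h
          simp only [cond_true] at h
          rcases surv_spec h with ⟨H', h1⟩ | ⟨H', h1, h2⟩
          · exact hfin (hSt'.even_any hlp) (by omega) h1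
          · exact hfin (hSt'.even_comp hlp h2) (by omega) h1
        · have hb2 : Nat.beq (Nat.gcd (S + (X + 2 * l)) primorial) 1 = false := by
            rw [← Bool.not_eq_true, beq_iff]; exact hgc
          rw [hb2] at h
          simp only [cond_false] at h
          exact hfin (hSt'.even_comp hlp (not_prime_of_gcd (by omega) hgc)) (by omega) h

end Pool.Agent.H36E13726
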