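import Mathlib
import Pool.Agent.H36E13726.Core
import Pool.Agent.H36E13726.Spec1
import Pool.Agent.H36E13726.Spec2

open Finset

namespace Pool.Agent.H36E13726

def geo (p : ℕ) : ℕ → ℕ
  | 0 => 0
  | n + 1 => 2 ^ p * geo p n + 1

theorem geo_mul (p n : ℕ) : geo p n * (2 ^ p - 1) + 1 = 2 ^ (p * n) := by
  obtain ⟨q, hq⟩ : ∃ q, 2 ^ p = q + 1 := ⟨2 ^ p - 1, by have := Nat.one_le_two_pow (n := p); omega⟩
  induction n with
  | zero => simp [geo]
  | succ n ih =>
    rw [Nat.mul_succ, pow_add, ← ih, geo, hq]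
    simp only [Nat.add_sub_cancel]
    ring

theorem geo_bits (p : ℕ) (hp : 0 < p) : ∀ n j, (geo p n).testBit j = true ↔ (p ∣ j ∧ j < p * n) := by
  intro n
  induction n with
  | zero => intro j; simp [geo]
  | succ n ih =>
    intro j
    have hlt : 1 < 2 ^ p := Nat.one_lt_two_pow (by omega)
    rw [geo, Nat.testBit_two_pow_mul_add _ hlt]
    by_cases hj : j < p
    · rw [if_pos hj]
      rw [Nat.testBit_one_eq_true_iff_self_eq_zero]
      constructor
      · intro h; subst h; exact ⟨dvd_zero _, by positivity⟩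
      · rintro ⟨h1, _⟩
        exact Nat.eq_zero_of_dvd_of_lt h1 hj
    · rw [if_neg hj, ih]
      have hj' : p ≤ j := by omega
      constructor
      · rintro ⟨h1, h2⟩
        refine ⟨(Nat.dvd_sub_iff_left hj' (dvd_refl p)).mp h1, ?_⟩
        rw [Nat.mul_succ]; omega
      · rintro ⟨h1, h2⟩
        refine ⟨(Nat.dvd_sub_iff_left hj' (dvd_refl p)).mpr h1, ?_⟩
        rw [Nat.mul_succ] at h2; omega

theorem pat_eq (L p : ℕ) (hp : 0 < p) : pat L p = geo p (L / p + 1) := by
  have h : pat L p = (1 <<< (p * (L / p + 1)) - 1) / (1 <<< p - 1) := rfl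
  rw [h, Nat.one_shiftLeft, Nat.one_shiftLeft, ← geo_mul p (L / p + 1), Nat.add_sub_cancel]
  have hlt : 1 < 2 ^ p := Nat.one_lt_two_pow (by omega)
  exact Nat.mul_div_cancel _ (by omega)

theorem pat_spec {L p j : ℕ} (hp : 0 < p) (hj : j ≤ L) : (pat L p).testBit j = true ↔ p ∣ j := by
  rw [pat_eq L p hp, geo_bits p hp]
  constructor
  · exact fun h => h.1
  · intro h
    refine ⟨h, ?_⟩
    have := Nat.lt_mul_div_succ L hp
    omega

theorem off_spec {x p : ℕ} (hp : 3 ≤ p) (hodd : p % 2 = 1) : off x p < p ∧ p ∣ x + 2 * off x p := by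
  have h : off x p = ((p - x % p) * ((p + 1) / 2)) % p := rfl
  refine ⟨by rw [h]; exact Nat.mod_lt _ (by omega), ?_⟩
  set u := p - x % p with hu
  have hv : 2 * ((p + 1) / 2) = p + 1 := by omega
  set v := (p + 1) / 2
  have h1 : p * (u * v / p) + off x p = u * v := by rw [h]; exact Nat.div_add_mod _ _
  have h2 : p * (x / p) + x % p = x := Nat.div_add_mod _ _
  have h3 : x % p < p := Nat.mod_lt _ (by omega)
  have h4 : u + x % p = p := by omega
  have h5 : x + 2 * off x p + 2 * (p * (u * v / p)) = p * (x / p) + p + p * u := by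
    have : 2 * (u * v) = u * (p + 1) := by rw [← hv]; ring
    calc x + 2 * off x p + 2 * (p * (u * v / p))
        = x + 2 * (p * (u * v / p) + off x p) := by ring
      _ = x + u * (p + 1) := by rw [h1, this]
      _ = p * (x / p) + (u + x % p) + p * u := by nlinarith
      _ = _ := by rw [h4]
  have h6 : p ∣ x + 2 * off x p + 2 * (p * (u * v / p)) := by
    rw [h5]
    exact Dvd.dvd.add (Dvd.dvd.add (dvd_mul_right _ _) (dvd_refl _)) (dvd_mul_right _ _)
  exact (Nat.dvd_add_left (Dvd.dvd.mul_left (dvd_mul_right _ _) 2)).mp h6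

theorem mask_spec {L p x j : ℕ} (hp : 3 ≤ p) (hodd : p % 2 = 1) (hj : j ≤ L) :
    ((pat L p) <<< (off x p)).testBit j = true ↔ p ∣ x + 2 * j := by
  obtain ⟨ho1, ho2⟩ := off_spec (x := x) hp hodd
  rw [Nat.testBit_shiftLeft]
  simp only [Bool.and_eq_true, decide_eq_true_eq]
  have hcop : Nat.Coprime p 2 := by
    rw [Nat.coprime_two_right]; exact Nat.odd_iff.mpr hodd
  constructor
  · rintro ⟨h1, h2⟩
    rw [pat_spec (by omega) (by omega)] at h2
    have e : x + 2 * j = x + 2 * off x p + 2 * (j - off x p) := by omega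
    rw [e]
    exact Dvd.dvd.add ho2 (Dvd.dvd.mul_left h2 2)
  · intro h
    by_cases hlt : j < off x p
    · exfalso
      have e : x + 2 * off x p = x + 2 * j + 2 * (off x p - j) := by omega
      rw [e] at ho2
      have h3 : p ∣ 2 * (off x p - j) := (Nat.dvd_add_right h).mp ho2
      have h4 : p ∣ off x p - j := hcop.dvd_of_dvd_mul_left h3
      have := Nat.le_of_dvd (by omega) h4
      omega
    · refine ⟨by omega, ?_⟩
      rw [pat_spec (by omega) (by omega)]
      have e : x + 2 * j = x + 2 * off x p + 2 * (j - off x p) := by omega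
      rw [e] at h
      have h3 : p ∣ 2 * (j - off x p) := (Nat.dvd_add_right ho2).mp h
      exact hcop.dvd_of_dvd_mul_left h3

theorem marks_spec {L x j : ℕ} (hj : j ≤ L) : ∀ (l : List ℕ), (∀ a ∈ l, 3 ≤ a ∧ a % 2 = 1) →
    ((marks x (pats L l)).testBit j = true ↔ ∃ p ∈ l, p ∣ x + 2 * j) := by
  intro l
  induction l with
  | nil =>
    intro _
    have : marks x (pats L []) = 0 := rfl
    rw [this]; simp
  | cons p t ih =>
    intro h
    have e : marks x (pats L (p :: t)) = marks x (pats L t) ||| ((pat L p) <<< (off x p)) := rfl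
    rw [e, Nat.testBit_lor, Bool.or_eq_true, ih (fun a ha => h a (by simp [ha])),
      mask_spec (h p (by simp)).1 (h p (by simp)).2 hj]
    simp only [List.mem_cons, exists_eq_or_imp]
    exact or_comm

def isPl (l : List ℕ) (q : ℕ) : Bool :=
  List.rec (motive := fun _ => Bool) true
    (fun p _ ih => Bool.rec (motive := fun _ => Bool) ih (Nat.ble q p) (Nat.beq (Nat.mod q p) 0)) l

theorem isP_eq (q : ℕ) : isP q = isPl small q := rfl

theorem isPl_cons (p : ℕ) (l : List ℕ) (q : ℕ) :
    isPl (p :: l) q = bif Nat.beq (Nat.mod q p) 0 then Nat.ble q p else isPl l q := by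
  have : isPl (p :: l) q =
    @Bool.rec (fun _ => Bool) (isPl l q) (Nat.ble q p) (Nat.beq (Nat.mod q p) 0) := rfl
  rw [this, brec]

theorem isPl_of (q : ℕ) : ∀ l : List ℕ, (∀ p ∈ l, p ∣ q → q ≤ p) → isPl l q = true := by
  intro l
  induction l with
  | nil => intro _; rfl
  | cons p t ih =>
    intro h
    rw [isPl_cons]
    by_cases hd : p ∣ q
    · have : Nat.beq (Nat.mod q p) 0 = true := (beq_iff _ _).mpr (Nat.mod_eq_zero_of_dvd hd)
      rw [this]
      exact Nat.ble_eq_true_of_le (h p (by simp) hd)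
    · have : Nat.beq (Nat.mod q p) 0 = false := by
        rw [← Bool.not_eq_true, beq_iff]
        intro hh; exact hd (Nat.dvd_of_mod_eq_zero hh)
      rw [this]
      exact ih (fun a ha => h a (by simp [ha]))

theorem of_isPl (q : ℕ) : ∀ l : List ℕ, isPl l q = true →
    (∀ p ∈ l, ¬ p ∣ q) ∨ (∃ p ∈ l, p ∣ q ∧ q ≤ p) := by
  intro l
  induction l with
  | nil => intro _; left; simp
  | cons p t ih =>
    intro h
    rw [isPl_cons] at h
    by_cases hd : p ∣ q
    · have : Nat.beq (Nat.mod q p) 0 = true := (beq_iff _ _).mpr (Nat.mod_eq_zero_of_dvd hd)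
      rw [this] at h
      exact Or.inr ⟨p, by simp, hd, Nat.le_of_ble_eq_true h⟩
    · have : Nat.beq (Nat.mod q p) 0 = false := by
        rw [← Bool.not_eq_true, beq_iff]
        intro hh; exact hd (Nat.dvd_of_mod_eq_zero hh)
      rw [this] at h
      rcases ih h with h1 | ⟨a, ha, hb⟩
      · left
        intro a ha
        rcases List.mem_cons.mp ha with h2 | h2
        · rw [h2]; exact hd
        · exact h1 a h2
      · exact Or.inr ⟨a, by simp [ha], hb⟩

theorem small_prime : ∀ p ∈ small, p.Prime := by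
  intro p hp
  unfold small at hp
  simp only [List.mem_cons, List.not_mem_nil, or_false] at hp
  rcases hp with h | h | h | h | h | h | h | h | h | h | h | h | h | h | h | h | h | h | h | h | h |
    h | h | h | h | h | h | h <;> rw [h] <;> norm_num

theorem small_complete {p : ℕ} (hp : p.Prime) (h2 : p ≠ 2) (h : p < 113) : p ∈ small := by
  unfold small
  interval_cases p <;> first | (exact absurd rfl h2) | decide | (exfalso; revert hp; norm_num; done)

theorem isP_iff {q : ℕ} (hq : 3 ≤ q) (hodd : q % 2 = 1) (hlt : q < 12769) :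
    isP q = true ↔ q.Prime := by
  rw [isP_eq]
  constructor
  · intro h
    rcases of_isPl q small h with h1 | ⟨p, hp, hd, hle⟩
    · by_contra hnp
      have hm : (Nat.minFac q).Prime := Nat.minFac_prime (by omega)
      have hsq : Nat.minFac q ^ 2 ≤ q := Nat.minFac_sq_le_self (by omega) hnp
      have h3 : Nat.minFac q < 113 := by
        by_contra hc
        have : 113 ≤ Nat.minFac q := by omega
        nlinarith
      have h4 : Nat.minFac q ≠ 2 := by
        intro h5
        have := Nat.minFac_dvd q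
        rw [h5] at this
        omega
      exact h1 _ (small_complete hm h4 h3) (Nat.minFac_dvd q)
    · have hpp := small_prime p hp
      have : p ≤ q := Nat.le_of_dvd (by omega) hd
      have : q = p := by omega
      rw [this]; exact hpp
  · intro hp
    apply isPl_of
    intro p hp' hd
    rcases (Nat.dvd_prime hp).mp hd with h | h
    · have := (small_prime p hp').one_lt
      omega
    · omega

theorem plist_filter : plist = ((List.range 5951).map (fun i => 2 * i + 3)).filter isP := by
  decide +kernel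

theorem plist_mem {q : ℕ} : q ∈ plist ↔ (q.Prime ∧ q ≠ 2 ∧ q ≤ 11904) := by
  rw [plist_filter, List.mem_filter, List.mem_map]
  constructor
  · rintro ⟨⟨i, hi, hq⟩, h⟩
    rw [List.mem_range] at hi
    rw [isP_iff (by omega) (by omega) (by omega)] at h
    exact ⟨h, by omega, by omega⟩
  · rintro ⟨hp, h2, hle⟩
    have h3 := hp.two_le
    have hodd : q % 2 = 1 := by
      rcases hp.eq_two_or_odd with h | h
      · exact absurd h h2
      · exact h
    refine ⟨⟨(q - 3) / 2, List.mem_range.mpr (by omega), by omega⟩, ?_⟩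
    rw [isP_iff (by omega) hodd (by omega)]
    exact hp

theorem prime_crit {x : ℕ} (h1 : 11905 ≤ x) (hodd : x % 2 = 1) (h2 : x < 11905 ^ 2) :
    x.Prime ↔ ¬ ∃ p ∈ plist, p ∣ x := by
  constructor
  · rintro hp ⟨p, hm, hd⟩
    obtain ⟨hpp, _, hle⟩ := plist_mem.mp hm
    rcases (Nat.dvd_prime hp).mp hd with h | h
    · exact absurd h hpp.one_lt.ne'
    · omega
  · intro h
    by_contra hnp
    have hm : (Nat.minFac x).Prime := Nat.minFac_prime (by omega)
    have hsq : Nat.minFac x ^ 2 ≤ x := Nat.minFac_sq_le_self (by omega) hnp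
    have h3 : Nat.minFac x ≤ 11904 := by
      by_contra hc
      have : 11905 ≤ Nat.minFac x := by omega
      nlinarith
    have h4 : Nat.minFac x ≠ 2 := by
      intro h5
      have := Nat.minFac_dvd x
      rw [h5] at this
      omega
    exact h ⟨_, plist_mem.mpr ⟨hm, h4, h3⟩, Nat.minFac_dvd x⟩

theorem sieve_spec {lo len j : ℕ} (hlo : 5952 ≤ lo) (hlen : len ≤ 65536)
    (hb : 2 * (lo + len) + 1 ≤ 11905 ^ 2) :
    (sieve (pats 65536 plist) lo len).testBit j = true ↔ (j < len ∧ (2 * (lo + j) + 1).Prime) := by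
  have e : sieve (pats 65536 plist) lo len =
    (marks (2 * lo + 1) (pats 65536 plist) % (1 <<< len)) ^^^ (1 <<< len - 1) := rfl
  rw [e, Nat.one_shiftLeft, Nat.testBit_xor, Nat.testBit_mod_two_pow, Nat.testBit_two_pow_sub_one]
  by_cases hj : j < len
  · have hm := marks_spec (L := 65536) (x := 2 * lo + 1) (j := j) (by omega) plist (by
      intro a ha
      obtain ⟨hp, h2, _⟩ := plist_mem.mp ha
      have := hp.two_le
      rcases hp.eq_two_or_odd with h | h <;> omega)
    have e2 : 2 * lo + 1 + 2 * j = 2 * (lo + j) + 1 := by ring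
    rw [e2] at hm
    rw [prime_crit (x := 2 * (lo + j) + 1) (by omega) (by omega) (by omega), ← hm]
    simp [hj]
  · simp [hj]

end Pool.Agent.H36E13726
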