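import Mathlib
import Pool.Agent.H36E13726.Core
import Pool.Agent.H36E13726.Spec1
import Pool.Agent.H36E13726.Spec2
import Pool.Agent.H36E13726.Spec3

open Finset

set_option maxRecDepth 100000

namespace Pool.Agent.H36E13726

/-- conclusion of a Hoare triple in continuation passing style -/
def Post (y : ℕ) (k : Kont) : Prop :=
  ∃ b' S' C' H', k b' S' C' H' = true ∧ St y b' S' C' ∧ 11904 < S'

theorem leaf_zero {n X : ℕ} {b : Bool} {S C H : ℕ} {k : Kont}
    (h : leaf primorial table p200 (n + 1) 0 X b S C H k = true) :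
    k b S C H = true := by
  have hun : leaf primorial table p200 (n + 1) 0 X b S C H k =
    @Nat.rec (fun _ => Bool) false
          (fun S' _ => @Nat.rec (fun _ => Bool) false
            (fun C' _ => k b (Nat.succ S') (Nat.succ C') H) C) S := rfl
  rw [hun] at h
  cases S with
  | zero => exact absurd h (by simp)
  | succ S' =>
    cases C with
    | zero => exact absurd h (by simp)
    | succ C' => exact h

theorem split_zero_eq (w X : ℕ) (b : Bool) (S C H : ℕ) (k : Kont) :
    split primorial table p200 128 0 w X b S C H k =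
      leaf primorial table p200 129 (2 * w) X b S C H k := rfl

theorem split_succ_eq (d w X : ℕ) (b : Bool) (S C H : ℕ) (k : Kont) :
    split primorial table p200 128 (d + 1) w X b S C H k =
      split primorial table p200 128 d (w % (1 <<< (128 * 2 ^ d))) X b S C H
        (fun b S C H => split primorial table p200 128 d (w >>> (128 * 2 ^ d))
          (X + 2 * (128 * 2 ^ d)) b S C H k) := rfl

theorem split_w0 : ∀ (d : ℕ) {X : ℕ} {b : Bool} {S C H : ℕ} {k : Kont},
    split primorial table p200 128 d 0 X b S C H k = true → k b S C H = true := by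
  intro d
  induction d with
  | zero =>
    intro X b S C H k h
    rw [split_zero_eq] at h
    exact leaf_zero (n := 128) h
  | succ d ih =>
    intro X b S C H k h
    rw [split_succ_eq] at h
    simp only [Nat.zero_mod, Nat.zero_shiftRight] at h
    exact ih (ih h)

theorem split_spec : ∀ (d : ℕ) {w J X : ℕ} {b : Bool} {S C H : ℕ} {k : Kont}, X % 2 = 1 → 3 ≤ X →
    J ≤ 128 * 2 ^ d → (∀ j, w.testBit j = true ↔ (j < J ∧ (X + 2 * (j + 1)).Prime)) →
    St (X + 1) b S C → 11904 < S → split primorial table p200 128 d w X b S C H k = true →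
    Post (X + 2 * J + 1) k := by
  intro d
  induction d with
  | zero =>
    intro w J X b S C H k hX hX3 hJ hw hSt hS h
    rw [split_zero_eq] at h
    refine leaf_spec 129 (J := J) hX hX3 (by simpa using hJ) ?_ hSt hS h
    intro j
    cases j with
    | zero => simp [Nat.testBit_zero]
    | succ i =>
      rw [Nat.testBit_succ]
      have e : 2 * w / 2 = w := by omega
      rw [e, hw]
      constructor
      · rintro ⟨h1, h2⟩; exact ⟨by omega, by omega, h2⟩
      · rintro ⟨_, h1, h2⟩; exact ⟨by omega, h2⟩
  | succ d ih =>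
    intro w J X b S C H k hX hX3 hJ hw hSt hS h
    rw [split_succ_eq] at h
    set N := 128 * 2 ^ d with hN
    have hJ2 : J ≤ 2 * N := by rw [pow_succ] at hJ; omega
    have hlow : ∀ j, (w % (1 <<< N)).testBit j = true ↔
        (j < min J N ∧ (X + 2 * (j + 1)).Prime) := by
      intro j
      rw [Nat.one_shiftLeft, Nat.testBit_mod_two_pow]
      simp only [Bool.and_eq_true, decide_eq_true_eq, hw, lt_min_iff]
      tauto
    obtain ⟨b1, S1, C1, H1, hk1, hSt1, hS1⟩ := ih (J := min J N) hX hX3 (min_le_right _ _) hlow hSt hS h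
    by_cases hJN : J ≤ N
    · have hz : w >>> N = 0 := by
        apply Nat.eq_of_testBit_eq
        intro j
        rw [Nat.zero_testBit, ← Bool.not_eq_true, Nat.testBit_shiftRight, hw]
        rintro ⟨h1, _⟩
        omega
      rw [hz] at hk1
      refine ⟨b1, S1, C1, H1, split_w0 d hk1, ?_, hS1⟩
      rwa [min_eq_left hJN] at hSt1
    · have hmin : min J N = N := min_eq_right (by omega)
      rw [hmin] at hSt1
      have hhigh : ∀ j, (w >>> N).testBit j = true ↔
          (j < J - N ∧ (X + 2 * N + 2 * (j + 1)).Prime) := by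
        intro j
        rw [Nat.testBit_shiftRight, hw]
        have e : X + 2 * (N + j + 1) = X + 2 * N + 2 * (j + 1) := by ring
        rw [e]
        constructor
        · rintro ⟨h1, h2⟩; exact ⟨by omega, h2⟩
        · rintro ⟨h1, h2⟩; exact ⟨by omega, h2⟩
      have := ih (J := J - N) (X := X + 2 * N) (by omega) (by omega) (by omega) hhigh hSt1 hS1 hk1
      have e : X + 2 * N + 2 * (J - N) + 1 = X + 2 * J + 1 := by omega
      rwa [e] at this

theorem seg_spec {lo len : ℕ} {b : Bool} {S C H : ℕ} {k : Kont} (hlo : 5952 ≤ lo)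
    (hlen : len ≤ 65536) (hb : 2 * (lo + len) + 1 ≤ 141729025) (hSt : St (2 * lo) b S C)
    (hS : 11904 < S)
    (h : seg primorial table p200 (pats 65536 plist) 128 9 lo len b S C H k = true) :
    Post (2 * (lo + len)) k := by
  have h' : split primorial table p200 128 9 (sieve (pats 65536 plist) lo len) (2 * lo - 1)
    b S C H k = true := h
  have := split_spec 9 (w := sieve (pats 65536 plist) lo len) (J := len) (X := 2 * lo - 1)
    (b := b) (S := S) (C := C) (H := H) (k := k) (by omega) (by omega) (by norm_num; omega) (by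
      intro j
      rw [sieve_spec hlo hlen (by norm_num; exact hb)]
      have e : 2 * (lo + j) + 1 = 2 * lo - 1 + 2 * (j + 1) := by omega
      rw [e]) (by
      have e : 2 * lo - 1 + 1 = 2 * lo := by omega
      rw [e]; exact hSt) hS h'
  have e : 2 * lo - 1 + 2 * len + 1 = 2 * (lo + len) := by omega
  rwa [e] at this

theorem run_zero_eq (lo : ℕ) (b : Bool) (S C H : ℕ) (k : Kont) :
    run primorial table p200 (pats 65536 plist) 128 9 65536 0 lo b S C H k = k b S C H := rfl

theorem run_succ_eq (n lo : ℕ) (b : Bool) (S C H : ℕ) (k : Kont) :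
    run primorial table p200 (pats 65536 plist) 128 9 65536 (n + 1) lo b S C H k =
      seg primorial table p200 (pats 65536 plist) 128 9 lo 65536 b S C H
        (fun b S C H => run primorial table p200 (pats 65536 plist) 128 9 65536 n (lo + 65536)
          b S C H k) := rfl

theorem run_spec : ∀ (n : ℕ) {lo : ℕ} {b : Bool} {S C H : ℕ} {k : Kont}, 5952 ≤ lo →
    2 * (lo + n * 65536) + 1 ≤ 141729025 → St (2 * lo) b S C → 11904 < S →
    run primorial table p200 (pats 65536 plist) 128 9 65536 n lo b S C H k = true →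
    Post (2 * (lo + n * 65536)) k := by
  intro n
  induction n with
  | zero =>
    intro lo b S C H k _ _ hSt hS h
    rw [run_zero_eq] at h
    refine ⟨b, S, C, H, h, ?_, hS⟩
    simpa using hSt
  | succ n ih =>
    intro lo b S C H k hlo hb hSt hS h
    rw [run_succ_eq] at h
    obtain ⟨b1, S1, C1, H1, hk1, hSt1, hS1⟩ := seg_spec (len := 65536) hlo (le_refl _) (by omega) hSt hS h
    have := ih (lo := lo + 65536) (by omega) (by
      have : lo + 65536 + n * 65536 = lo + (n + 1) * 65536 := by ring
      rw [this]; exact hb) hSt1 hS1 hk1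
    have e : lo + 65536 + n * 65536 = lo + (n + 1) * 65536 := by ring
    rwa [e] at this

theorem fin_spec {b' : Bool} {S' C' : ℕ} {b : Bool} {S C H : ℕ} (h : fin b' S' C' b S C H = true) :
    b = b' ∧ S = S' ∧ C = C' := by
  have h' : ((b == b') && (Nat.beq S S' && Nat.beq C C')) = true := h
  simp only [Bool.and_eq_true, beq_iff_eq, beq_iff] at h'
  exact ⟨h'.1, h'.2.1, h'.2.2⟩

/-- invariant between blocks -/
def Inv (lo : ℕ) (b : Bool) (S C : ℕ) : Prop := St (2 * lo) b S C ∧ 11904 < S

theorem ok_step {n lo : ℕ} {b : Bool} {S C : ℕ} {b' : Bool} {S' C' : ℕ} (lo' : ℕ)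
    (h : Ok n lo b S C b' S' C')
    (hlo : 5952 ≤ lo) (hb : 2 * (lo + n * 65536) + 1 ≤ 141729025) (he : lo' = lo + n * 65536)
    (hi : Inv lo b S C) : Inv lo' b' S' C' := by
  obtain ⟨H, h⟩ := h
  obtain ⟨b1, S1, C1, H1, hk1, hSt1, hS1⟩ := run_spec n hlo hb hi.1 hi.2 h
  obtain ⟨e1, e2, e3⟩ := fin_spec hk1
  subst e1 e2 e3 he
  exact ⟨hSt1, hS1⟩

theorem okEnd_step {lo len : ℕ} {b : Bool} {S C : ℕ} {b' : Bool} {S' C' : ℕ}
    (h : OkEnd lo len b S C b' S' C')
    (hlo : 5952 ≤ lo) (hlen : len ≤ 65536) (hb : 2 * (lo + 65536 + len) + 1 ≤ 141729025)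
    (hi : Inv lo b S C) : Inv (lo + 65536 + len) b' S' C' := by
  obtain ⟨H, h⟩ := h
  obtain ⟨b1, S1, C1, H1, hk1, hSt1, hS1⟩ := run_spec 1 hlo (by omega) hi.1 hi.2 h
  rw [one_mul] at hSt1
  obtain ⟨b2, S2, C2, H2, hk2, hSt2, hS2⟩ := seg_spec (by omega) hlen hb hSt1 hS1 hk1
  obtain ⟨e1, e2, e3⟩ := fin_spec hk2
  subst e1 e2 e3
  exact ⟨hSt2, hS2⟩

theorem initRun_succ_eq (n q : ℕ) (b : Bool) (S C H : ℕ) (k : Kont) :
    initRun (n + 1) q b S C H k =
      @Bool.rec (fun _ => Bool)
        (initRun n (q + 2) b S C H k)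
        (@Bool.rec (fun _ => Bool)
          (initRun n (q + 2) true (S + q) C H k)
          (surv (S + q) C H (fun C H => initRun n (q + 2) false (S + q) C H k))
          b)
        (isP q) := rfl

theorem initRun_spec : ∀ (n : ℕ) {q : ℕ} {b : Bool} {S C H : ℕ} {k : Kont}, 5 ≤ q → q % 2 = 1 →
    q + 2 * n ≤ 12769 → St (q - 1) b S C → initRun n q b S C H k = true →
    ∃ b' S' C' H', k b' S' C' H' = true ∧ St (q + 2 * n - 1) b' S' C' := by
  intro n
  induction n with
  | zero =>
    intro q b S C H k _ _ _ hSt h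
    exact ⟨b, S, C, H, h, by simpa using hSt⟩
  | succ n ih =>
    intro q b S C H k hq hodd hle hSt h
    rw [initRun_succ_eq] at h
    simp only [brec] at h
    have hfin : ∀ {b' S' C' H'}, St (q + 1) b' S' C' → initRun n (q + 2) b' S' C' H' k = true →
        ∃ b' S' C' H', k b' S' C' H' = true ∧ St (q + 2 * (n + 1) - 1) b' S' C' := by
      intro b' S' C' H' h1 h2
      have := ih (q := q + 2) (by omega) (by omega) (by omega) (by
        have e : q + 2 - 1 = q + 1 := by omega
        rw [e]; exact h1) h2
      have e : q + 2 + 2 * n - 1 = q + 2 * (n + 1) - 1 := by omega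
      rwa [e] at this
    have hSt' : St q b S C := hSt.skip (by omega) (by
      intro z h1 h2
      exact not_prime_even (by omega) (by omega))
    by_cases hp : q.Prime
    · have hP : isP q = true := (isP_iff (by omega) hodd (by omega)).mpr hp
      rw [hP] at h
      simp only [cond_true] at h
      cases b with
      | false =>
        simp only [cond_false] at h
        exact hfin (hSt'.odd hp) h
      | true =>
        simp only [cond_true] at h
        rcases surv_spec h with ⟨H', h1⟩ | ⟨H', h1, h2⟩
        · exact hfin (hSt'.even_any hp) h1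
        · exact hfin (hSt'.even_comp hp h2) h1
    · have hP : isP q = false := by
        rw [← Bool.not_eq_true, isP_iff (by omega) hodd (by omega)]; exact hp
      rw [hP] at h
      simp only [cond_false] at h
      refine hfin (hSt'.skip (by omega) ?_) h
      intro z h1 h2
      have : z = q := by omega
      rw [this]; exact hp

theorem count_four : Nat.count Nat.Prime 4 = 2 := by decide

theorem PS_two : PS 2 = 5 := by
  have h2 : Nat.nth Nat.Prime 0 = 2 := Nat.nth_prime_zero_eq_two
  have h3 : Nat.nth Nat.Prime 1 = 3 := Nat.nth_prime_one_eq_three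
  rw [PS_succ, PS_succ, h2, h3]
  simp [PS]

theorem init_St : St 4 false 5 4294967297 := by
  refine ⟨?_, ?_, ?_⟩
  · rw [count_four]; simp
  · rw [count_four, PS_two]
  · rw [count_four]
    refine ⟨1, by norm_num, ?_, by norm_num⟩
    have e : 2 / 2 = 0 + 1 := by norm_num
    rw [e, cntA_succ]
    have : cntA 0 = 0 := by simp [cntA]
    rw [this]
    split_ifs <;> omega

theorem okInit_step {n : ℕ} {b' : Bool} {S' C' : ℕ} (h : OkInit n b' S' C') (hn : n ≤ 6000)
    (hS : 11904 < S') : Inv (n + 2) b' S' C' := by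
  obtain ⟨H, h⟩ := h
  obtain ⟨b1, S1, C1, H1, hk1, hSt1⟩ := initRun_spec n (by norm_num) (by norm_num) (by omega)
    init_St h
  obtain ⟨e1, e2, e3⟩ := fin_spec hk1
  subst e1 e2 e3
  have e : 5 + 2 * n - 1 = 2 * (n + 2) := by omega
  rw [e] at hSt1
  exact ⟨hSt1, hS⟩

end Pool.Agent.H36E13726
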