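import Pool.Agent.H36E13726.B00
import Pool.Agent.H36E13726.B01
import Pool.Agent.H36E13726.B02
import Pool.Agent.H36E13726.B03
import Pool.Agent.H36E13726.B04
import Pool.Agent.H36E13726.B05
import Pool.Agent.H36E13726.B06
import Pool.Agent.H36E13726.B07
import Pool.Agent.H36E13726.B08
import Pool.Agent.H36E13726.B09
import Pool.Agent.H36E13726.B10
import Pool.Agent.H36E13726.B11
import Pool.Agent.H36E13726.B12
import Pool.Agent.H36E13726.B13
import Pool.Agent.H36E13726.B14
import Pool.Agent.H36E13726.B15
import Pool.Agent.H36E13726.B16
import Pool.Agent.H36E13726.B17
import Pool.Agent.H36E13726.B18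
import Pool.Agent.H36E13726.B19
import Pool.Agent.H36E13726.B20
import Pool.Agent.H36E13726.B21
import Pool.Agent.H36E13726.B22
import Pool.Agent.H36E13726.B23
import Pool.Agent.H36E13726.B24
import Pool.Agent.H36E13726.B25
import Pool.Agent.H36E13726.B26
import Pool.Agent.H36E13726.B27
import Pool.Agent.H36E13726.B28
import Pool.Agent.H36E13726.B29
import Pool.Agent.H36E13726.B30
import Pool.Agent.H36E13726.B31
import Pool.Agent.H36E13726.B32
import Pool.Agent.H36E13726.B33
import Pool.Agent.H36E13726.Spec4

set_option maxRecDepth 100000

namespace Pool.Agent.H36E13726

theorem i0 : Inv 5952 false 7891043 3062311682152 :=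
  okInit_step (n := 5950) tInit (by norm_num) (by norm_num)

theorem i1 : Inv 71488 true 900275538 28479928140528 :=
  ok_step 71488 t0 (by norm_num) (by norm_num) (by norm_num) i0

theorem i2 : Inv 137024 true 3125396272 51453708207374 :=
  ok_step 137024 t1 (by norm_num) (by norm_num) (by norm_num) i1

theorem i3 : Inv 202560 false 6608655621 73512660240042 :=
  ok_step 202560 t2 (by norm_num) (by norm_num) (by norm_num) i2

theorem i4 : Inv 268096 false 11336860009 95099165870162 :=
  ok_step 268096 t3 (by norm_num) (by norm_num) (by norm_num) i3

theorem i5 : Inv 333632 true 17247812052 116200340195833 :=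
  ok_step 333632 t4 (by norm_num) (by norm_num) (by norm_num) i4

theorem i6 : Inv 399168 false 24375353683 137091061123988 :=
  ok_step 399168 t5 (by norm_num) (by norm_num) (by norm_num) i5

theorem i7 : Inv 464704 true 32660527738 157685429308723 :=
  ok_step 464704 t6 (by norm_num) (by norm_num) (by norm_num) i6

theorem i8 : Inv 530240 true 42056536918 177966264880812 :=
  ok_step 530240 t7 (by norm_num) (by norm_num) (by norm_num) i7

theorem i9 : Inv 595776 true 52709973102 198281460191243 :=
  ok_step 595776 t8 (by norm_num) (by norm_num) (by norm_num) i8

theorem i10 : Inv 661312 false 64403246591 218257353085344 :=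
  ok_step 661312 t9 (by norm_num) (by norm_num) (by norm_num) i9

theorem i11 : Inv 726848 true 77251376232 238130166764301 :=
  ok_step 726848 t10 (by norm_num) (by norm_num) (by norm_num) i10

theorem i12 : Inv 792384 false 91224105435 257887016326280 :=
  ok_step 792384 t11 (by norm_num) (by norm_num) (by norm_num) i11

theorem i13 : Inv 857920 false 106321104465 277532196738522 :=
  ok_step 857920 t12 (by norm_num) (by norm_num) (by norm_num) i12

theorem i14 : Inv 923456 true 122516385264 297052823099209 :=
  ok_step 923456 t13 (by norm_num) (by norm_num) (by norm_num) i13

theorem i15 : Inv 988992 false 139844775551 316517614885056 :=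
  ok_step 988992 t14 (by norm_num) (by norm_num) (by norm_num) i14

theorem i16 : Inv 1054528 false 158344545077 335960931834411 :=
  ok_step 1054528 t15 (by norm_num) (by norm_num) (by norm_num) i15

theorem i17 : Inv 1120064 false 177836612315 355210975255413 :=
  ok_step 1120064 t16 (by norm_num) (by norm_num) (by norm_num) i16

theorem i18 : Inv 1185600 true 198417904758 374379414297780 :=
  ok_step 1185600 t17 (by norm_num) (by norm_num) (by norm_num) i17

theorem i19 : Inv 1251136 false 220077889427 393470543928830 :=
  ok_step 1251136 t18 (by norm_num) (by norm_num) (by norm_num) i18

theorem i20 : Inv 1316672 true 242949386406 412596033298271 :=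
  ok_step 1316672 t19 (by norm_num) (by norm_num) (by norm_num) i19

theorem i21 : Inv 1382208 true 266812044286 431584083714245 :=
  ok_step 1382208 t20 (by norm_num) (by norm_num) (by norm_num) i20

theorem i22 : Inv 1447744 false 291824301147 450567839162882 :=
  ok_step 1447744 t21 (by norm_num) (by norm_num) (by norm_num) i21

theorem i23 : Inv 1513280 false 317798444745 469405565723481 :=
  ok_step 1513280 t22 (by norm_num) (by norm_num) (by norm_num) i22

theorem i24 : Inv 1578816 true 344964401922 488269062087817 :=
  ok_step 1578816 t23 (by norm_num) (by norm_num) (by norm_num) i23

theorem i25 : Inv 1644352 true 373295344086 507145443354108 :=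
  ok_step 1644352 t24 (by norm_num) (by norm_num) (by norm_num) i24

theorem i26 : Inv 1709888 false 402501876281 525845730961163 :=
  ok_step 1709888 t25 (by norm_num) (by norm_num) (by norm_num) i25

theorem i27 : Inv 1775424 true 432483014524 544318385301571 :=
  ok_step 1775424 t26 (by norm_num) (by norm_num) (by norm_num) i26

theorem i28 : Inv 1840960 true 464025149366 563048737679723 :=
  ok_step 1840960 t27 (by norm_num) (by norm_num) (by norm_num) i27

theorem i29 : Inv 1906496 false 496472992307 581645946071733 :=
  ok_step 1906496 t28 (by norm_num) (by norm_num) (by norm_num) i28

theorem i30 : Inv 1972032 false 530115329543 600273219234809 :=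
  ok_step 1972032 t29 (by norm_num) (by norm_num) (by norm_num) i29

theorem i31 : Inv 2037568 false 564632709003 618758758477106 :=
  ok_step 2037568 t30 (by norm_num) (by norm_num) (by norm_num) i30

theorem i32 : Inv 2103104 true 600256537558 637231412817514 :=
  ok_step 2103104 t31 (by norm_num) (by norm_num) (by norm_num) i31

theorem i33 : Inv 2168640 false 636707588343 655558038269838 :=
  ok_step 2168640 t32 (by norm_num) (by norm_num) (by norm_num) i32

theorem i34 : Inv 2234176 false 674583906153 674030692610209 :=
  ok_step 2234176 t33 (by norm_num) (by norm_num) (by norm_num) i33

theorem i35 : Inv 2299712 true 713298728484 692365907997132 :=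
  ok_step 2299712 t34 (by norm_num) (by norm_num) (by norm_num) i34

theorem i36 : Inv 2365248 false 753133241859 710705418351365 :=
  ok_step 2365248 t35 (by norm_num) (by norm_num) (by norm_num) i35

theorem i37 : Inv 2430784 false 793880450765 728950439425101 :=
  ok_step 2430784 t36 (by norm_num) (by norm_num) (by norm_num) i36

theorem i38 : Inv 2496320 true 836298345992 747435978667376 :=
  ok_step 2496320 t37 (by norm_num) (by norm_num) (by norm_num) i37

theorem i39 : Inv 2561856 false 879016484051 765573625558661 :=
  ok_step 2561856 t38 (by norm_num) (by norm_num) (by norm_num) i38

theorem i40 : Inv 2627392 false 923106378035 783818646632378 :=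
  ok_step 2627392 t39 (by norm_num) (by norm_num) (by norm_num) i39

theorem i41 : Inv 2692928 false 968182185619 802012128098523 :=
  ok_step 2692928 t40 (by norm_num) (by norm_num) (by norm_num) i40

theorem i42 : Inv 2758464 true 1014034387468 820072465578501 :=
  ok_step 2758464 t41 (by norm_num) (by norm_num) (by norm_num) i41

theorem i43 : Inv 2824000 true 1060815551262 838068378549042 :=
  ok_step 2824000 t42 (by norm_num) (by norm_num) (by norm_num) i42

theorem i44 : Inv 2889536 false 1108825208139 856115831127123 :=
  ok_step 2889536 t43 (by norm_num) (by norm_num) (by norm_num) i43

theorem i45 : Inv 2955072 true 1158068045312 874206233378172 :=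
  ok_step 2955072 t44 (by norm_num) (by norm_num) (by norm_num) i44

theorem i46 : Inv 3020608 true 1208296728498 892257980923572 :=
  ok_step 3020608 t45 (by norm_num) (by norm_num) (by norm_num) i45

theorem i47 : Inv 3086144 false 1259588359079 910296843567054 :=
  ok_step 3086144 t46 (by norm_num) (by norm_num) (by norm_num) i46

theorem i48 : Inv 3151680 true 1312072156468 928361476014336 :=
  ok_step 3151680 t47 (by norm_num) (by norm_num) (by norm_num) i47

theorem i49 : Inv 3217216 true 1364844421384 946155525522007 :=
  ok_step 3217216 t48 (by norm_num) (by norm_num) (by norm_num) i48

theorem i50 : Inv 3282752 true 1419158796494 964099898884995 :=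
  ok_step 3282752 t49 (by norm_num) (by norm_num) (by norm_num) i49

theorem i51 : Inv 3348288 true 1474366246346 981979847738557 :=
  ok_step 3348288 t50 (by norm_num) (by norm_num) (by norm_num) i50

theorem i52 : Inv 3413824 false 1530983445869 999962875807197 :=
  ok_step 3413824 t51 (by norm_num) (by norm_num) (by norm_num) i51

theorem i53 : Inv 3479360 true 1588782468788 1017967378712318 :=
  ok_step 3479360 t52 (by norm_num) (by norm_num) (by norm_num) i52

theorem i54 : Inv 3544896 true 1647407686544 1035890277238836 :=
  ok_step 3544896 t53 (by norm_num) (by norm_num) (by norm_num) i53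

theorem i55 : Inv 3610432 true 1706510406230 1053628492171617 :=
  ok_step 3610432 t54 (by norm_num) (by norm_num) (by norm_num) i54

theorem i56 : Inv 3675968 true 1766854071340 1071413951744624 :=
  ok_step 3675968 t55 (by norm_num) (by norm_num) (by norm_num) i55

theorem i57 : Inv 3741504 false 1828336313999 1089216591186832 :=
  ok_step 3741504 t56 (by norm_num) (by norm_num) (by norm_num) i56

theorem i58 : Inv 3807040 false 1890750425403 1106971985988803 :=
  ok_step 3807040 t57 (by norm_num) (by norm_num) (by norm_num) i57

theorem i59 : Inv 3872576 true 1954160299432 1124701610986984 :=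
  ok_step 3872576 t58 (by norm_num) (by norm_num) (by norm_num) i58

theorem i60 : Inv 3938112 true 2018678705266 1142439825919757 :=
  ok_step 3938112 t59 (by norm_num) (by norm_num) (by norm_num) i59

theorem i61 : Inv 4003648 false 2084157153193 1160147976081450 :=
  ok_step 4003648 t60 (by norm_num) (by norm_num) (by norm_num) i60

theorem i62 : Inv 4069184 false 2150289320283 1177740162126148 :=
  ok_step 4069184 t61 (by norm_num) (by norm_num) (by norm_num) i61

theorem i63 : Inv 4134720 false 2218002940321 1195465492157034 :=
  ok_step 4134720 t62 (by norm_num) (by norm_num) (by norm_num) i62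

theorem i64 : Inv 4200256 false 2286582372629 1213134987613071 :=
  ok_step 4200256 t63 (by norm_num) (by norm_num) (by norm_num) i63

theorem i65 : Inv 4265792 false 2356159168547 1230783008232623 :=
  ok_step 4265792 t64 (by norm_num) (by norm_num) (by norm_num) i64

theorem i66 : Inv 4331328 true 2427283934294 1248546992969164 :=
  ok_step 4331328 t65 (by norm_num) (by norm_num) (by norm_num) i65

theorem i67 : Inv 4396864 false 2499040760515 1266203603523294 :=
  ok_step 4396864 t66 (by norm_num) (by norm_num) (by norm_num) i66

theorem i68 : Inv 4462400 false 2571263514305 1283709890222075 :=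
  ok_step 4462400 t67 (by norm_num) (by norm_num) (by norm_num) i67

theorem i69 : Inv 4527936 true 2644343743186 1301164637313303 :=
  ok_step 4527936 t68 (by norm_num) (by norm_num) (by norm_num) i68

theorem i70 : Inv 4593472 true 2719048146562 1318752528390724 :=
  ok_step 4593472 t69 (by norm_num) (by norm_num) (by norm_num) i69

theorem i71 : Inv 4659008 false 2794963732361 1336374779206501 :=
  ok_step 4659008 t70 (by norm_num) (by norm_num) (by norm_num) i70

theorem i72 : Inv 4724544 false 2871307501561 1353846706166883 :=
  ok_step 4724544 t71 (by norm_num) (by norm_num) (by norm_num) i71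

theorem i73 : Inv 4790080 false 2948814880867 1371340107963765 :=
  ok_step 4790080 t72 (by norm_num) (by norm_num) (by norm_num) i72

theorem i74 : Inv 4855616 false 3027617531313 1388885049368215 :=
  ok_step 4855616 t73 (by norm_num) (by norm_num) (by norm_num) i73

theorem i75 : Inv 4921152 false 3107219679451 1406369861230519 :=
  ok_step 4921152 t74 (by norm_num) (by norm_num) (by norm_num) i74

theorem i76 : Inv 4986688 false 3187176522601 1423700054270136 :=
  ok_step 4986688 t75 (by norm_num) (by norm_num) (by norm_num) i75

theorem i77 : Inv 5052224 true 3268764244536 1441150506394046 :=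
  ok_step 5052224 t76 (by norm_num) (by norm_num) (by norm_num) i76

theorem i78 : Inv 5117760 true 3351202434100 1458558008845050 :=
  ok_step 5117760 t77 (by norm_num) (by norm_num) (by norm_num) i77

theorem i79 : Inv 5183296 true 3434558680838 1475935446524955 :=
  ok_step 5183296 t78 (by norm_num) (by norm_num) (by norm_num) i78

theorem i80 : Inv 5248832 false 3519882829655 1493501862765863 :=
  ok_step 5248832 t79 (by norm_num) (by norm_num) (by norm_num) i79

theorem i81 : Inv 5314368 true 3605370729818 1510879300445734 :=
  ok_step 5314368 t80 (by norm_num) (by norm_num) (by norm_num) i80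

theorem i82 : Inv 5379904 true 3692527274008 1528381292177213 :=
  ok_step 5379904 t81 (by norm_num) (by norm_num) (by norm_num) i81

theorem i83 : Inv 5445440 false 3779705036269 1545677125478489 :=
  ok_step 5445440 t82 (by norm_num) (by norm_num) (by norm_num) i82

theorem i84 : Inv 5510976 false 3868361740757 1563054563158398 :=
  ok_step 5510976 t83 (by norm_num) (by norm_num) (by norm_num) i83

theorem i85 : Inv 5576512 false 3958213813749 1580457770642056 :=
  ok_step 5576512 t84 (by norm_num) (by norm_num) (by norm_num) i84

theorem i86 : Inv 5642048 true 4048554247756 1597749308976053 :=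
  ok_step 5642048 t85 (by norm_num) (by norm_num) (by norm_num) i85

theorem i87 : Inv 5707584 true 4139803617018 1615015077506235 :=
  ok_step 5707584 t86 (by norm_num) (by norm_num) (by norm_num) i86

theorem i88 : Inv 5773120 false 4232924843081 1632435464859084 :=
  ok_step 5773120 t87 (by norm_num) (by norm_num) (by norm_num) i87

theorem i89 : Inv 5838656 true 4326595689878 1649757067964131 :=
  ok_step 5838656 t88 (by norm_num) (by norm_num) (by norm_num) i88

theorem i90 : Inv 5904192 false 4421444040493 1667104440872968 :=
  ok_step 5904192 t89 (by norm_num) (by norm_num) (by norm_num) i89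

theorem i91 : Inv 5969728 true 4516829715756 1684353029533971 :=
  ok_step 5969728 t90 (by norm_num) (by norm_num) (by norm_num) i90

theorem i92 : Inv 6035264 false 4613264655585 1701605913162286 :=
  ok_step 6035264 t91 (by norm_num) (by norm_num) (by norm_num) i91

theorem i93 : Inv 6100800 true 4710461863268 1718802962215746 :=
  ok_step 6100800 t92 (by norm_num) (by norm_num) (by norm_num) i92

theorem i94 : Inv 6166336 true 4809433035956 1736128860288079 :=
  ok_step 6166336 t93 (by norm_num) (by norm_num) (by norm_num) i93

theorem i95 : Inv 6231872 false 4909573532593 1753476233196888 :=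
  ok_step 6231872 t94 (by norm_num) (by norm_num) (by norm_num) i94

theorem i96 : Inv 6297408 false 5009283062561 1770565908067944 :=
  ok_step 6297408 t95 (by norm_num) (by norm_num) (by norm_num) i95

theorem i97 : Inv 6362944 false 5111275749583 1787866036336510 :=
  ok_step 6362944 t96 (by norm_num) (by norm_num) (by norm_num) i96

theorem i98 : Inv 6428480 true 5214285229446 1805157574670489 :=
  ok_step 6428480 t97 (by norm_num) (by norm_num) (by norm_num) i97

theorem i99 : Inv 6494016 true 5316372070112 1822122695489971 :=
  ok_step 6494016 t98 (by norm_num) (by norm_num) (by norm_num) i98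

theorem i100 : Inv 6559552 false 5420052959165 1839182305589964 :=
  ok_step 6559552 t99 (by norm_num) (by norm_num) (by norm_num) i99

theorem i101 : Inv 6625088 true 5525753098934 1856396534512608 :=
  ok_step 6625088 t100 (by norm_num) (by norm_num) (by norm_num) i100

theorem i102 : Inv 6690624 true 5632333397910 1873584993631459 :=
  ok_step 6690624 t101 (by norm_num) (by norm_num) (by norm_num) i101

theorem i103 : Inv 6756160 false 5738764333865 1890584474189280 :=
  ok_step 6756160 t102 (by norm_num) (by norm_num) (by norm_num) i102

theorem i104 : Inv 6821696 false 5847497383111 1907781523242745 :=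
  ok_step 6821696 t103 (by norm_num) (by norm_num) (by norm_num) i103

theorem i105 : Inv 6887232 true 5956769507916 1924896967917590 :=
  ok_step 6887232 t104 (by norm_num) (by norm_num) (by norm_num) i104

theorem i106 : Inv 6952768 true 6068209640670 1942188506251560 :=
  ok_step 6952768 t105 (by norm_num) (by norm_num) (by norm_num) i105

theorem i107 : Inv 7018304 true 6178609739640 1959157922038324 :=
  ok_step 7018304 t106 (by norm_num) (by norm_num) (by norm_num) i106

theorem i108 : Inv 7083840 false 6290905666291 1976260481811288 :=
  ok_step 7083840 t107 (by norm_num) (by norm_num) (by norm_num) i107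

theorem i109 : Inv 7149376 true 6404133715010 1993341566747780 :=
  ok_step 7149376 t108 (by norm_num) (by norm_num) (by norm_num) i108

theorem i110 : Inv 7214912 false 6519090528939 2010530025866633 :=
  ok_step 7214912 t109 (by norm_num) (by norm_num) (by norm_num) i109

theorem i111 : Inv 7280448 false 6633923065987 2027542391326345 :=
  ok_step 7280448 t110 (by norm_num) (by norm_num) (by norm_num) i110

theorem i112 : Inv 7345984 true 6750042385738 2044589116524439 :=
  ok_step 7345984 t111 (by norm_num) (by norm_num) (by norm_num) i111

theorem i113 : Inv 7411520 true 6867630796386 2061700266231957 :=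
  ok_step 7411520 t112 (by norm_num) (by norm_num) (by norm_num) i112

theorem i114 : Inv 7477056 true 6985639268216 2078721221626262 :=
  ok_step 7477056 t113 (by norm_num) (by norm_num) (by norm_num) i113

theorem i115 : Inv 7542592 true 7103786008952 2095613328001687 :=
  ok_step 7542592 t114 (by norm_num) (by norm_num) (by norm_num) i114

theorem i116 : Inv 7608128 true 7223596596680 2112595628690354 :=
  ok_step 7608128 t115 (by norm_num) (by norm_num) (by norm_num) i115

theorem i117 : Inv 7673664 true 7345146811092 2129676713626799 :=
  ok_step 7673664 t116 (by norm_num) (by norm_num) (by norm_num) i116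

theorem i118 : Inv 7739200 true 7466108371004 2146530165296569 :=
  ok_step 7739200 t117 (by norm_num) (by norm_num) (by norm_num) i117

theorem i119 : Inv 7804736 false 7590194707725 2163675674742472 :=
  ok_step 7804736 t118 (by norm_num) (by norm_num) (by norm_num) i118

theorem i120 : Inv 7870272 true 7714450444694 2180696630136772 :=
  ok_step 7870272 t119 (by norm_num) (by norm_num) (by norm_num) i119

theorem i121 : Inv 7935808 true 7839606885906 2197700405661928 :=
  ok_step 7935808 t120 (by norm_num) (by norm_num) (by norm_num) i120

theorem i122 : Inv 8001344 true 7965478424296 2214661231514102 :=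
  ok_step 8001344 t121 (by norm_num) (by norm_num) (by norm_num) i121

theorem i123 : Inv 8066880 false 8091920252199 2231561927824159 :=
  ok_step 8066880 t122 (by norm_num) (by norm_num) (by norm_num) i122

theorem i124 : Inv 8132416 true 8219912550678 2248527048643628 :=
  ok_step 8132416 t123 (by norm_num) (by norm_num) (by norm_num) i123

theorem i125 : Inv 8197952 false 8348089586995 2265384795280721 :=
  ok_step 8197952 t124 (by norm_num) (by norm_num) (by norm_num) i124

theorem i126 : Inv 8263488 false 8478167534907 2282354211067516 :=
  ok_step 8263488 t125 (by norm_num) (by norm_num) (by norm_num) i125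

theorem i127 : Inv 8329024 false 8609118380195 2299302152017810 :=
  ok_step 8329024 t126 (by norm_num) (by norm_num) (by norm_num) i126

theorem i128 : Inv 8394560 false 8741001508629 2316237208066228 :=
  ok_step 8394560 t127 (by norm_num) (by norm_num) (by norm_num) i127

theorem i129 : Inv 8460096 true 8873932859806 2333172264114607 :=
  ok_step 8460096 t128 (by norm_num) (by norm_num) (by norm_num) i128

theorem i130 : Inv 8525632 true 9008525222596 2350188924541600 :=
  ok_step 8525632 t129 (by norm_num) (by norm_num) (by norm_num) i129

theorem i131 : Inv 8591168 true 9142545680822 2367003721505713 :=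
  ok_step 8591168 t130 (by norm_num) (by norm_num) (by norm_num) i130

theorem i132 : Inv 8656704 true 9278184964806 2383891532913869 :=
  ok_step 8656704 t131 (by norm_num) (by norm_num) (by norm_num) i131

theorem i133 : Inv 8722240 true 9415997760228 2400921078242771 :=
  ok_step 8722240 t132 (by norm_num) (by norm_num) (by norm_num) i132

theorem i134 : Inv 8787776 false 9554588788177 2417920558800603 :=
  ok_step 8787776 t133 (by norm_num) (by norm_num) (by norm_num) i133

theorem i135 : Inv 8853312 false 9692895070093 2434756830601158 :=
  ok_step 8853312 t134 (by norm_num) (by norm_num) (by norm_num) i134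

theorem i136 : Inv 8918848 false 9831661563665 2451524382925016 :=
  ok_step 8918848 t135 (by norm_num) (by norm_num) (by norm_num) i135

theorem i137 : Inv 8984384 false 9973172580109 2468498093679090 :=
  ok_step 8984384 t136 (by norm_num) (by norm_num) (by norm_num) i136

theorem i138 : Inv 9049920 false 10113550373919 2485214106395359 :=
  ok_step 9049920 t137 (by norm_num) (by norm_num) (by norm_num) i137

theorem i139 : Inv 9115456 true 10255258829774 2501964478850021 :=
  ok_step 9115456 t138 (by norm_num) (by norm_num) (by norm_num) i138

theorem i140 : Inv 9180992 false 10399520941865 2518899534898408 :=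
  ok_step 9180992 t139 (by norm_num) (by norm_num) (by norm_num) i139

theorem i141 : Inv 9246528 true 10543272540934 2535649907353064 :=
  ok_step 9246528 t140 (by norm_num) (by norm_num) (by norm_num) i140

theorem i142 : Inv 9312064 false 10688830066811 2552494769088236 :=
  ok_step 9312064 t141 (by norm_num) (by norm_num) (by norm_num) i141

theorem i143 : Inv 9377600 true 10835450216130 2569339630823423 :=
  ok_step 9377600 t142 (by norm_num) (by norm_num) (by norm_num) i142

theorem i144 : Inv 9443136 false 10982534180903 2586124363016453 :=
  ok_step 9443136 t143 (by norm_num) (by norm_num) (by norm_num) i143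

theorem i145 : Inv 9508672 false 11130662343535 2602909095209473 :=
  ok_step 9508672 t144 (by norm_num) (by norm_num) (by norm_num) i144

theorem i146 : Inv 9574208 true 11279337192064 2619637992827638 :=
  ok_step 9574208 t145 (by norm_num) (by norm_num) (by norm_num) i145

theorem i147 : Inv 9639744 false 11429263856323 2636396955216908 :=
  ok_step 9639744 t146 (by norm_num) (by norm_num) (by norm_num) i146

theorem i148 : Inv 9705280 false 11581278696727 2653271881723155 :=
  ok_step 9705280 t147 (by norm_num) (by norm_num) (by norm_num) i147

theorem i149 : Inv 9770816 false 11732761919565 2669975009537568 :=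
  ok_step 9770816 t148 (by norm_num) (by norm_num) (by norm_num) i148

theorem i150 : Inv 9836352 true 11884660650744 2686609417875251 :=
  ok_step 9836352 t149 (by norm_num) (by norm_num) (by norm_num) i149

theorem i151 : Inv 9901888 false 12039903221273 2703501524250686 :=
  ok_step 9901888 t150 (by norm_num) (by norm_num) (by norm_num) i150

theorem i152 : Inv 9967424 true 12194904729584 2720251896705320 :=
  ok_step 9967424 t151 (by norm_num) (by norm_num) (by norm_num) i151

theorem i153 : Inv 10032960 true 12351427203102 2737058103734833 :=
  ok_step 10032960 t152 (by norm_num) (by norm_num) (by norm_num) i152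

theorem i154 : Inv 10098496 false 12508149710129 2753778411418425 :=
  ok_step 10098496 t153 (by norm_num) (by norm_num) (by norm_num) i153

theorem i155 : Inv 10164032 false 12665144115733 2770417114723400 :=
  ok_step 10164032 t154 (by norm_num) (by norm_num) (by norm_num) i154

theorem i156 : Inv 10229568 true 12823336519588 2787072997897565 :=
  ok_step 10229568 t155 (by norm_num) (by norm_num) (by norm_num) i155

theorem i157 : Inv 10295104 false 12983327714281 2803814780417635 :=
  ok_step 10295104 t156 (by norm_num) (by norm_num) (by norm_num) i156

theorem i158 : Inv 10360640 false 13145105915285 2820633872349029 :=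
  ok_step 10360640 t157 (by norm_num) (by norm_num) (by norm_num) i157

theorem i159 : Inv 10426176 true 13306141243336 2837268280686722 :=
  ok_step 10426176 t158 (by norm_num) (by norm_num) (by norm_num) i158

theorem i160 : Inv 10491712 true 13468631806932 2853949933664651 :=
  ok_step 10491712 t159 (by norm_num) (by norm_num) (by norm_num) i159

theorem i161 : Inv 10557248 true 13632095993744 2870627291675280 :=
  ok_step 10557248 t160 (by norm_num) (by norm_num) (by norm_num) i160

theorem i162 : Inv 10622784 true 13795264782024 2887171505699717 :=
  ok_step 10622784 t161 (by norm_num) (by norm_num) (by norm_num) i161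

theorem i163 : Inv 10688320 false 13961807576487 2903956237892747 :=
  ok_step 10688320 t162 (by norm_num) (by norm_num) (by norm_num) i162

theorem i164 : Inv 10753856 true 14128776297828 2920676545576343 :=
  ok_step 10753856 t163 (by norm_num) (by norm_num) (by norm_num) i163

theorem i165 : Inv 10819392 true 14296056070486 2937328133783193 :=
  ok_step 10819392 t164 (by norm_num) (by norm_num) (by norm_num) i164

theorem i166 : Inv 10884928 false 14465155181747 2954061326368664 :=
  ok_step 10884928 t165 (by norm_num) (by norm_num) (by norm_num) i165

theorem i167 : Inv 10950464 true 14634487995302 2970712914575509 :=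
  ok_step 10950464 t166 (by norm_num) (by norm_num) (by norm_num) i166

theorem i168 : Inv 11016000 true 14806395888666 2987519121605001 :=
  ok_step 11016000 t167 (by norm_num) (by norm_num) (by norm_num) i167

theorem i169 : Inv 11081536 true 14976104022338 3004011796021900 :=
  ok_step 11081536 t168 (by norm_num) (by norm_num) (by norm_num) i168

theorem i170 : Inv 11147072 false 15146798311835 3020504470438777 :=
  ok_step 11147072 t169 (by norm_num) (by norm_num) (by norm_num) i169

theorem i171 : Inv 11212608 false 15319325048649 3037074454267002 :=
  ok_step 11212608 t170 (by norm_num) (by norm_num) (by norm_num) i170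

theorem i172 : Inv 11278144 false 15493586233981 3053713157571964 :=
  ok_step 11278144 t171 (by norm_num) (by norm_num) (by norm_num) i171

theorem i173 : Inv 11343680 false 15668948972861 3070360450811517 :=
  ok_step 11343680 t172 (by norm_num) (by norm_num) (by norm_num) i172

theorem i174 : Inv 11409216 false 15844824993161 3086960499410809 :=
  ok_step 11409216 t173 (by norm_num) (by norm_num) (by norm_num) i173

theorem i175 : Inv 11474752 true 16022746640148 3103655037290599 :=
  ok_step 11474752 t174 (by norm_num) (by norm_num) (by norm_num) i174

theorem i176 : Inv 11540288 false 16201550810557 3120340985235806 :=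
  ok_step 11540288 t175 (by norm_num) (by norm_num) (by norm_num) i175

theorem i177 : Inv 11605824 true 16379058113454 3136807889848906 :=
  ok_step 11605824 t176 (by norm_num) (by norm_num) (by norm_num) i176

theorem i178 : Inv 11671360 false 16560131181141 3153515312630589 :=
  ok_step 11671360 t177 (by norm_num) (by norm_num) (by norm_num) i177

theorem i179 : Inv 11736896 true 16741008793542 3170106771295295 :=
  ok_step 11736896 t178 (by norm_num) (by norm_num) (by norm_num) i178

theorem i180 : Inv 11802432 true 16922074325582 3186625215515939 :=
  ok_step 11802432 t179 (by norm_num) (by norm_num) (by norm_num) i179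

theorem i181 : Inv 11867968 false 17104121212381 3203143659736623 :=
  ok_step 11867968 t180 (by norm_num) (by norm_num) (by norm_num) i180

theorem i182 : Inv 11933504 false 17287058174471 3219649219055394 :=
  ok_step 11933504 t181 (by norm_num) (by norm_num) (by norm_num) i181

theorem i183 : Inv 11999040 true 17472127215940 3236253562621983 :=
  ok_step 11999040 t182 (by norm_num) (by norm_num) (by norm_num) i182

theorem i184 : Inv 12064576 true 17656786875940 3252733352136972 :=
  ok_step 12064576 t183 (by norm_num) (by norm_num) (by norm_num) i183

theorem i185 : Inv 12130112 false 17845528107095 3269488019558955 :=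
  ok_step 12130112 t184 (by norm_num) (by norm_num) (by norm_num) i184

theorem i186 : Inv 12195648 false 18033809610363 3286109542994718 :=
  ok_step 12195648 t185 (by norm_num) (by norm_num) (by norm_num) i185

theorem i187 : Inv 12261184 true 18221564677002 3302593627477033 :=
  ok_step 12261184 t186 (by norm_num) (by norm_num) (by norm_num) i186

theorem i188 : Inv 12326720 true 18410348604238 3319082006926615 :=
  ok_step 12326720 t187 (by norm_num) (by norm_num) (by norm_num) i187

theorem i189 : Inv 12392256 true 18602808491562 3335802314610212 :=
  ok_step 12392256 t188 (by norm_num) (by norm_num) (by norm_num) i188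

theorem i190 : Inv 12457792 false 18792738803097 3352217679615779 :=
  ok_step 12457792 t189 (by norm_num) (by norm_num) (by norm_num) i189

theorem i191 : Inv 12523328 true 18983918526818 3368650224490522 :=
  ok_step 12523328 t190 (by norm_num) (by norm_num) (by norm_num) i190

theorem i192 : Inv 12588864 true 19177328848936 3385190143547683 :=
  ok_step 12588864 t191 (by norm_num) (by norm_num) (by norm_num) i191

theorem i193 : Inv 12654400 true 19369988640276 3401579738749490 :=
  ok_step 12654400 t192 (by norm_num) (by norm_num) (by norm_num) i192

theorem i194 : Inv 12719936 true 19563543319356 3417960744016714 :=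
  ok_step 12719936 t193 (by norm_num) (by norm_num) (by norm_num) i193

theorem i195 : Inv 12785472 true 19760187323496 3434517842943060 :=
  ok_step 12785472 t194 (by norm_num) (by norm_num) (by norm_num) i194

theorem i196 : Inv 12851008 true 19956919834206 3450997632458075 :=
  ok_step 12851008 t195 (by norm_num) (by norm_num) (by norm_num) i195

theorem i197 : Inv 12916544 false 20156541411455 3467636335763008 :=
  ok_step 12916544 t196 (by norm_num) (by norm_num) (by norm_num) i196

theorem i198 : Inv 12982080 false 20354664154375 3484064585670438 :=
  ok_step 12982080 t197 (by norm_num) (by norm_num) (by norm_num) i197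

theorem i199 : Inv 13047616 true 20555377807840 3500621684596744 :=
  ok_step 13047616 t198 (by norm_num) (by norm_num) (by norm_num) i198

theorem i200 : Inv 13113152 false 20755953446767 3517088589209833 :=
  ok_step 13113152 t199 (by norm_num) (by norm_num) (by norm_num) i199

theorem i201 : Inv 13178688 false 20956193818867 3533443824673231 :=
  ok_step 13178688 t200 (by norm_num) (by norm_num) (by norm_num) i200

theorem i202 : Inv 13244224 true 21160256061600 3550026693403316 :=
  ok_step 13244224 t201 (by norm_num) (by norm_num) (by norm_num) i201

theorem i203 : Inv 13309760 true 21364719392578 3566562317493151 :=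
  ok_step 13309760 t202 (by norm_num) (by norm_num) (by norm_num) i202

theorem i204 : Inv 13375296 true 21568483627824 3582960502629522 :=
  ok_step 13375296 t203 (by norm_num) (by norm_num) (by norm_num) i203

theorem i205 : Inv 13440832 true 21774003832618 3599418817308063 :=
  ok_step 13440832 t204 (by norm_num) (by norm_num) (by norm_num) i204

theorem i206 : Inv 13506368 true 21981497170870 3615954441397941 :=
  ok_step 13506368 t205 (by norm_num) (by norm_num) (by norm_num) i205

theorem i207 : Inv 13571904 true 22189513370064 3632451410782143 :=
  ok_step 13571904 t206 (by norm_num) (by norm_num) (by norm_num) i206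

theorem i208 : Inv 13637440 false 22396328752719 3648776581474475 :=
  ok_step 13637440 t207 (by norm_num) (by norm_num) (by norm_num) i207

theorem i209 : Inv 13702976 true 22605292157274 3665187651512761 :=
  ok_step 13702976 t208 (by norm_num) (by norm_num) (by norm_num) i208

theorem i210 : Inv 13768512 false 22815420316359 3681615901420217 :=
  ok_step 13768512 t209 (by norm_num) (by norm_num) (by norm_num) i209

theorem i211 : Inv 13834048 true 23027985245438 3698151525510051 :=
  ok_step 13834048 t210 (by norm_num) (by norm_num) (by norm_num) i210

theorem i212 : Inv 13899584 true 23239592584708 3714536825744531 :=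
  ok_step 13899584 t211 (by norm_num) (by norm_num) (by norm_num) i211

theorem i213 : Inv 13965120 true 23452927357412 3730977960553855 :=
  ok_step 13965120 t212 (by norm_num) (by norm_num) (by norm_num) i212

theorem i214 : Inv 14030656 true 23666813442628 3747384735624807 :=
  ok_step 14030656 t213 (by norm_num) (by norm_num) (by norm_num) i213

theorem i215 : Inv 14096192 false 23880659274577 3763714201284459 :=
  ok_step 14096192 t214 (by norm_num) (by norm_num) (by norm_num) i214

theorem i216 : Inv 14161728 true 24099460715994 3780340019687511 :=
  ok_step 14161728 t215 (by norm_num) (by norm_num) (by norm_num) i215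

theorem i217 : Inv 14227264 true 24314822190550 3796630830641478 :=
  ok_step 14227264 t216 (by norm_num) (by norm_num) (by norm_num) i216

theorem i218 : Inv 14292800 false 24533200608997 3813076260418116 :=
  ok_step 14292800 t217 (by norm_num) (by norm_num) (by norm_num) i217

theorem i219 : Inv 14358336 true 24751147874460 3829410021045038 :=
  ok_step 14358336 t218 (by norm_num) (by norm_num) (by norm_num) i218

theorem i220 : Inv 14423872 false 24969632139901 3845713716900901 :=
  ok_step 14423872 t219 (by norm_num) (by norm_num) (by norm_num) i219

theorem i221 : Inv 14489408 true 25190324998626 3862103312102665 :=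
  ok_step 14489408 t220 (by norm_num) (by norm_num) (by norm_num) i220

theorem i222 : Inv 14554944 true 25411409902802 3878449957631479 :=
  ok_step 14554944 t221 (by norm_num) (by norm_num) (by norm_num) i221

theorem i223 : Inv 14620480 true 25632032938836 3894689228977904 :=
  ok_step 14620480 t222 (by norm_num) (by norm_num) (by norm_num) i222

theorem i224 : Inv 14686016 true 25858279336418 3911267802740732 :=
  ok_step 14686016 t223 (by norm_num) (by norm_num) (by norm_num) i223

theorem i225 : Inv 14751552 true 26080710899190 3927494189185267 :=
  ok_step 14751552 t224 (by norm_num) (by norm_num) (by norm_num) i224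

theorem i226 : Inv 14817088 true 26305846496928 3943845129681385 :=
  ok_step 14817088 t225 (by norm_num) (by norm_num) (by norm_num) i225

theorem i227 : Inv 14882624 false 26532481783587 3960234724883162 :=
  ok_step 14882624 t226 (by norm_num) (by norm_num) (by norm_num) i226

theorem i228 : Inv 14948160 false 26761049647835 3976688744594382 :=
  ok_step 14948160 t227 (by norm_num) (by norm_num) (by norm_num) i227

theorem i229 : Inv 15013696 false 26991277933641 3993190008945858 :=
  ok_step 15013696 t228 (by norm_num) (by norm_num) (by norm_num) i228

theorem i230 : Inv 15079232 true 27221700102816 4009631143755193 :=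
  ok_step 15079232 t229 (by norm_num) (by norm_num) (by norm_num) i229

theorem i231 : Inv 15144768 false 27451554235719 4025964904382150 :=
  ok_step 15144768 t230 (by norm_num) (by norm_num) (by norm_num) i230

theorem i232 : Inv 15210304 false 27683829253653 4042397449256911 :=
  ok_step 15210304 t231 (by norm_num) (by norm_num) (by norm_num) i231

theorem i233 : Inv 15275840 false 27914248168917 4058628130668729 :=
  ok_step 15275840 t232 (by norm_num) (by norm_num) (by norm_num) i232

theorem i234 : Inv 15341376 true 28149542094906 4075129395020231 :=
  ok_step 15341376 t233 (by norm_num) (by norm_num) (by norm_num) i233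

theorem i235 : Inv 15406912 true 28382922430704 4091428795908809 :=
  ok_step 15406912 t234 (by norm_num) (by norm_num) (by norm_num) i234

theorem i236 : Inv 15472448 true 28618222556098 4107792621306806 :=
  ok_step 15472448 t235 (by norm_num) (by norm_num) (by norm_num) i235

theorem i237 : Inv 15537984 true 28851111337854 4123920223503511 :=
  ok_step 15537984 t236 (by norm_num) (by norm_num) (by norm_num) i236

theorem i238 : Inv 15603520 true 29086355104212 4140142314980765 :=
  ok_step 15603520 t237 (by norm_num) (by norm_num) (by norm_num) i237

theorem i239 : Inv 15669056 false 29324935333593 4156527615215261 :=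
  ok_step 15669056 t238 (by norm_num) (by norm_num) (by norm_num) i238

theorem i240 : Inv 15734592 true 29561624082930 4172711051986815 :=
  ok_step 15734592 t239 (by norm_num) (by norm_num) (by norm_num) i239

theorem i241 : Inv 15800128 false 29800692342099 4188993273006166 :=
  ok_step 15800128 t240 (by norm_num) (by norm_num) (by norm_num) i240

theorem i242 : Inv 15865664 true 30040433239496 4205249724221770 :=
  ok_step 15865664 t241 (by norm_num) (by norm_num) (by norm_num) i241

theorem i243 : Inv 15931200 true 30283109318546 4221639319423559 :=
  ok_step 15931200 t242 (by norm_num) (by norm_num) (by norm_num) i242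

theorem i244 : Inv 15996736 false 30525284274511 4237930130377517 :=
  ok_step 15996736 t243 (by norm_num) (by norm_num) (by norm_num) i243

theorem i245 : Inv 16062272 false 30768037829221 4254190876560412 :=
  ok_step 16062272 t244 (by norm_num) (by norm_num) (by norm_num) i244

theorem i246 : Inv 16127808 true 31011362046298 4270421557972233 :=
  ok_step 16127808 t245 (by norm_num) (by norm_num) (by norm_num) i245

theorem i247 : Inv 16193344 true 31256872846834 4286733843762700 :=
  ok_step 16193344 t246 (by norm_num) (by norm_num) (by norm_num) i246

theorem i248 : Inv 16258880 false 31503541481297 4303059014455046 :=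
  ok_step 16258880 t247 (by norm_num) (by norm_num) (by norm_num) i247

theorem i249 : Inv 16324416 true 31750683357670 4319345530441718 :=
  ok_step 16324416 t248 (by norm_num) (by norm_num) (by norm_num) i248

theorem i250 : Inv 16389952 true 31998459949366 4335610571591885 :=
  ok_step 16389952 t249 (by norm_num) (by norm_num) (by norm_num) i249

theorem i251 : Inv 16455488 true 32246574702052 4351832663069142 :=
  ok_step 16455488 t250 (by norm_num) (by norm_num) (by norm_num) i250

theorem i252 : Inv 16521024 false 32496301689235 4368097704219336 :=
  ok_step 16521024 t251 (by norm_num) (by norm_num) (by norm_num) i251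

theorem i253 : Inv 16586560 false 32747655723681 4384401400075203 :=
  ok_step 16586560 t252 (by norm_num) (by norm_num) (by norm_num) i252

theorem i254 : Inv 16652096 true 33000038445778 4400705095931060 :=
  ok_step 16652096 t253 (by norm_num) (by norm_num) (by norm_num) i253

theorem i255 : Inv 16717632 false 33254015355823 4417051741459871 :=
  ok_step 16717632 t254 (by norm_num) (by norm_num) (by norm_num) i254

theorem i256 : Inv 16783168 true 33506645253786 4433243768166030 :=
  ok_step 16783168 t255 (by norm_num) (by norm_num) (by norm_num) i255

theorem i257 : Inv 16848704 false 33760197008615 4449435794872179 :=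
  ok_step 16848704 t256 (by norm_num) (by norm_num) (by norm_num) i256

theorem i258 : Inv 16914240 true 34017167841324 4465778145433695 :=
  ok_step 16914240 t257 (by norm_num) (by norm_num) (by norm_num) i257

theorem i259 : Inv 16979776 true 34271301656236 4481879977826630 :=
  ok_step 16979776 t258 (by norm_num) (by norm_num) (by norm_num) i258

theorem i260 : Inv 17045312 true 34527510190062 4498050529696317 :=
  ok_step 17045312 t259 (by norm_num) (by norm_num) (by norm_num) i259

theorem i261 : Inv 17110848 true 34783136012078 4514122297318172 :=
  ok_step 17110848 t260 (by norm_num) (by norm_num) (by norm_num) i260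

theorem i262 : Inv 17176384 false 35039020490893 4530151115267080 :=
  ok_step 17176384 t261 (by norm_num) (by norm_num) (by norm_num) i261

theorem i263 : Inv 17241920 false 35299293737541 4546390386613515 :=
  ok_step 17241920 t262 (by norm_num) (by norm_num) (by norm_num) i262

theorem i264 : Inv 17307456 false 35560347523245 4562616773058037 :=
  ok_step 17307456 t263 (by norm_num) (by norm_num) (by norm_num) i263

theorem i265 : Inv 17372992 false 35819271415181 4578649885974242 :=
  ok_step 17372992 t264 (by norm_num) (by norm_num) (by norm_num) i264

theorem i266 : Inv 17438528 false 36083493463049 4594949286862799 :=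
  ok_step 17438528 t265 (by norm_num) (by norm_num) (by norm_num) i265

theorem i267 : Inv 17504064 true 36346643806946 4611119838732467 :=
  ok_step 17504064 t266 (by norm_num) (by norm_num) (by norm_num) i266

theorem i268 : Inv 17569600 false 36609871102177 4627238850994604 :=
  ok_step 17569600 t267 (by norm_num) (by norm_num) (by norm_num) i267

theorem i269 : Inv 17635136 true 36877110190558 4643538251883147 :=
  ok_step 17635136 t268 (by norm_num) (by norm_num) (by norm_num) i268

theorem i270 : Inv 17700672 false 37143933621505 4659756048393077 :=
  ok_step 17700672 t269 (by norm_num) (by norm_num) (by norm_num) i269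

theorem i271 : Inv 17766208 false 37410857400107 4675918010328147 :=
  ok_step 17766208 t270 (by norm_num) (by norm_num) (by norm_num) i270

theorem i272 : Inv 17831744 true 37679587050946 4692127216903497 :=
  ok_step 17831744 t271 (by norm_num) (by norm_num) (by norm_num) i271

theorem i273 : Inv 17897280 false 37949593637375 4708357898315332 :=
  ok_step 17897280 t272 (by norm_num) (by norm_num) (by norm_num) i272

theorem i274 : Inv 17962816 true 38217289297850 4724386716264212 :=
  ok_step 17962816 t273 (by norm_num) (by norm_num) (by norm_num) i273

theorem i275 : Inv 18028352 false 38489129588655 4740608807741439 :=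
  ok_step 18028352 t274 (by norm_num) (by norm_num) (by norm_num) i274

theorem i276 : Inv 18093888 false 38760260196317 4756727820003564 :=
  ok_step 18093888 t275 (by norm_num) (by norm_num) (by norm_num) i275

theorem i277 : Inv 18159424 true 39034806080496 4772988566186448 :=
  ok_step 18159424 t276 (by norm_num) (by norm_num) (by norm_num) i276

theorem i278 : Inv 18224960 true 39308995539048 4789172002958016 :=
  ok_step 18224960 t277 (by norm_num) (by norm_num) (by norm_num) i277

theorem i279 : Inv 18290496 true 39584174630204 4805355439729553 :=
  ok_step 18290496 t278 (by norm_num) (by norm_num) (by norm_num) i278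

theorem i280 : Inv 18356032 true 39858581652792 4821435797285999 :=
  ok_step 18356032 t279 (by norm_num) (by norm_num) (by norm_num) i279

theorem i281 : Inv 18421568 false 40134153950111 4837529039744363 :=
  ok_step 18421568 t280 (by norm_num) (by norm_num) (by norm_num) i280

theorem i282 : Inv 18487104 true 40410564323284 4853609397300821 :=
  ok_step 18487104 t281 (by norm_num) (by norm_num) (by norm_num) i281

theorem i283 : Inv 18552640 false 40691437900713 4869895913287509 :=
  ok_step 18552640 t282 (by norm_num) (by norm_num) (by norm_num) i282

theorem i284 : Inv 18618176 true 40971367243082 4886066465157209 :=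
  ok_step 18618176 t283 (by norm_num) (by norm_num) (by norm_num) i283

theorem i285 : Inv 18683712 false 41251171394677 4902176887484739 :=
  ok_step 18683712 t284 (by norm_num) (by norm_num) (by norm_num) i284

theorem i286 : Inv 18749248 false 41531918795989 4918283014844965 :=
  ok_step 18749248 t285 (by norm_num) (by norm_num) (by norm_num) i285

theorem i287 : Inv 18814784 true 41814960644562 4934462156649257 :=
  ok_step 18814784 t286 (by norm_num) (by norm_num) (by norm_num) i286

theorem i288 : Inv 18880320 false 42098312721799 4950606938715159 :=
  ok_step 18880320 t287 (by norm_num) (by norm_num) (by norm_num) i287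

theorem i289 : Inv 18945856 false 42380569920011 4966631461696771 :=
  ok_step 18945856 t288 (by norm_num) (by norm_num) (by norm_num) i288

theorem i290 : Inv 19011392 false 42666312259405 4982797718599162 :=
  ok_step 19011392 t289 (by norm_num) (by norm_num) (by norm_num) i289

theorem i291 : Inv 19076928 true 42953308211584 4998976860403439 :=
  ok_step 19076928 t290 (by norm_num) (by norm_num) (by norm_num) i290

theorem i292 : Inv 19142464 false 43242436906933 5015224721684463 :=
  ok_step 19142464 t291 (by norm_num) (by norm_num) (by norm_num) i291

theorem i293 : Inv 19208000 false 43530445597929 5031352323881212 :=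
  ok_step 19208000 t292 (by norm_num) (by norm_num) (by norm_num) i292

theorem i294 : Inv 19273536 false 43819361916207 5047475631110627 :=
  ok_step 19273536 t293 (by norm_num) (by norm_num) (by norm_num) i293

theorem i295 : Inv 19339072 true 44106908889122 5063465794353867 :=
  ok_step 19339072 t294 (by norm_num) (by norm_num) (by norm_num) i294

theorem i296 : Inv 19404608 false 44402173397233 5079833914719171 :=
  ok_step 19404608 t295 (by norm_num) (by norm_num) (by norm_num) i295

theorem i297 : Inv 19470144 false 44695913393733 5096060301163711 :=
  ok_step 19470144 t296 (by norm_num) (by norm_num) (by norm_num) i296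

theorem i298 : Inv 19535680 true 44985454697540 5111998924799382 :=
  ok_step 19535680 t297 (by norm_num) (by norm_num) (by norm_num) i297

theorem i299 : Inv 19601216 false 45279801744255 5128152296799881 :=
  ok_step 19601216 t298 (by norm_num) (by norm_num) (by norm_num) i298

theorem i300 : Inv 19666752 false 45578555404817 5144490352394100 :=
  ok_step 19666752 t299 (by norm_num) (by norm_num) (by norm_num) i299

theorem i301 : Inv 19732288 true 45873064192690 5160540645179482 :=
  ok_step 19732288 t300 (by norm_num) (by norm_num) (by norm_num) i300

theorem i302 : Inv 19797824 false 46170290023647 5176689722212679 :=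
  ok_step 19797824 t301 (by norm_num) (by norm_num) (by norm_num) i301

theorem i303 : Inv 19863360 true 46468577095968 5192838799245877 :=
  ok_step 19863360 t302 (by norm_num) (by norm_num) (by norm_num) i302

theorem i304 : Inv 19928896 false 46766341880015 5208910566867741 :=
  ok_step 19928896 t303 (by norm_num) (by norm_num) (by norm_num) i303

theorem i305 : Inv 19994432 false 47062572110433 5224844895536184 :=
  ok_step 19994432 t304 (by norm_num) (by norm_num) (by norm_num) i304

theorem i306 : Inv 20059968 true 47363021490268 5240951022896431 :=
  ok_step 20059968 t305 (by norm_num) (by norm_num) (by norm_num) i305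

theorem i307 : Inv 20125504 false 47662200336171 5256941186139635 :=
  ok_step 20125504 t306 (by norm_num) (by norm_num) (by norm_num) i306

theorem i308 : Inv 20191040 false 47967958531711 5273227702126316 :=
  ok_step 20191040 t307 (by norm_num) (by norm_num) (by norm_num) i307

theorem i309 : Inv 20256576 true 48269414444948 5289230750271450 :=
  ok_step 20256576 t308 (by norm_num) (by norm_num) (by norm_num) i308

theorem i310 : Inv 20322112 false 48570547821747 5305169373907116 :=
  ok_step 20322112 t309 (by norm_num) (by norm_num) (by norm_num) i309

theorem i311 : Inv 20387648 true 48878029845608 5321387170417035 :=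
  ok_step 20387648 t310 (by norm_num) (by norm_num) (by norm_num) i310

theorem i312 : Inv 20453184 true 49182860865144 5337415988365937 :=
  ok_step 20453184 t311 (by norm_num) (by norm_num) (by norm_num) i311

theorem i313 : Inv 20518720 false 49488553374871 5353440511347592 :=
  ok_step 20518720 t312 (by norm_num) (by norm_num) (by norm_num) i312

theorem i314 : Inv 20584256 false 49796991143513 5369555228642419 :=
  ok_step 20584256 t313 (by norm_num) (by norm_num) (by norm_num) i313

theorem i315 : Inv 20649792 false 50103441553323 5385515327114578 :=
  ok_step 20649792 t314 (by norm_num) (by norm_num) (by norm_num) i314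

theorem i316 : Inv 20715328 false 50410864576947 5401475425586733 :=
  ok_step 20715328 t315 (by norm_num) (by norm_num) (by norm_num) i315

theorem i317 : Inv 20780864 false 50722914838583 5417624502619946 :=
  ok_step 20780864 t316 (by norm_num) (by norm_num) (by norm_num) i316

theorem i318 : Inv 20846400 false 51030212431825 5433477226909707 :=
  ok_step 20846400 t317 (by norm_num) (by norm_num) (by norm_num) i317

theorem i319 : Inv 20911936 false 51343484511273 5449587649237260 :=
  ok_step 20911936 t318 (by norm_num) (by norm_num) (by norm_num) i318

theorem i320 : Inv 20977472 true 51655097282662 5465560632611301 :=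
  ok_step 20977472 t319 (by norm_num) (by norm_num) (by norm_num) i319

theorem i321 : Inv 21043008 false 51966429754221 5481473486443202 :=
  ok_step 21043008 t320 (by norm_num) (by norm_num) (by norm_num) i320

theorem i322 : Inv 21108544 true 52282862327966 5497592498705323 :=
  ok_step 21108544 t321 (by norm_num) (by norm_num) (by norm_num) i321

theorem i323 : Inv 21174080 true 52600233912008 5513711510967446 :=
  ok_step 21174080 t322 (by norm_num) (by norm_num) (by norm_num) i322

theorem i324 : Inv 21239616 true 52917488717278 5529774688654706 :=
  ok_step 21239616 t323 (by norm_num) (by norm_num) (by norm_num) i323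

theorem i325 : Inv 21305152 false 53233978517117 5545751966996056 :=
  ok_step 21305152 t324 (by norm_num) (by norm_num) (by norm_num) i324

theorem i326 : Inv 21370688 true 53552383220898 5561772195010381 :=
  ok_step 21370688 t325 (by norm_num) (by norm_num) (by norm_num) i325

theorem i327 : Inv 21436224 true 53870265486160 5577719408580676 :=
  ok_step 21436224 t326 (by norm_num) (by norm_num) (by norm_num) i326

theorem i328 : Inv 21501760 false 54188050190409 5593615082543409 :=
  ok_step 21501760 t327 (by norm_num) (by norm_num) (by norm_num) i327

theorem i329 : Inv 21567296 false 54510124033603 5609673965263403 :=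
  ok_step 21567296 t328 (by norm_num) (by norm_num) (by norm_num) i328

theorem i330 : Inv 21632832 false 54830408877291 5625595409029936 :=
  ok_step 21632832 t329 (by norm_num) (by norm_num) (by norm_num) i329

theorem i331 : Inv 21698368 false 55154266692393 5641645701815337 :=
  ok_step 21698368 t330 (by norm_num) (by norm_num) (by norm_num) i330

theorem i332 : Inv 21763904 false 55479538569367 5657717469437189 :=
  ok_step 21763904 t331 (by norm_num) (by norm_num) (by norm_num) i331

theorem i333 : Inv 21829440 true 55803215502830 5673660388040163 :=
  ok_step 21829440 t332 (by norm_num) (by norm_num) (by norm_num) i332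

theorem i334 : Inv 21894976 false 56128134920533 5689620486512349 :=
  ok_step 21894976 t333 (by norm_num) (by norm_num) (by norm_num) i333

theorem i335 : Inv 21960512 true 56451920382756 5705473210802117 :=
  ok_step 21960512 t334 (by norm_num) (by norm_num) (by norm_num) i334

theorem i336 : Inv 22026048 true 56783137384642 5721643762671789 :=
  ok_step 22026048 t335 (by norm_num) (by norm_num) (by norm_num) i335

theorem i337 : Inv 22091584 false 57109388825991 5737526551732626 :=
  ok_step 22091584 t336 (by norm_num) (by norm_num) (by norm_num) i336

theorem i338 : Inv 22157120 false 57440369955917 5753589729419920 :=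
  ok_step 22157120 t337 (by norm_num) (by norm_num) (by norm_num) i337

theorem i339 : Inv 22222656 true 57769536632726 5769515468153706 :=
  ok_step 22222656 t338 (by norm_num) (by norm_num) (by norm_num) i338

theorem i340 : Inv 22288192 false 58101277641427 5785522811266108 :=
  ok_step 22288192 t339 (by norm_num) (by norm_num) (by norm_num) i339

theorem i341 : Inv 22353728 false 58435198749347 5801585988953400 :=
  ok_step 22353728 t340 (by norm_num) (by norm_num) (by norm_num) i340

theorem i342 : Inv 22419264 true 58767455457556 5817520317621818 :=
  ok_step 22419264 t341 (by norm_num) (by norm_num) (by norm_num) i341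

theorem i343 : Inv 22484800 true 59102529502040 5833544840603438 :=
  ok_step 22484800 t342 (by norm_num) (by norm_num) (by norm_num) i342

theorem i344 : Inv 22550336 false 59438898091855 5849586543454226 :=
  ok_step 22550336 t343 (by norm_num) (by norm_num) (by norm_num) i343

theorem i345 : Inv 22615872 true 59773807562372 5865507987220737 :=
  ok_step 22615872 t344 (by norm_num) (by norm_num) (by norm_num) i344

theorem i346 : Inv 22681408 true 60115349315078 5881700013926893 :=
  ok_step 22681408 t345 (by norm_num) (by norm_num) (by norm_num) i345

theorem i347 : Inv 22746944 true 60453790922512 5897698767104747 :=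
  ok_step 22746944 t346 (by norm_num) (by norm_num) (by norm_num) i346

theorem i348 : Inv 22812480 true 60794667505618 5913766239759310 :=
  ok_step 22812480 t347 (by norm_num) (by norm_num) (by norm_num) i347

theorem i349 : Inv 22878016 true 61134882016784 5929756403002546 :=
  ok_step 22878016 t348 (by norm_num) (by norm_num) (by norm_num) i348

theorem i350 : Inv 22943552 true 61473322780724 5945617717226890 :=
  ok_step 22943552 t349 (by norm_num) (by norm_num) (by norm_num) i349

theorem i351 : Inv 23009088 false 61816081993661 5961637945241217 :=
  ok_step 23009088 t350 (by norm_num) (by norm_num) (by norm_num) i350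

theorem i352 : Inv 23074624 false 62156364148109 5977494964498271 :=
  ok_step 23074624 t351 (by norm_num) (by norm_num) (by norm_num) i351

theorem i353 : Inv 23140160 true 62498306189430 5993382048526384 :=
  ok_step 23140160 t352 (by norm_num) (by norm_num) (by norm_num) i352

theorem i354 : Inv 23205696 false 62841961155899 6009307787260212 :=
  ok_step 23205696 t353 (by norm_num) (by norm_num) (by norm_num) i353

theorem i355 : Inv 23271232 true 63187982439870 6025293655536150 :=
  ok_step 23271232 t354 (by norm_num) (by norm_num) (by norm_num) i354

theorem i356 : Inv 23336768 true 63534840792198 6041275228844832 :=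
  ok_step 23336768 t355 (by norm_num) (by norm_num) (by norm_num) i355

theorem i357 : Inv 23402304 false 63882253352799 6057239622284300 :=
  ok_step 23402304 t356 (by norm_num) (by norm_num) (by norm_num) i356

theorem i358 : Inv 23467840 true 64229889350152 6073165361018118 :=
  ok_step 23467840 t357 (by norm_num) (by norm_num) (by norm_num) i357

theorem i359 : Inv 23533376 true 64576191142572 6088988020536849 :=
  ok_step 23533376 t358 (by norm_num) (by norm_num) (by norm_num) i358

theorem i360 : Inv 23598912 true 64928176989500 6105025428420355 :=
  ok_step 23598912 t359 (by norm_num) (by norm_num) (by norm_num) i359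

theorem i361 : Inv 23664448 false 65279110154095 6120972641990635 :=
  ok_step 23664448 t360 (by norm_num) (by norm_num) (by norm_num) i360

theorem i362 : Inv 23729984 false 65627364137835 6136752351836401 :=
  ok_step 23729984 t361 (by norm_num) (by norm_num) (by norm_num) i361

theorem i363 : Inv 23795520 false 65981046345817 6152733925145052 :=
  ok_step 23795520 t362 (by norm_num) (by norm_num) (by norm_num) i362

theorem i364 : Inv 23861056 true 66331465097852 6168522224925416 :=
  ok_step 23861056 t363 (by norm_num) (by norm_num) (by norm_num) i363

theorem i365 : Inv 23926592 false 66686097772925 6184460848561137 :=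
  ok_step 23926592 t364 (by norm_num) (by norm_num) (by norm_num) i364

theorem i366 : Inv 23992128 false 67039925254707 6200317867818190 :=
  ok_step 23992128 t365 (by norm_num) (by norm_num) (by norm_num) i365

theorem i367 : Inv 24057664 false 67395014238619 6216187771977149 :=
  ok_step 24057664 t366 (by norm_num) (by norm_num) (by norm_num) i366

theorem i368 : Inv 24123200 false 67749238758775 6231976071757474 :=
  ok_step 24123200 t367 (by norm_num) (by norm_num) (by norm_num) i367

theorem i369 : Inv 24188736 true 68108050438150 6247923285327775 :=
  ok_step 24188736 t368 (by norm_num) (by norm_num) (by norm_num) i368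

theorem i370 : Inv 24254272 false 68467935555649 6263879088832628 :=
  ok_step 24254272 t369 (by norm_num) (by norm_num) (by norm_num) i369

theorem i371 : Inv 24319808 true 68825586145908 6279688863449425 :=
  ok_step 24319808 t370 (by norm_num) (by norm_num) (by norm_num) i370

theorem i372 : Inv 24385344 false 69182348344155 6295421328654902 :=
  ok_step 24385344 t371 (by norm_num) (by norm_num) (by norm_num) i371

theorem i373 : Inv 24450880 true 69546712832692 6311441556669197 :=
  ok_step 24450880 t372 (by norm_num) (by norm_num) (by norm_num) i372

theorem i374 : Inv 24516416 false 69907355139245 6327259921220626 :=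
  ok_step 24516416 t373 (by norm_num) (by norm_num) (by norm_num) i373

theorem i375 : Inv 24581952 false 70271467025221 6343185659954395 :=
  ok_step 24581952 t374 (by norm_num) (by norm_num) (by norm_num) i374

theorem i376 : Inv 24647488 true 70637683311400 6359158643328472 :=
  ok_step 24647488 t375 (by norm_num) (by norm_num) (by norm_num) i375

theorem i377 : Inv 24713024 false 71004680780721 6375127331735226 :=
  ok_step 24713024 t376 (by norm_num) (by norm_num) (by norm_num) i376

theorem i378 : Inv 24778560 true 71372055997994 6391065955370907 :=
  ok_step 24778560 t377 (by norm_num) (by norm_num) (by norm_num) i377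

theorem i379 : Inv 24844096 false 71741493174165 6407056118614150 :=
  ok_step 24844096 t378 (by norm_num) (by norm_num) (by norm_num) i378

theorem i380 : Inv 24909632 false 72109571960945 6422943202642285 :=
  ok_step 24909632 t379 (by norm_num) (by norm_num) (by norm_num) i379

theorem i381 : Inv 24975168 false 72478918668769 6438843171572300 :=
  ok_step 24975168 t380 (by norm_num) (by norm_num) (by norm_num) i380

theorem i382 : Inv 25040704 true 72847384899888 6454661536123693 :=
  ok_step 25040704 t381 (by norm_num) (by norm_num) (by norm_num) i381

theorem i383 : Inv 25106240 false 73218019792057 6470535735249944 :=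
  ok_step 25106240 t382 (by norm_num) (by norm_num) (by norm_num) i382

theorem i384 : Inv 25171776 false 73591588089253 6486491538754834 :=
  ok_step 25171776 t383 (by norm_num) (by norm_num) (by norm_num) i383

theorem i385 : Inv 25237312 true 73961946303900 6502266953633276 :=
  ok_step 25237312 t384 (by norm_num) (by norm_num) (by norm_num) i384

theorem i386 : Inv 25302848 true 74337560306856 6518227052105421 :=
  ok_step 25302848 t385 (by norm_num) (by norm_num) (by norm_num) i385

theorem i387 : Inv 25368384 false 74710855905529 6534049711624098 :=
  ok_step 25368384 t386 (by norm_num) (by norm_num) (by norm_num) i386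

theorem i388 : Inv 25433920 false 75090146057823 6550082824540294 :=
  ok_step 25433920 t387 (by norm_num) (by norm_num) (by norm_num) i387

theorem i389 : Inv 25499456 false 75462471824953 6565780930007412 :=
  ok_step 25499456 t388 (by norm_num) (by norm_num) (by norm_num) i388

theorem i390 : Inv 25564992 false 75838615612487 6581599294558826 :=
  ok_step 25564992 t389 (by norm_num) (by norm_num) (by norm_num) i389

theorem i391 : Inv 25630528 true 76215980705340 6597426249044802 :=
  ok_step 25630528 t390 (by norm_num) (by norm_num) (by norm_num) i390

theorem i392 : Inv 25696064 false 76596879668537 6613364872680503 :=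
  ok_step 25696064 t391 (by norm_num) (by norm_num) (by norm_num) i391

theorem i393 : Inv 25761600 true 76975558278148 6629166057362694 :=
  ok_step 25761600 t392 (by norm_num) (by norm_num) (by norm_num) i392

theorem i394 : Inv 25827136 true 77356693845342 6645031666554316 :=
  ok_step 25827136 t393 (by norm_num) (by norm_num) (by norm_num) i393

theorem i395 : Inv 25892672 true 77737871094272 6660858621040304 :=
  ok_step 25892672 t394 (by norm_num) (by norm_num) (by norm_num) i394

theorem i396 : Inv 25958208 false 78122859676183 6676805834610579 :=
  ok_step 25958208 t395 (by norm_num) (by norm_num) (by norm_num) i395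

theorem i397 : Inv 26023744 true 78506329787252 6692645673998449 :=
  ok_step 26023744 t396 (by norm_num) (by norm_num) (by norm_num) i396

theorem i398 : Inv 26089280 false 78890557296089 6708481218419021 :=
  ok_step 26089280 t397 (by norm_num) (by norm_num) (by norm_num) i397

theorem i399 : Inv 26154816 false 79272355200365 6724175028918844 :=
  ok_step 26154816 t398 (by norm_num) (by norm_num) (by norm_num) i398

theorem i400 : Inv 26220352 false 79660348562049 6740083587783475 :=
  ok_step 26220352 t399 (by norm_num) (by norm_num) (by norm_num) i399

theorem i401 : Inv 26285888 false 80046164449363 6755863297629197 :=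
  ok_step 26285888 t400 (by norm_num) (by norm_num) (by norm_num) i400

theorem i402 : Inv 26351424 true 80434889813546 6771720316886285 :=
  ok_step 26351424 t401 (by norm_num) (by norm_num) (by norm_num) i401

theorem i403 : Inv 26416960 false 80825535138255 6787620285816302 :=
  ok_step 26416960 t402 (by norm_num) (by norm_num) (by norm_num) i402

theorem i404 : Inv 26482496 true 81214505447644 6803408585596602 :=
  ok_step 26482496 t403 (by norm_num) (by norm_num) (by norm_num) i403

theorem i405 : Inv 26548032 false 81605925000255 6819261309886359 :=
  ok_step 26548032 t404 (by norm_num) (by norm_num) (by norm_num) i404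

theorem i406 : Inv 26613568 false 81999323315207 6835152688881785 :=
  ok_step 26613568 t405 (by norm_num) (by norm_num) (by norm_num) i405

theorem i407 : Inv 26679104 false 82392838412107 6851009708138849 :=
  ok_step 26679104 t406 (by norm_num) (by norm_num) (by norm_num) i406

theorem i408 : Inv 26744640 true 82781710260578 6866639094129212 :=
  ok_step 26744640 t407 (by norm_num) (by norm_num) (by norm_num) i407

theorem i409 : Inv 26810176 true 83172445155340 6882307134825256 :=
  ok_step 26810176 t408 (by norm_num) (by norm_num) (by norm_num) i408

theorem i410 : Inv 26875712 false 83569773609153 6898202808787949 :=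
  ok_step 26875712 t409 (by norm_num) (by norm_num) (by norm_num) i409

theorem i411 : Inv 26941248 false 83963175107519 6913900914255064 :=
  ok_step 26941248 t410 (by norm_num) (by norm_num) (by norm_num) i410

theorem i412 : Inv 27006784 false 84363142544461 6929822358021554 :=
  ok_step 27006784 t411 (by norm_num) (by norm_num) (by norm_num) i411

theorem i413 : Inv 27072320 false 84761489323157 6945640722572952 :=
  ok_step 27072320 t412 (by norm_num) (by norm_num) (by norm_num) i412

theorem i414 : Inv 27137856 true 85156736423340 6961295878367075 :=
  ok_step 27137856 t413 (by norm_num) (by norm_num) (by norm_num) i413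

theorem i415 : Inv 27203392 false 85554457174713 6977015458670639 :=
  ok_step 27203392 t414 (by norm_num) (by norm_num) (by norm_num) i414

theorem i416 : Inv 27268928 false 85956465369461 6992863887993127 :=
  ok_step 27268928 t415 (by norm_num) (by norm_num) (by norm_num) i415

theorem i417 : Inv 27334464 true 86360587482200 7008755266988587 :=
  ok_step 27334464 t416 (by norm_num) (by norm_num) (by norm_num) i416

theorem i418 : Inv 27400000 false 86760096262415 7024431897619210 :=
  ok_step 27400000 t417 (by norm_num) (by norm_num) (by norm_num) i417

theorem i419 : Inv 27465536 true 87157924531434 7040001154067417 :=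
  ok_step 27465536 t418 (by norm_num) (by norm_num) (by norm_num) i418

theorem i420 : Inv 27531072 true 87568638339350 7056038561950903 :=
  ok_step 27531072 t419 (by norm_num) (by norm_num) (by norm_num) i419

theorem i421 : Inv 27596608 true 87973273176432 7071801091927427 :=
  ok_step 27596608 t420 (by norm_num) (by norm_num) (by norm_num) i420

theorem i422 : Inv 27662144 true 88379534844864 7087589391707748 :=
  ok_step 27662144 t421 (by norm_num) (by norm_num) (by norm_num) i421

theorem i423 : Inv 27727680 false 88787260307671 7103399166324554 :=
  ok_step 27727680 t422 (by norm_num) (by norm_num) (by norm_num) i422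

theorem i424 : Inv 27793216 true 89191841482356 7119045732184129 :=
  ok_step 27793216 t423 (by norm_num) (by norm_num) (by norm_num) i423

theorem i425 : Inv 27858752 true 89604445925368 7134967175950623 :=
  ok_step 27858752 t424 (by norm_num) (by norm_num) (by norm_num) i424

theorem i426 : Inv 27924288 false 90016514220097 7150832785142284 :=
  ok_step 27924288 t425 (by norm_num) (by norm_num) (by norm_num) i425

theorem i427 : Inv 27989824 false 90424688715293 7166509415772901 :=
  ok_step 27989824 t426 (by norm_num) (by norm_num) (by norm_num) i426

theorem i428 : Inv 28055360 true 90839704547052 7182409384702910 :=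
  ok_step 28055360 t427 (by norm_num) (by norm_num) (by norm_num) i427

theorem i429 : Inv 28120896 false 91255687987505 7198313648600235 :=
  ok_step 28120896 t428 (by norm_num) (by norm_num) (by norm_num) i428

theorem i430 : Inv 28186432 true 91667352377888 7214011754067296 :=
  ok_step 28186432 t429 (by norm_num) (by norm_num) (by norm_num) i429

theorem i431 : Inv 28251968 false 92076814840047 7229593895417408 :=
  ok_step 28251968 t430 (by norm_num) (by norm_num) (by norm_num) i430

theorem i432 : Inv 28317504 true 92492655969272 7245377900230444 :=
  ok_step 28317504 t431 (by norm_num) (by norm_num) (by norm_num) i431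

theorem i433 : Inv 28383040 false 92915582707293 7261398128244732 :=
  ok_step 28383040 t432 (by norm_num) (by norm_num) (by norm_num) i432

theorem i434 : Inv 28448576 false 93332269933795 7277143478352095 :=
  ok_step 28448576 t433 (by norm_num) (by norm_num) (by norm_num) i433

theorem i435 : Inv 28514112 false 93750489711175 7292910303295966 :=
  ok_step 28514112 t434 (by norm_num) (by norm_num) (by norm_num) i434

theorem i436 : Inv 28579648 true 94169730206852 7308677128239789 :=
  ok_step 28579648 t435 (by norm_num) (by norm_num) (by norm_num) i435

theorem i437 : Inv 28645184 true 94590334287642 7324461133052840 :=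
  ok_step 28645184 t436 (by norm_num) (by norm_num) (by norm_num) i436

theorem i438 : Inv 28710720 true 95014190827784 7340331037211769 :=
  ok_step 28710720 t437 (by norm_num) (by norm_num) (by norm_num) i437

theorem i439 : Inv 28776256 false 95434825479489 7356046322548086 :=
  ok_step 28776256 t438 (by norm_num) (by norm_num) (by norm_num) i438

theorem i440 : Inv 28841792 true 95856071574154 7371744428015197 :=
  ok_step 28841792 t439 (by norm_num) (by norm_num) (by norm_num) i439

theorem i441 : Inv 28907328 false 96277006764395 7387399583809345 :=
  ok_step 28907328 t440 (by norm_num) (by norm_num) (by norm_num) i440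

theorem i442 : Inv 28972864 false 96700459515125 7403110574178327 :=
  ok_step 28972864 t441 (by norm_num) (by norm_num) (by norm_num) i441

theorem i443 : Inv 29038400 true 97126091342334 7418864514220305 :=
  ok_step 29038400 t442 (by norm_num) (by norm_num) (by norm_num) i442

theorem i444 : Inv 29103936 true 97550763424686 7434549734785521 :=
  ok_step 29103936 t443 (by norm_num) (by norm_num) (by norm_num) i443

theorem i445 : Inv 29169472 false 97977265736145 7450269315089099 :=
  ok_step 29169472 t444 (by norm_num) (by norm_num) (by norm_num) i444

theorem i446 : Inv 29235008 false 98405602301319 7466018960163773 :=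
  ok_step 29235008 t445 (by norm_num) (by norm_num) (by norm_num) i445

theorem i447 : Inv 29300544 false 98836775994209 7481837324715164 :=
  ok_step 29300544 t446 (by norm_num) (by norm_num) (by norm_num) i446

theorem i448 : Inv 29366080 true 99266743344624 7497574084887977 :=
  ok_step 29366080 t447 (by norm_num) (by norm_num) (by norm_num) i447

theorem i449 : Inv 29431616 false 99701080722325 7513439694079609 :=
  ok_step 29431616 t448 (by norm_num) (by norm_num) (by norm_num) i448

theorem i450 : Inv 29497152 false 100130315182581 7529081964971872 :=
  ok_step 29497152 t449 (by norm_num) (by norm_num) (by norm_num) i449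

theorem i451 : Inv 29562688 true 100562573420772 7544797250308164 :=
  ok_step 29562688 t450 (by norm_num) (by norm_num) (by norm_num) i450

theorem i452 : Inv 29628224 false 100992002646105 7560379391658276 :=
  ok_step 29628224 t451 (by norm_num) (by norm_num) (by norm_num) i451

theorem i453 : Inv 29693760 false 101425288217395 7576064612223495 :=
  ok_step 29693760 t452 (by norm_num) (by norm_num) (by norm_num) i452

theorem i454 : Inv 29759296 true 101861734571946 7591827142200059 :=
  ok_step 29759296 t453 (by norm_num) (by norm_num) (by norm_num) i453

theorem i455 : Inv 29824832 true 102298486423986 7607568197340140 :=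
  ok_step 29824832 t454 (by norm_num) (by norm_num) (by norm_num) i454

theorem i456 : Inv 29890368 true 102735364793538 7623279187709132 :=
  ok_step 29890368 t455 (by norm_num) (by norm_num) (by norm_num) i455

theorem i457 : Inv 29955904 false 103174934696377 7639054602587565 :=
  ok_step 29955904 t456 (by norm_num) (by norm_num) (by norm_num) i456

theorem i458 : Inv 30021440 false 103611571251137 7654688283545206 :=
  ok_step 30021440 t457 (by norm_num) (by norm_num) (by norm_num) i457

theorem i459 : Inv 30086976 false 104050724270943 7670377799077712 :=
  ok_step 30086976 t458 (by norm_num) (by norm_num) (by norm_num) i458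

theorem i460 : Inv 30152512 false 104491194589051 7686080199512111 :=
  ok_step 30152512 t459 (by norm_num) (by norm_num) (by norm_num) i459

theorem i461 : Inv 30218048 false 104937694807041 7701962988572938 :=
  ok_step 30218048 t460 (by norm_num) (by norm_num) (by norm_num) i460

theorem i462 : Inv 30283584 true 105376030197460 7717519360119282 :=
  ok_step 30283584 t461 (by norm_num) (by norm_num) (by norm_num) i461

theorem i463 : Inv 30349120 true 105822406391770 7733329134736057 :=
  ok_step 30349120 t462 (by norm_num) (by norm_num) (by norm_num) i462

theorem i464 : Inv 30414656 true 106269750175864 7749138909352826 :=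
  ok_step 30414656 t463 (by norm_num) (by norm_num) (by norm_num) i463

theorem i465 : Inv 30480192 true 106716351277694 7764888554427477 :=
  ok_step 30480192 t464 (by norm_num) (by norm_num) (by norm_num) i464

theorem i466 : Inv 30545728 false 107162632370249 7780595249829165 :=
  ok_step 30545728 t465 (by norm_num) (by norm_num) (by norm_num) i465

theorem i467 : Inv 30611264 false 107605655760929 7796151621375508 :=
  ok_step 30611264 t466 (by norm_num) (by norm_num) (by norm_num) i466

theorem i468 : Inv 30676800 true 108049810013304 7811712287889142 :=
  ok_step 30676800 t467 (by norm_num) (by norm_num) (by norm_num) i467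

theorem i469 : Inv 30742336 false 108500445433781 7827470522898391 :=
  ok_step 30742336 t468 (by norm_num) (by norm_num) (by norm_num) i468

theorem i470 : Inv 30807872 true 108946378291766 7843026894444731 :=
  ok_step 30807872 t469 (by norm_num) (by norm_num) (by norm_num) i469

theorem i471 : Inv 30873408 false 109396714940523 7858707820042668 :=
  ok_step 30873408 t470 (by norm_num) (by norm_num) (by norm_num) i470

theorem i472 : Inv 30938944 false 109848318082205 7874397335575199 :=
  ok_step 30938944 t471 (by norm_num) (by norm_num) (by norm_num) i471

theorem i473 : Inv 31004480 true 110301931872620 7890121210846059 :=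
  ok_step 31004480 t472 (by norm_num) (by norm_num) (by norm_num) i472

theorem i474 : Inv 31070016 false 110758742043027 7905926690495570 :=
  ok_step 31070016 t473 (by norm_num) (by norm_num) (by norm_num) i473

theorem i475 : Inv 31135552 true 111207804376256 7921427227467057 :=
  ok_step 31135552 t474 (by norm_num) (by norm_num) (by norm_num) i474

theorem i476 : Inv 31201088 false 111665788693191 7937206937312772 :=
  ok_step 31201088 t475 (by norm_num) (by norm_num) (by norm_num) i475

theorem i477 : Inv 31266624 false 112122177460427 7952896452845321 :=
  ok_step 31266624 t476 (by norm_num) (by norm_num) (by norm_num) i476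

theorem i478 : Inv 31332160 false 112573391356641 7968375514980361 :=
  ok_step 31332160 t477 (by norm_num) (by norm_num) (by norm_num) i477

theorem i479 : Inv 31397696 false 113035710925443 7984202469466329 :=
  ok_step 31397696 t478 (by norm_num) (by norm_num) (by norm_num) i478

theorem i480 : Inv 31463232 true 113494660023516 7999879100096946 :=
  ok_step 31463232 t479 (by norm_num) (by norm_num) (by norm_num) i479

theorem i481 : Inv 31528768 true 113949963390602 8015401111904932 :=
  ok_step 31528768 t480 (by norm_num) (by norm_num) (by norm_num) i480

theorem i482 : Inv 31594304 true 114413032203354 8031155051946920 :=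
  ok_step 31594304 t481 (by norm_num) (by norm_num) (by norm_num) i481

theorem i483 : Inv 31659840 true 114874785689144 8046831682577552 :=
  ok_step 31659840 t482 (by norm_num) (by norm_num) (by norm_num) i482

theorem i484 : Inv 31725376 true 115339528661786 8062577032684920 :=
  ok_step 31725376 t483 (by norm_num) (by norm_num) (by norm_num) i483

theorem i485 : Inv 31790912 true 115803960656472 8078279433119313 :=
  ok_step 31790912 t484 (by norm_num) (by norm_num) (by norm_num) i484

theorem i486 : Inv 31856448 false 116264829989281 8093831509698366 :=
  ok_step 31856448 t485 (by norm_num) (by norm_num) (by norm_num) i485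

theorem i487 : Inv 31921984 false 116736024468461 8109697118889980 :=
  ok_step 31921984 t486 (by norm_num) (by norm_num) (by norm_num) i486

theorem i488 : Inv 31987520 false 117204736317205 8125446763964646 :=
  ok_step 31987520 t487 (by norm_num) (by norm_num) (by norm_num) i487

theorem i489 : Inv 32053056 false 117672108304091 8141119099627972 :=
  ok_step 32053056 t488 (by norm_num) (by norm_num) (by norm_num) i488

theorem i490 : Inv 32118592 false 118136581546853 8156662586272432 :=
  ok_step 32118592 t489 (by norm_num) (by norm_num) (by norm_num) i489

theorem i491 : Inv 32184128 true 118607468165396 8172386461543317 :=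
  ok_step 32184128 t490 (by norm_num) (by norm_num) (by norm_num) i490

theorem i492 : Inv 32249664 false 119077252877071 8188045912304744 :=
  ok_step 32249664 t491 (by norm_num) (by norm_num) (by norm_num) i491

theorem i493 : Inv 32315200 true 119542828824784 8203529269407036 :=
  ok_step 32315200 t492 (by norm_num) (by norm_num) (by norm_num) i492

theorem i494 : Inv 32380736 false 120012067963097 8219107115789827 :=
  ok_step 32380736 t493 (by norm_num) (by norm_num) (by norm_num) i493

theorem i495 : Inv 32446272 false 120481546749903 8234659192368881 :=
  ok_step 32446272 t494 (by norm_num) (by norm_num) (by norm_num) i494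

theorem i496 : Inv 32511808 false 120956780112539 8250370182737880 :=
  ok_step 32511808 t495 (by norm_num) (by norm_num) (by norm_num) i495

theorem i497 : Inv 32577344 true 121428347885880 8265926554284244 :=
  ok_step 32577344 t496 (by norm_num) (by norm_num) (by norm_num) i496

theorem i498 : Inv 32642880 true 121902891498370 8281551645307299 :=
  ok_step 32642880 t497 (by norm_num) (by norm_num) (by norm_num) i497

theorem i499 : Inv 32708416 false 122378714752151 8297189621232237 :=
  ok_step 32708416 t498 (by norm_num) (by norm_num) (by norm_num) i498

theorem i500 : Inv 32773952 false 122859351429365 8312952151208787 :=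
  ok_step 32773952 t499 (by norm_num) (by norm_num) (by norm_num) i499

theorem i501 : Inv 32839488 false 123333211818801 8328461278114861 :=
  ok_step 32839488 t500 (by norm_num) (by norm_num) (by norm_num) i500

theorem i502 : Inv 32905024 false 123810911088769 8344064894301454 :=
  ok_step 32905024 t501 (by norm_num) (by norm_num) (by norm_num) i501

theorem i503 : Inv 32970560 true 124291867219550 8359741524932088 :=
  ok_step 32970560 t502 (by norm_num) (by norm_num) (by norm_num) i502

theorem i504 : Inv 33036096 false 124777213040667 8375534119679719 :=
  ok_step 33036096 t503 (by norm_num) (by norm_num) (by norm_num) i503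

theorem i505 : Inv 33101632 true 125260482449882 8391223635212247 :=
  ok_step 33101632 t504 (by norm_num) (by norm_num) (by norm_num) i504

theorem i506 : Inv 33167168 false 125747361186925 8407003345057981 :=
  ok_step 33167168 t505 (by norm_num) (by norm_num) (by norm_num) i505

theorem i507 : Inv 33232704 false 126229820642181 8422606961244572 :=
  ok_step 33232704 t506 (by norm_num) (by norm_num) (by norm_num) i506

theorem i508 : Inv 33298240 true 126714763465378 8438257822071429 :=
  ok_step 33298240 t507 (by norm_num) (by norm_num) (by norm_num) i507

theorem i509 : Inv 33363776 true 127201393311896 8453934452702048 :=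
  ok_step 33363776 t508 (by norm_num) (by norm_num) (by norm_num) i508

theorem i510 : Inv 33429312 true 127685643113910 8469503709150283 :=
  ok_step 33429312 t509 (by norm_num) (by norm_num) (by norm_num) i509

theorem i511 : Inv 33494848 true 128170975197894 8485077260565782 :=
  ok_step 33494848 t510 (by norm_num) (by norm_num) (by norm_num) i510

theorem i512 : Inv 33560384 true 128658062599188 8500676581785092 :=
  ok_step 33560384 t511 (by norm_num) (by norm_num) (by norm_num) i511

theorem i513 : Inv 33625920 false 129148188286963 8516344622481113 :=
  ok_step 33625920 t512 (by norm_num) (by norm_num) (by norm_num) i512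

theorem i514 : Inv 33691456 true 129639940007134 8532029843046342 :=
  ok_step 33691456 t513 (by norm_num) (by norm_num) (by norm_num) i513

theorem i515 : Inv 33756992 false 130133593958659 8547749423349925 :=
  ok_step 33756992 t514 (by norm_num) (by norm_num) (by norm_num) i514

theorem i516 : Inv 33822528 false 130625707737839 8563387399274894 :=
  ok_step 33822528 t515 (by norm_num) (by norm_num) (by norm_num) i515

theorem i517 : Inv 33888064 true 131116946794166 8578965245657698 :=
  ok_step 33888064 t516 (by norm_num) (by norm_num) (by norm_num) i516

theorem i518 : Inv 33953600 false 131611445567389 8594620401451843 :=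
  ok_step 33953600 t517 (by norm_num) (by norm_num) (by norm_num) i517

theorem i519 : Inv 34019136 false 132105469518023 8610228312605738 :=
  ok_step 34019136 t518 (by norm_num) (by norm_num) (by norm_num) i518

theorem i520 : Inv 34084672 true 132599289508490 8625797569053969 :=
  ok_step 34084672 t519 (by norm_num) (by norm_num) (by norm_num) i519

theorem i521 : Inv 34150208 false 133096790766473 8641457019815402 :=
  ok_step 34150208 t520 (by norm_num) (by norm_num) (by norm_num) i520

theorem i522 : Inv 34215744 true 133590873918404 8656974736656047 :=
  ok_step 34215744 t521 (by norm_num) (by norm_num) (by norm_num) i521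

theorem i523 : Inv 34281280 false 134086586020051 8672518223300483 :=
  ok_step 34281280 t522 (by norm_num) (by norm_num) (by norm_num) i522

theorem i524 : Inv 34346816 true 134584756164308 8688104659617900 :=
  ok_step 34346816 t523 (by norm_num) (by norm_num) (by norm_num) i523

theorem i525 : Inv 34412352 true 135080644524036 8703592311687499 :=
  ok_step 34412352 t524 (by norm_num) (by norm_num) (by norm_num) i524

theorem i526 : Inv 34477888 false 135581130016871 8719195927874096 :=
  ok_step 34477888 t525 (by norm_num) (by norm_num) (by norm_num) i525

theorem i527 : Inv 34543424 false 136084156149851 8734846788700943 :=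
  ok_step 34543424 t526 (by norm_num) (by norm_num) (by norm_num) i526

theorem i528 : Inv 34608960 false 136583851547129 8750364505541620 :=
  ok_step 34608960 t527 (by norm_num) (by norm_num) (by norm_num) i527

theorem i529 : Inv 34674496 true 137084289040226 8765873632447682 :=
  ok_step 34674496 t528 (by norm_num) (by norm_num) (by norm_num) i528

theorem i530 : Inv 34740032 false 137595664778079 8781696291966395 :=
  ok_step 34740032 t529 (by norm_num) (by norm_num) (by norm_num) i529

theorem i531 : Inv 34805568 false 138100704732585 8797291318218373 :=
  ok_step 34805568 t530 (by norm_num) (by norm_num) (by norm_num) i530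

theorem i532 : Inv 34871104 true 138608298262790 8812933589110633 :=
  ok_step 34871104 t531 (by norm_num) (by norm_num) (by norm_num) i531

theorem i533 : Inv 34936640 true 139116217668818 8828558680133684 :=
  ok_step 34936640 t532 (by norm_num) (by norm_num) (by norm_num) i532

theorem i534 : Inv 35002176 true 139617958694966 8843964727824657 :=
  ok_step 35002176 t533 (by norm_num) (by norm_num) (by norm_num) i533

theorem i535 : Inv 35067712 true 140126526279814 8859551164142067 :=
  ok_step 35067712 t534 (by norm_num) (by norm_num) (by norm_num) i534

theorem i536 : Inv 35133248 true 140636889035140 8875163370263251 :=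
  ok_step 35133248 t535 (by norm_num) (by norm_num) (by norm_num) i535

theorem i537 : Inv 35198784 false 141147146998405 8890745511613353 :=
  ok_step 35198784 t536 (by norm_num) (by norm_num) (by norm_num) i536

theorem i538 : Inv 35264320 true 141663005502448 8906465091916934 :=
  ok_step 35264320 t537 (by norm_num) (by norm_num) (by norm_num) i537

theorem i539 : Inv 35329856 true 142171845854452 8921944154051944 :=
  ok_step 35329856 t538 (by norm_num) (by norm_num) (by norm_num) i538

theorem i540 : Inv 35395392 true 142681631756132 8937423216186977 :=
  ok_step 35395392 t539 (by norm_num) (by norm_num) (by norm_num) i539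

theorem i541 : Inv 35460928 true 143194207270604 8952958112896838 :=
  ok_step 35460928 t540 (by norm_num) (by norm_num) (by norm_num) i540

theorem i542 : Inv 35526464 false 143707230642553 8968480124704782 :=
  ok_step 35526464 t541 (by norm_num) (by norm_num) (by norm_num) i541

theorem i543 : Inv 35592000 true 144222764515156 8984045086185712 :=
  ok_step 35592000 t542 (by norm_num) (by norm_num) (by norm_num) i542

theorem i544 : Inv 35657536 true 144742029903698 8999695947012556 :=
  ok_step 35657536 t543 (by norm_num) (by norm_num) (by norm_num) i543

theorem i545 : Inv 35723072 false 145262327008409 9015351102806685 :=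
  ok_step 35723072 t544 (by norm_num) (by norm_num) (by norm_num) i544

theorem i546 : Inv 35788608 false 145781785967695 9030950424025985 :=
  ok_step 35788608 t545 (by norm_num) (by norm_num) (by norm_num) i545

theorem i547 : Inv 35854144 true 146301837857986 9046536860343375 :=
  ok_step 35854144 t546 (by norm_num) (by norm_num) (by norm_num) i546

theorem i548 : Inv 35919680 true 146815453087960 9061904253328684 :=
  ok_step 35919680 t547 (by norm_num) (by norm_num) (by norm_num) i547

theorem i549 : Inv 35985216 false 147337983600973 9077512164482585 :=
  ok_step 35985216 t548 (by norm_num) (by norm_num) (by norm_num) i548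

theorem i550 : Inv 36050752 true 147861615259742 9093120075636464 :=
  ok_step 36050752 t549 (by norm_num) (by norm_num) (by norm_num) i549

theorem i551 : Inv 36116288 false 148391683721135 9108895490514895 :=
  ok_step 36116288 t550 (by norm_num) (by norm_num) (by norm_num) i550

theorem i552 : Inv 36181824 false 148918014859755 9124529171472561 :=
  ok_step 36181824 t551 (by norm_num) (by norm_num) (by norm_num) i551

theorem i553 : Inv 36247360 true 149438998634484 9139973873869214 :=
  ok_step 36247360 t552 (by norm_num) (by norm_num) (by norm_num) i552

theorem i554 : Inv 36312896 true 149963898427998 9155508770579074 :=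
  ok_step 36312896 t553 (by norm_num) (by norm_num) (by norm_num) i553

theorem i555 : Inv 36378432 false 150489821219067 9171047962256252 :=
  ok_step 36378432 t554 (by norm_num) (by norm_num) (by norm_num) i554

theorem i556 : Inv 36443968 false 151018660379993 9186642988508242 :=
  ok_step 36443968 t555 (by norm_num) (by norm_num) (by norm_num) i555

theorem i557 : Inv 36509504 true 151548376139538 9202233719792953 :=
  ok_step 36509504 t556 (by norm_num) (by norm_num) (by norm_num) i556

theorem i558 : Inv 36575040 true 152076630502130 9217755731600901 :=
  ok_step 36575040 t557 (by norm_num) (by norm_num) (by norm_num) i557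

theorem i559 : Inv 36640576 false 152601954791901 9233166074259189 :=
  ok_step 36640576 t558 (by norm_num) (by norm_num) (by norm_num) i558

theorem i560 : Inv 36706112 true 153132614912466 9248700970969060 :=
  ok_step 36706112 t559 (by norm_num) (by norm_num) (by norm_num) i559

theorem i561 : Inv 36771648 true 153664302132026 9264240162646217 :=
  ok_step 36771648 t560 (by norm_num) (by norm_num) (by norm_num) i560

theorem i562 : Inv 36837184 false 154200689279859 9279891023473046 :=
  ok_step 36837184 t561 (by norm_num) (by norm_num) (by norm_num) i561

theorem i563 : Inv 36902720 true 154733164120146 9295395855411824 :=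
  ok_step 36902720 t562 (by norm_num) (by norm_num) (by norm_num) i562

theorem i564 : Inv 36968256 false 155268950596387 9310973701794645 :=
  ok_step 36968256 t563 (by norm_num) (by norm_num) (by norm_num) i563

theorem i565 : Inv 37033792 false 155799098767357 9326358274649157 :=
  ok_step 37033792 t564 (by norm_num) (by norm_num) (by norm_num) i564

theorem i566 : Inv 37099328 false 156331523451761 9341781502209311 :=
  ok_step 37099328 t565 (by norm_num) (by norm_num) (by norm_num) i565

theorem i567 : Inv 37164864 false 156868155145699 9357299219049991 :=
  ok_step 37164864 t566 (by norm_num) (by norm_num) (by norm_num) i566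

theorem i568 : Inv 37230400 false 157408711751737 9372902835236562 :=
  ok_step 37230400 t567 (by norm_num) (by norm_num) (by norm_num) i567

theorem i569 : Inv 37295936 false 157943515120713 9388313177894853 :=
  ok_step 37295936 t568 (by norm_num) (by norm_num) (by norm_num) i568

theorem i570 : Inv 37361472 false 158483586071923 9403848074604716 :=
  ok_step 37361472 t569 (by norm_num) (by norm_num) (by norm_num) i569

theorem i571 : Inv 37427008 false 159024154959819 9419370086412701 :=
  ok_step 37427008 t570 (by norm_num) (by norm_num) (by norm_num) i570

theorem i572 : Inv 37492544 false 159565970681811 9434900688155250 :=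
  ok_step 37492544 t571 (by norm_num) (by norm_num) (by norm_num) i571

theorem i573 : Inv 37558080 false 160109038565483 9450439879832379 :=
  ok_step 37558080 t572 (by norm_num) (by norm_num) (by norm_num) i572

theorem i574 : Inv 37623616 false 160655911539775 9466060675888135 :=
  ok_step 37623616 t573 (by norm_num) (by norm_num) (by norm_num) i573

theorem i575 : Inv 37689152 false 161200421690603 9481586982663394 :=
  ok_step 37689152 t574 (by norm_num) (by norm_num) (by norm_num) i574

theorem i576 : Inv 37754688 true 161750480904304 9497242138457545 :=
  ok_step 37754688 t575 (by norm_num) (by norm_num) (by norm_num) i575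

theorem i577 : Inv 37820224 true 162293412424862 9512669660984980 :=
  ok_step 37820224 t576 (by norm_num) (by norm_num) (by norm_num) i576

theorem i578 : Inv 37885760 false 162841447660507 9528217442596707 :=
  ok_step 37885760 t577 (by norm_num) (by norm_num) (by norm_num) i577

theorem i579 : Inv 37951296 false 163393692902207 9543855418521674 :=
  ok_step 37951296 t578 (by norm_num) (by norm_num) (by norm_num) i578

theorem i580 : Inv 38016832 true 163945297922862 9559446149806373 :=
  ok_step 38016832 t579 (by norm_num) (by norm_num) (by norm_num) i579

theorem i581 : Inv 38082368 true 164493670240114 9574920916974076 :=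
  ok_step 38082368 t580 (by norm_num) (by norm_num) (by norm_num) i580

theorem i582 : Inv 38147904 false 165039097034811 9590288309959391 :=
  ok_step 38147904 t581 (by norm_num) (by norm_num) (by norm_num) i581

theorem i583 : Inv 38213440 true 165591114277604 9605810321767354 :=
  ok_step 38213440 t582 (by norm_num) (by norm_num) (by norm_num) i582

theorem i584 : Inv 38278976 true 166140791188020 9621242139262104 :=
  ok_step 38278976 t583 (by norm_num) (by norm_num) (by norm_num) i583

theorem i585 : Inv 38344512 false 166687651973955 9636570877541759 :=
  ok_step 38344512 t584 (by norm_num) (by norm_num) (by norm_num) i584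

theorem i586 : Inv 38410048 true 167240976505766 9652049939676772 :=
  ok_step 38410048 t585 (by norm_num) (by norm_num) (by norm_num) i585

theorem i587 : Inv 38475584 false 167797244184699 9667589131353920 :=
  ok_step 38475584 t586 (by norm_num) (by norm_num) (by norm_num) i586

theorem i588 : Inv 38541120 false 168354842801563 9683136912965671 :=
  ok_step 38541120 t587 (by norm_num) (by norm_num) (by norm_num) i587

theorem i589 : Inv 38606656 false 168914627425973 9698719054315790 :=
  ok_step 38606656 t588 (by norm_num) (by norm_num) (by norm_num) i588

theorem i590 : Inv 38672192 false 169469799861281 9714146576843233 :=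
  ok_step 38672192 t589 (by norm_num) (by norm_num) (by norm_num) i589

theorem i591 : Inv 38737728 false 170026220621297 9729582689305284 :=
  ok_step 38737728 t590 (by norm_num) (by norm_num) (by norm_num) i590

theorem i592 : Inv 38803264 true 170585212832336 9745061751440293 :=
  ok_step 38803264 t591 (by norm_num) (by norm_num) (by norm_num) i591

theorem i593 : Inv 38868800 true 171146008347006 9760566583379081 :=
  ok_step 38868800 t592 (by norm_num) (by norm_num) (by norm_num) i592

theorem i594 : Inv 38934336 true 171705414971098 9776006990808429 :=
  ok_step 38934336 t593 (by norm_num) (by norm_num) (by norm_num) i593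

theorem i595 : Inv 38999872 true 172268565912714 9791524707649077 :=
  ok_step 38999872 t594 (by norm_num) (by norm_num) (by norm_num) i594

theorem i596 : Inv 39065408 false 172833993725461 9807081079195405 :=
  ok_step 39065408 t595 (by norm_num) (by norm_num) (by norm_num) i595

theorem i597 : Inv 39130944 false 173394973195095 9822487126886371 :=
  ok_step 39130944 t596 (by norm_num) (by norm_num) (by norm_num) i596

theorem i598 : Inv 39196480 true 173957288675526 9837901764511941 :=
  ok_step 39196480 t597 (by norm_num) (by norm_num) (by norm_num) i597

theorem i599 : Inv 39262016 false 174517564026081 9853239092726160 :=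
  ok_step 39262016 t598 (by norm_num) (by norm_num) (by norm_num) i598

theorem i600 : Inv 39327552 false 175086708360555 9868791169305185 :=
  ok_step 39327552 t599 (by norm_num) (by norm_num) (by norm_num) i599

theorem i601 : Inv 39393088 true 175655623618580 9884308886145849 :=
  ok_step 39393088 t600 (by norm_num) (by norm_num) (by norm_num) i600

theorem i602 : Inv 39458624 false 176222015873113 9899736408673298 :=
  ok_step 39458624 t601 (by norm_num) (by norm_num) (by norm_num) i601

theorem i603 : Inv 39524160 true 176788875892544 9915146751331554 :=
  ok_step 39524160 t602 (by norm_num) (by norm_num) (by norm_num) i602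

theorem i604 : Inv 39589696 true 177361341049614 9930685943008694 :=
  ok_step 39589696 t603 (by norm_num) (by norm_num) (by norm_num) i603

theorem i605 : Inv 39655232 true 177928890775302 9946066220895878 :=
  ok_step 39655232 t604 (by norm_num) (by norm_num) (by norm_num) i604

theorem i606 : Inv 39720768 true 178503733020962 9961618297474901 :=
  ok_step 39720768 t605 (by norm_num) (by norm_num) (by norm_num) i605

theorem i607 : Inv 39786304 true 179076184052028 9977080179740723 :=
  ok_step 39786304 t606 (by norm_num) (by norm_num) (by norm_num) i606

theorem i608 : Inv 39851840 false 179649019833417 9992529177104646 :=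
  ok_step 39851840 t607 (by norm_num) (by norm_num) (by norm_num) i607

theorem i609 : Inv 39917376 false 180221919926817 10007952404664783 :=
  ok_step 39917376 t608 (by norm_num) (by norm_num) (by norm_num) i608

theorem i610 : Inv 39982912 true 180800797470434 10023508776211093 :=
  ok_step 39982912 t609 (by norm_num) (by norm_num) (by norm_num) i609

theorem i611 : Inv 40048448 true 181372067147472 10038837514490708 :=
  ok_step 40048448 t610 (by norm_num) (by norm_num) (by norm_num) i610

theorem i612 : Inv 40113984 false 181944826003161 10054183432639538 :=
  ok_step 40113984 t611 (by norm_num) (by norm_num) (by norm_num) i611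

theorem i613 : Inv 40179520 false 182529841279813 10069829998499091 :=
  ok_step 40179520 t612 (by norm_num) (by norm_num) (by norm_num) i612

theorem i614 : Inv 40245056 false 183110990513547 10085347715339754 :=
  ok_step 40245056 t613 (by norm_num) (by norm_num) (by norm_num) i613

theorem i615 : Inv 40310592 true 183686719807282 10100693633488541 :=
  ok_step 40310592 t614 (by norm_num) (by norm_num) (by norm_num) i614

theorem i616 : Inv 40376128 false 184269843374753 10116215645296494 :=
  ok_step 40376128 t615 (by norm_num) (by norm_num) (by norm_num) i615

theorem i617 : Inv 40441664 true 184856823548974 10131810671548520 :=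
  ok_step 40441664 t616 (by norm_num) (by norm_num) (by norm_num) i616

theorem i618 : Inv 40507200 true 185444840099470 10147409992767826 :=
  ok_step 40507200 t617 (by norm_num) (by norm_num) (by norm_num) i617

theorem i619 : Inv 40572736 false 186033886068481 10163013608954395 :=
  ok_step 40572736 t618 (by norm_num) (by norm_num) (by norm_num) i618

theorem i620 : Inv 40638272 false 186618605029071 10178475491220223 :=
  ok_step 40638272 t619 (by norm_num) (by norm_num) (by norm_num) i619

theorem i621 : Inv 40703808 true 187201260157716 10193855769107438 :=
  ok_step 40703808 t620 (by norm_num) (by norm_num) (by norm_num) i620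

theorem i622 : Inv 40769344 true 187788187749574 10209326241307882 :=
  ok_step 40769344 t621 (by norm_num) (by norm_num) (by norm_num) i621

theorem i623 : Inv 40834880 false 188374676035769 10224762353769924 :=
  ok_step 40834880 t622 (by norm_num) (by norm_num) (by norm_num) i622

theorem i624 : Inv 40900416 true 188959161442532 10240116861853321 :=
  ok_step 40900416 t623 (by norm_num) (by norm_num) (by norm_num) i623

theorem i625 : Inv 40965952 true 189551708835270 10255660348497763 :=
  ok_step 40965952 t624 (by norm_num) (by norm_num) (by norm_num) i624

theorem i626 : Inv 41031488 false 190145616993911 10271216720044116 :=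
  ok_step 41031488 t625 (by norm_num) (by norm_num) (by norm_num) i625

theorem i627 : Inv 41097024 true 190735709433318 10286644242571581 :=
  ok_step 41097024 t626 (by norm_num) (by norm_num) (by norm_num) i626

theorem i628 : Inv 41162560 false 191319344226959 10301882786537984 :=
  ok_step 41162560 t627 (by norm_num) (by norm_num) (by norm_num) i627

theorem i629 : Inv 41228096 true 191913298197422 10317361848672990 :=
  ok_step 41228096 t628 (by norm_num) (by norm_num) (by norm_num) i628

theorem i630 : Inv 41293632 true 192507952209016 10332836615840697 :=
  ok_step 41293632 t629 (by norm_num) (by norm_num) (by norm_num) i629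

theorem i631 : Inv 41359168 false 193104626076147 10348341447779487 :=
  ok_step 41359168 t630 (by norm_num) (by norm_num) (by norm_num) i630

theorem i632 : Inv 41424704 true 193702080879154 10363837689783658 :=
  ok_step 41424704 t631 (by norm_num) (by norm_num) (by norm_num) i631

theorem i633 : Inv 41490240 false 194298486277891 10379286687147588 :=
  ok_step 41490240 t632 (by norm_num) (by norm_num) (by norm_num) i632

theorem i634 : Inv 41555776 true 194892012861654 10394632605296423 :=
  ok_step 41555776 t633 (by norm_num) (by norm_num) (by norm_num) i633

theorem i635 : Inv 41621312 false 195484481886357 10409931278805013 :=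
  ok_step 41621312 t634 (by norm_num) (by norm_num) (by norm_num) i634

theorem i636 : Inv 41686848 true 196082049789692 10425333031528719 :=
  ok_step 41686848 t635 (by norm_num) (by norm_num) (by norm_num) i635

theorem i637 : Inv 41752384 true 196683313640888 10440807798696424 :=
  ok_step 41752384 t636 (by norm_num) (by norm_num) (by norm_num) i636

theorem i638 : Inv 41817920 false 197282596597813 10456209551420080 :=
  ok_step 41817920 t637 (by norm_num) (by norm_num) (by norm_num) i637

theorem i639 : Inv 41883456 false 197884079274773 10471641368914820 :=
  ok_step 41883456 t638 (by norm_num) (by norm_num) (by norm_num) i638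

theorem i640 : Inv 41948992 false 198490022087493 10487163380722772 :=
  ok_step 41948992 t639 (by norm_num) (by norm_num) (by norm_num) i639

theorem i641 : Inv 42014528 true 199100183568984 10502766996909353 :=
  ok_step 42014528 t640 (by norm_num) (by norm_num) (by norm_num) i640

theorem i642 : Inv 42080064 false 199695322639969 10517966886170120 :=
  ok_step 42080064 t641 (by norm_num) (by norm_num) (by norm_num) i641

theorem i643 : Inv 42145600 false 200297537685191 10533321394253557 :=
  ok_step 42145600 t642 (by norm_num) (by norm_num) (by norm_num) i642

theorem i644 : Inv 42211136 true 200901108177566 10548684492271578 :=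
  ok_step 42211136 t643 (by norm_num) (by norm_num) (by norm_num) i643

theorem i645 : Inv 42276672 true 201511274883042 10564193619177661 :=
  ok_step 42276672 t644 (by norm_num) (by norm_num) (by norm_num) i644

theorem i646 : Inv 42342208 true 202114099122368 10579492292686211 :=
  ok_step 42342208 t645 (by norm_num) (by norm_num) (by norm_num) i645

theorem i647 : Inv 42407744 true 202723279525362 10594928405148243 :=
  ok_step 42407744 t646 (by norm_num) (by norm_num) (by norm_num) i646

theorem i648 : Inv 42473280 false 203329584158115 10610270028329791 :=
  ok_step 42473280 t647 (by norm_num) (by norm_num) (by norm_num) i647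

theorem i649 : Inv 42538816 true 203935634228936 10625577291772963 :=
  ok_step 42538816 t648 (by norm_num) (by norm_num) (by norm_num) i648

theorem i650 : Inv 42604352 true 204546620014264 10640987634431260 :=
  ok_step 42604352 t649 (by norm_num) (by norm_num) (by norm_num) i649

theorem i651 : Inv 42669888 true 205162474092894 10656496761337314 :=
  ok_step 42669888 t650 (by norm_num) (by norm_num) (by norm_num) i650

theorem i652 : Inv 42735424 false 205776966638969 10671950053668550 :=
  ok_step 42735424 t651 (by norm_num) (by norm_num) (by norm_num) i651

theorem i653 : Inv 42800960 true 206388976226442 10687313151686580 :=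
  ok_step 42800960 t652 (by norm_num) (by norm_num) (by norm_num) i652

theorem i654 : Inv 42866496 true 207003381719118 10702714904410285 :=
  ok_step 42866496 t653 (by norm_num) (by norm_num) (by norm_num) i653

theorem i655 : Inv 42932032 true 207619585401834 10718138131970457 :=
  ok_step 42932032 t654 (by norm_num) (by norm_num) (by norm_num) i654

theorem i656 : Inv 42997568 false 208238363458195 10733604309203559 :=
  ok_step 42997568 t655 (by norm_num) (by norm_num) (by norm_num) i655

theorem i657 : Inv 43063104 true 208857571777972 10749053306567486 :=
  ok_step 43063104 t656 (by norm_num) (by norm_num) (by norm_num) i656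

theorem i658 : Inv 43128640 true 209470914618286 10764334800206851 :=
  ok_step 43128640 t657 (by norm_num) (by norm_num) (by norm_num) i657

theorem i659 : Inv 43194176 true 210090886825278 10779758027767018 :=
  ok_step 43194176 t658 (by norm_num) (by norm_num) (by norm_num) i658

theorem i660 : Inv 43259712 true 210715951922420 10795284334542286 :=
  ok_step 43259712 t659 (by norm_num) (by norm_num) (by norm_num) i659

theorem i661 : Inv 43325248 true 211336248846950 10810668907396768 :=
  ok_step 43325248 t660 (by norm_num) (by norm_num) (by norm_num) i660

theorem i662 : Inv 43390784 false 211955837673481 10826014825545612 :=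
  ok_step 43390784 t661 (by norm_num) (by norm_num) (by norm_num) i661

theorem i663 : Inv 43456320 false 212579400325489 10841433758138476 :=
  ok_step 43456320 t662 (by norm_num) (by norm_num) (by norm_num) i662

theorem i664 : Inv 43521856 true 213202601005378 10856818330992970 :=
  ok_step 43521856 t663 (by norm_num) (by norm_num) (by norm_num) i663

theorem i665 : Inv 43587392 false 213825345595553 10872172839076394 :=
  ok_step 43587392 t664 (by norm_num) (by norm_num) (by norm_num) i664

theorem i666 : Inv 43652928 false 214451381137453 10887583181734679 :=
  ok_step 43652928 t665 (by norm_num) (by norm_num) (by norm_num) i665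

theorem i667 : Inv 43718464 true 215071629218220 10902826020668417 :=
  ok_step 43718464 t666 (by norm_num) (by norm_num) (by norm_num) i666

theorem i668 : Inv 43784000 false 215699984940405 10918249248228553 :=
  ok_step 43784000 t667 (by norm_num) (by norm_num) (by norm_num) i667

theorem i669 : Inv 43849536 false 216327264958257 10933620936181179 :=
  ok_step 43849536 t668 (by norm_num) (by norm_num) (by norm_num) i668

theorem i670 : Inv 43915072 true 216953817874594 10948949674460850 :=
  ok_step 43915072 t669 (by norm_num) (by norm_num) (by norm_num) i669

theorem i671 : Inv 43980608 false 217585347819811 10964381491955610 :=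
  ok_step 43980608 t670 (by norm_num) (by norm_num) (by norm_num) i670

theorem i672 : Inv 44046144 false 218224599409715 10979976518207609 :=
  ok_step 44046144 t671 (by norm_num) (by norm_num) (by norm_num) i671

theorem i673 : Inv 44111680 false 218854049457237 10995309551454553 :=
  ok_step 44111680 t672 (by norm_num) (by norm_num) (by norm_num) i672

theorem i674 : Inv 44177216 true 219492462637862 11010835858229806 :=
  ok_step 44177216 t673 (by norm_num) (by norm_num) (by norm_num) i673

theorem i675 : Inv 44242752 false 220122099991047 11026130236771061 :=
  ok_step 44242752 t674 (by norm_num) (by norm_num) (by norm_num) i674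

theorem i676 : Inv 44308288 true 220748424251368 11041317241129908 :=
  ok_step 44308288 t675 (by norm_num) (by norm_num) (by norm_num) i675

theorem i677 : Inv 44373824 false 221384006490915 11056710403918990 :=
  ok_step 44373824 t676 (by norm_num) (by norm_num) (by norm_num) i676

theorem i678 : Inv 44439360 false 222023638604579 11072176581152100 :=
  ok_step 44439360 t677 (by norm_num) (by norm_num) (by norm_num) i677

theorem i679 : Inv 44504896 true 222663410920604 11087621283548722 :=
  ok_step 44504896 t678 (by norm_num) (by norm_num) (by norm_num) i678

theorem i680 : Inv 44570432 false 223299676593711 11102962906730236 :=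
  ok_step 44570432 t679 (by norm_num) (by norm_num) (by norm_num) i679

theorem i681 : Inv 44635968 false 223945708879225 11118514983309264 :=
  ok_step 44635968 t680 (by norm_num) (by norm_num) (by norm_num) i680

theorem i682 : Inv 44701504 true 224578842751318 11133732052439207 :=
  ok_step 44701504 t681 (by norm_num) (by norm_num) (by norm_num) i681

theorem i683 : Inv 44767040 true 225217647577632 11149065085686151 :=
  ok_step 44767040 t682 (by norm_num) (by norm_num) (by norm_num) i682

theorem i684 : Inv 44832576 false 225851204985981 11164252090045044 :=
  ok_step 44832576 t683 (by norm_num) (by norm_num) (by norm_num) i683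

theorem i685 : Inv 44898112 true 226485868594898 11179439094403924 :=
  ok_step 44898112 t684 (by norm_num) (by norm_num) (by norm_num) i684

theorem i686 : Inv 44963648 true 227130896399310 11194853732029489 :=
  ok_step 44963648 t685 (by norm_num) (by norm_num) (by norm_num) i685

theorem i687 : Inv 45029184 false 227773356886965 11210186765276411 :=
  ok_step 45029184 t686 (by norm_num) (by norm_num) (by norm_num) i686

theorem i688 : Inv 45094720 true 228426845124362 11225756021724653 :=
  ok_step 45094720 t687 (by norm_num) (by norm_num) (by norm_num) i687

theorem i689 : Inv 45160256 false 229074247033331 11241162069415632 :=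
  ok_step 45160256 t688 (by norm_num) (by norm_num) (by norm_num) i688

theorem i690 : Inv 45225792 false 229721048165227 11256529462400939 :=
  ok_step 45225792 t689 (by norm_num) (by norm_num) (by norm_num) i689

theorem i691 : Inv 45291328 true 230368875705472 11271896855386238 :=
  ok_step 45291328 t690 (by norm_num) (by norm_num) (by norm_num) i690

theorem i692 : Inv 45356864 true 231016105104130 11287229888633180 :=
  ok_step 45356864 t691 (by norm_num) (by norm_num) (by norm_num) i691

theorem i693 : Inv 45422400 true 231667719761630 11302644526258748 :=
  ok_step 45422400 t692 (by norm_num) (by norm_num) (by norm_num) i692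

theorem i694 : Inv 45487936 true 232320640433664 11318067753818896 :=
  ok_step 45487936 t693 (by norm_num) (by norm_num) (by norm_num) i693

theorem i695 : Inv 45553472 false 232966216093453 11333297707850712 :=
  ok_step 45553472 t694 (by norm_num) (by norm_num) (by norm_num) i694

theorem i696 : Inv 45619008 false 233623936474485 11348789654887608 :=
  ok_step 45619008 t695 (by norm_num) (by norm_num) (by norm_num) i695

theorem i697 : Inv 45684544 false 234281322129101 11364251537153427 :=
  ok_step 45684544 t696 (by norm_num) (by norm_num) (by norm_num) i696

theorem i698 : Inv 45750080 false 234931243251607 11379515850923630 :=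
  ok_step 45750080 t697 (by norm_num) (by norm_num) (by norm_num) i697

theorem i699 : Inv 45815616 false 235585574578341 11394861769072442 :=
  ok_step 45815616 t698 (by norm_num) (by norm_num) (by norm_num) i698

theorem i700 : Inv 45881152 false 236244874776445 11410302176501780 :=
  ok_step 45881152 t699 (by norm_num) (by norm_num) (by norm_num) i699

theorem i701 : Inv 45946688 true 236892353726702 11425441936220380 :=
  ok_step 45946688 t700 (by norm_num) (by norm_num) (by norm_num) i700

theorem i702 : Inv 46012224 false 237549582686351 11440792149336500 :=
  ok_step 46012224 t701 (by norm_num) (by norm_num) (by norm_num) i701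

theorem i703 : Inv 46077760 false 238211892772137 11456236851733128 :=
  ok_step 46077760 t702 (by norm_num) (by norm_num) (by norm_num) i702

theorem i704 : Inv 46143296 false 238868507389365 11471526935307085 :=
  ok_step 46143296 t703 (by norm_num) (by norm_num) (by norm_num) i703

theorem i705 : Inv 46208832 false 239523469244635 11486756889338886 :=
  ok_step 46208832 t704 (by norm_num) (by norm_num) (by norm_num) i704

theorem i706 : Inv 46274368 false 240186202259291 11502145757160662 :=
  ok_step 46274368 t705 (by norm_num) (by norm_num) (by norm_num) i705

theorem i707 : Inv 46339904 true 240848116656262 11517491675309501 :=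
  ok_step 46339904 t706 (by norm_num) (by norm_num) (by norm_num) i706

theorem i708 : Inv 46405440 false 241514119115529 11532914902869665 :=
  ok_step 46405440 t707 (by norm_num) (by norm_num) (by norm_num) i707

theorem i709 : Inv 46470976 true 242178647509234 11548278000887690 :=
  ok_step 46470976 t708 (by norm_num) (by norm_num) (by norm_num) i708

theorem i710 : Inv 46536512 false 242832583793663 11563379105900631 :=
  ok_step 46536512 t709 (by norm_num) (by norm_num) (by norm_num) i709

theorem i711 : Inv 46602048 true 243501040416240 11578789448558897 :=
  ok_step 46602048 t710 (by norm_num) (by norm_num) (by norm_num) i710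

theorem i712 : Inv 46667584 true 244164748783522 11594070942198286 :=
  ok_step 46667584 t711 (by norm_num) (by norm_num) (by norm_num) i711

theorem i713 : Inv 46733120 true 244835551928242 11609494169758454 :=
  ok_step 46733120 t712 (by norm_num) (by norm_num) (by norm_num) i712

theorem i714 : Inv 46798656 false 245499345072337 11624737008692163 :=
  ok_step 46798656 t713 (by norm_num) (by norm_num) (by norm_num) i713

theorem i715 : Inv 46864192 true 246165005787646 11639997027495086 :=
  ok_step 46864192 t714 (by norm_num) (by norm_num) (by norm_num) i714

theorem i716 : Inv 46929728 true 246833943732576 11655312880872810 :=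
  ok_step 46929728 t715 (by norm_num) (by norm_num) (by norm_num) i715

theorem i717 : Inv 46995264 true 247507007412580 11670701748694590 :=
  ok_step 46995264 t716 (by norm_num) (by norm_num) (by norm_num) i716

theorem i718 : Inv 47060800 false 248184866848899 11686180810829587 :=
  ok_step 47060800 t717 (by norm_num) (by norm_num) (by norm_num) i717

theorem i719 : Inv 47126336 false 248855668293857 11701475189370840 :=
  ok_step 47126336 t718 (by norm_num) (by norm_num) (by norm_num) i718

theorem i720 : Inv 47191872 false 249527592007879 11716773862879376 :=
  ok_step 47191872 t719 (by norm_num) (by norm_num) (by norm_num) i719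

theorem i721 : Inv 47257408 true 250204513500110 11732162730701173 :=
  ok_step 47257408 t720 (by norm_num) (by norm_num) (by norm_num) i720

theorem i722 : Inv 47322944 true 250877171333622 11747435634405980 :=
  ok_step 47322944 t721 (by norm_num) (by norm_num) (by norm_num) i721

theorem i723 : Inv 47388480 true 251552465225296 11762747192816434 :=
  ok_step 47388480 t722 (by norm_num) (by norm_num) (by norm_num) i722

theorem i724 : Inv 47454016 true 252239125018192 11778294974428147 :=
  ok_step 47454016 t723 (by norm_num) (by norm_num) (by norm_num) i723

theorem i725 : Inv 47519552 false 252917136694035 11793628007675108 :=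
  ok_step 47519552 t724 (by norm_num) (by norm_num) (by norm_num) i724

theorem i726 : Inv 47585088 false 253593519228505 11808900911379891 :=
  ok_step 47585088 t725 (by norm_num) (by norm_num) (by norm_num) i725

theorem i727 : Inv 47650624 true 254276072205242 11824289779201685 :=
  ok_step 47650624 t726 (by norm_num) (by norm_num) (by norm_num) i726

theorem i728 : Inv 47716160 true 254957565975928 11839635697350491 :=
  ok_step 47716160 t727 (by norm_num) (by norm_num) (by norm_num) i727

theorem i729 : Inv 47781696 false 255645054535001 11855097579616302 :=
  ok_step 47781696 t728 (by norm_num) (by norm_num) (by norm_num) i728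

theorem i730 : Inv 47847232 true 256321822900636 11870293173909758 :=
  ok_step 47847232 t729 (by norm_num) (by norm_num) (by norm_num) i729

theorem i731 : Inv 47912768 false 257000285500863 11885510243039702 :=
  ok_step 47912768 t730 (by norm_num) (by norm_num) (by norm_num) i730

theorem i732 : Inv 47978304 true 257689261636950 11900937765567150 :=
  ok_step 47978304 t731 (by norm_num) (by norm_num) (by norm_num) i731

theorem i733 : Inv 48043840 true 258370246900450 11916167719599004 :=
  ok_step 48043840 t732 (by norm_num) (by norm_num) (by norm_num) i732

theorem i734 : Inv 48109376 true 259051198307792 11931376198794344 :=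
  ok_step 48109376 t733 (by norm_num) (by norm_num) (by norm_num) i733

theorem i735 : Inv 48174912 false 259739341164981 11946726411910462 :=
  ok_step 48174912 t734 (by norm_num) (by norm_num) (by norm_num) i734

theorem i736 : Inv 48240448 true 260426684064460 11962033675353605 :=
  ok_step 48240448 t735 (by norm_num) (by norm_num) (by norm_num) i735

theorem i737 : Inv 48305984 true 261115255101142 11977349528731363 :=
  ok_step 48305984 t736 (by norm_num) (by norm_num) (by norm_num) i736

theorem i738 : Inv 48371520 true 261806687343194 11992708331782066 :=
  ok_step 48371520 t737 (by norm_num) (by norm_num) (by norm_num) i737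

theorem i739 : Inv 48437056 true 262500222023158 12008092904636553 :=
  ok_step 48437056 t738 (by norm_num) (by norm_num) (by norm_num) i738

theorem i740 : Inv 48502592 true 263193926618902 12023460297621843 :=
  ok_step 48502592 t739 (by norm_num) (by norm_num) (by norm_num) i739

theorem i741 : Inv 48568128 true 263881768575288 12038677366751768 :=
  ok_step 48568128 t740 (by norm_num) (by norm_num) (by norm_num) i740

theorem i742 : Inv 48633664 false 264569668617099 12053877256012534 :=
  ok_step 48633664 t741 (by norm_num) (by norm_num) (by norm_num) i741

theorem i743 : Inv 48699200 true 265262387428464 12069158749651921 :=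
  ok_step 48699200 t742 (by norm_num) (by norm_num) (by norm_num) i742

theorem i744 : Inv 48764736 false 265965201378235 12084646401721516 :=
  ok_step 48764736 t743 (by norm_num) (by norm_num) (by norm_num) i743

theorem i745 : Inv 48830272 true 266665247721012 12100048154445153 :=
  ok_step 48830272 t744 (by norm_num) (by norm_num) (by norm_num) i744

theorem i746 : Inv 48895808 true 267362622980572 12115372597757493 :=
  ok_step 48895808 t745 (by norm_num) (by norm_num) (by norm_num) i745

theorem i747 : Inv 48961344 false 268063185096965 12130748580677390 :=
  ok_step 48961344 t746 (by norm_num) (by norm_num) (by norm_num) i746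

theorem i748 : Inv 49026880 true 268753510073952 12145875455494113 :=
  ok_step 49026880 t747 (by norm_num) (by norm_num) (by norm_num) i747

theorem i749 : Inv 49092416 true 269446427479934 12161040985016504 :=
  ok_step 49092416 t748 (by norm_num) (by norm_num) (by norm_num) i748

theorem i750 : Inv 49157952 false 270148423845265 12176386903165313 :=
  ok_step 49157952 t749 (by norm_num) (by norm_num) (by norm_num) i749

theorem i751 : Inv 49223488 true 270853130583824 12191767181052502 :=
  ok_step 49223488 t750 (by norm_num) (by norm_num) (by norm_num) i750

theorem i752 : Inv 49289024 false 271558382631821 12207143163972389 :=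
  ok_step 49289024 t751 (by norm_num) (by norm_num) (by norm_num) i751

theorem i753 : Inv 49354560 true 272257467783088 12222360233102346 :=
  ok_step 49354560 t752 (by norm_num) (by norm_num) (by norm_num) i752

theorem i754 : Inv 49420096 true 272955411974528 12237534352559293 :=
  ok_step 49420096 t753 (by norm_num) (by norm_num) (by norm_num) i753

theorem i755 : Inv 49485632 false 273648244497285 12252579622997410 :=
  ok_step 49485632 t754 (by norm_num) (by norm_num) (by norm_num) i754

theorem i756 : Inv 49551168 true 274360217396712 12268015735459472 :=
  ok_step 49551168 t755 (by norm_num) (by norm_num) (by norm_num) i755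

theorem i757 : Inv 49616704 false 275061432865107 12283202739818349 :=
  ok_step 49616704 t756 (by norm_num) (by norm_num) (by norm_num) i756

theorem i758 : Inv 49682240 false 275766459219679 12298449873719376 :=
  ok_step 49682240 t757 (by norm_num) (by norm_num) (by norm_num) i757

theorem i759 : Inv 49747776 true 276472912461830 12313705597554966 :=
  ok_step 49747776 t758 (by norm_num) (by norm_num) (by norm_num) i758

theorem i760 : Inv 49813312 true 277192148334938 12329219019428322 :=
  ok_step 49813312 t759 (by norm_num) (by norm_num) (by norm_num) i759

theorem i761 : Inv 49878848 true 277892984465722 12344315829473965 :=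
  ok_step 49878848 t760 (by norm_num) (by norm_num) (by norm_num) i760

theorem i762 : Inv 49944384 true 278604326918650 12359618797949820 :=
  ok_step 49944384 t761 (by norm_num) (by norm_num) (by norm_num) i761

theorem i763 : Inv 50009920 true 279317000824166 12374930356360235 :=
  ok_step 50009920 t762 (by norm_num) (by norm_num) (by norm_num) i762

theorem i764 : Inv 50075456 false 280030710300627 12390246209737986 :=
  ok_step 50075456 t763 (by norm_num) (by norm_num) (by norm_num) i763

theorem i765 : Inv 50140992 false 280747457313073 12405605012788707 :=
  ok_step 50140992 t764 (by norm_num) (by norm_num) (by norm_num) i764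

theorem i766 : Inv 50206528 false 281456311439179 12420774837278376 :=
  ok_step 50206528 t765 (by norm_num) (by norm_num) (by norm_num) i765

theorem i767 : Inv 50272064 true 282170414734060 12436034856081302 :=
  ok_step 50272064 t766 (by norm_num) (by norm_num) (by norm_num) i766

theorem i768 : Inv 50337600 true 282880115226498 12451183205734491 :=
  ok_step 50337600 t767 (by norm_num) (by norm_num) (by norm_num) i767

theorem i769 : Inv 50403136 false 283589427590573 12466305785583940 :=
  ok_step 50403136 t768 (by norm_num) (by norm_num) (by norm_num) i768

theorem i770 : Inv 50468672 true 284311973208206 12481686063471136 :=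
  ok_step 50468672 t769 (by norm_num) (by norm_num) (by norm_num) i769

theorem i771 : Inv 50534208 true 285036972839566 12497100701096714 :=
  ok_step 50534208 t770 (by norm_num) (by norm_num) (by norm_num) i770

theorem i772 : Inv 50599744 true 285755427821390 12512356424932337 :=
  ok_step 50599744 t771 (by norm_num) (by norm_num) (by norm_num) i771

theorem i773 : Inv 50665280 true 286476433850546 12527646508506315 :=
  ok_step 50665280 t772 (by norm_num) (by norm_num) (by norm_num) i772

theorem i774 : Inv 50730816 false 287199488644561 12542962361884077 :=
  ok_step 50730816 t773 (by norm_num) (by norm_num) (by norm_num) i773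

theorem i775 : Inv 50796352 false 287919313929311 12558188020948621 :=
  ok_step 50796352 t774 (by norm_num) (by norm_num) (by norm_num) i774

theorem i776 : Inv 50861888 true 288638544378998 12573379320274778 :=
  ok_step 50861888 t775 (by norm_num) (by norm_num) (by norm_num) i775

theorem i777 : Inv 50927424 true 289358803253496 12588574914568250 :=
  ok_step 50927424 t776 (by norm_num) (by norm_num) (by norm_num) i776

theorem i778 : Inv 50992960 false 290094362286909 12604075451539716 :=
  ok_step 50992960 t777 (by norm_num) (by norm_num) (by norm_num) i777

theorem i779 : Inv 51058496 true 290819641928358 12619335470342633 :=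
  ok_step 51058496 t778 (by norm_num) (by norm_num) (by norm_num) i778

theorem i780 : Inv 51124032 false 291550145555357 12634689978426051 :=
  ok_step 51124032 t779 (by norm_num) (by norm_num) (by norm_num) i779

theorem i781 : Inv 51189568 false 292283528058583 12650083141215139 :=
  ok_step 51189568 t780 (by norm_num) (by norm_num) (by norm_num) i780

theorem i782 : Inv 51255104 false 293012934738769 12665373224789116 :=
  ok_step 51255104 t781 (by norm_num) (by norm_num) (by norm_num) i781

theorem i783 : Inv 51320640 false 293742042782567 12680637538559319 :=
  ok_step 51320640 t782 (by norm_num) (by norm_num) (by norm_num) i782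

theorem i784 : Inv 51386176 true 294468693593512 12695828837885480 :=
  ok_step 51386176 t783 (by norm_num) (by norm_num) (by norm_num) i783

theorem i785 : Inv 51451712 true 295202339752394 12711148986230525 :=
  ok_step 51451712 t784 (by norm_num) (by norm_num) (by norm_num) i784

theorem i786 : Inv 51517248 false 295929404594813 12726314515752909 :=
  ok_step 51517248 t785 (by norm_num) (by norm_num) (by norm_num) i785

theorem i787 : Inv 51582784 false 296662443673801 12741583124490382 :=
  ok_step 51582784 t786 (by norm_num) (by norm_num) (by norm_num) i786

theorem i788 : Inv 51648320 false 297393942507103 12756800193620333 :=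
  ok_step 51648320 t787 (by norm_num) (by norm_num) (by norm_num) i787

theorem i789 : Inv 51713856 false 298130502363737 12772103162096192 :=
  ok_step 51713856 t788 (by norm_num) (by norm_num) (by norm_num) i788

theorem i790 : Inv 51779392 true 298866855727164 12787380360768302 :=
  ok_step 51779392 t789 (by norm_num) (by norm_num) (by norm_num) i789

theorem i791 : Inv 51844928 false 299597098997749 12802515825519609 :=
  ok_step 51844928 t790 (by norm_num) (by norm_num) (by norm_num) i790

theorem i792 : Inv 51910464 false 300331477456731 12817715714780382 :=
  ok_step 51910464 t791 (by norm_num) (by norm_num) (by norm_num) i791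

theorem i793 : Inv 51976000 false 301069694962009 12832975733583289 :=
  ok_step 51976000 t792 (by norm_num) (by norm_num) (by norm_num) i792

theorem i794 : Inv 52041536 false 301818620470061 12848437615849104 :=
  ok_step 52041536 t793 (by norm_num) (by norm_num) (by norm_num) i793

theorem i795 : Inv 52107072 true 302562555404710 12863774944063346 :=
  ok_step 52107072 t794 (by norm_num) (by norm_num) (by norm_num) i794

theorem i796 : Inv 52172608 true 303305857325214 12879082207506503 :=
  ok_step 52172608 t795 (by norm_num) (by norm_num) (by norm_num) i795

theorem i797 : Inv 52238144 true 304046756588180 12894320751472918 :=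
  ok_step 52238144 t796 (by norm_num) (by norm_num) (by norm_num) i796

theorem i798 : Inv 52303680 true 304789422460886 12909576475308552 :=
  ok_step 52303680 t797 (by norm_num) (by norm_num) (by norm_num) i797

theorem i799 : Inv 52369216 false 305526004624289 12924690465223404 :=
  ok_step 52369216 t798 (by norm_num) (by norm_num) (by norm_num) i798

theorem i800 : Inv 52434752 true 306272734182462 12939989138731979 :=
  ok_step 52434752 t799 (by norm_num) (by norm_num) (by norm_num) i799

theorem i801 : Inv 52500288 false 307015150731405 12955184733025442 :=
  ok_step 52500288 t800 (by norm_num) (by norm_num) (by norm_num) i800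

theorem i802 : Inv 52565824 false 307761751994187 12970444751828320 :=
  ok_step 52565824 t801 (by norm_num) (by norm_num) (by norm_num) i801

theorem i803 : Inv 52631360 true 308510860454632 12985734835402317 :=
  ok_step 52631360 t802 (by norm_num) (by norm_num) (by norm_num) i802

theorem i804 : Inv 52696896 false 309255428549727 13000917544793909 :=
  ok_step 52696896 t803 (by norm_num) (by norm_num) (by norm_num) i803

theorem i805 : Inv 52762432 true 310003029169776 13016138908891152 :=
  ok_step 52762432 t804 (by norm_num) (by norm_num) (by norm_num) i804

theorem i806 : Inv 52827968 false 310749238474509 13031317323315438 :=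
  ok_step 52827968 t805 (by norm_num) (by norm_num) (by norm_num) i805

theorem i807 : Inv 52893504 false 311497325458171 13046512917608881 :=
  ok_step 52893504 t806 (by norm_num) (by norm_num) (by norm_num) i806

theorem i808 : Inv 52959040 true 312252159763958 13061824476019323 :=
  ok_step 52959040 t807 (by norm_num) (by norm_num) (by norm_num) i807

theorem i809 : Inv 53024576 true 312995954367282 13076895516261190 :=
  ok_step 53024576 t808 (by norm_num) (by norm_num) (by norm_num) i808

theorem i810 : Inv 53090112 false 313750110162703 13092159830031402 :=
  ok_step 53090112 t809 (by norm_num) (by norm_num) (by norm_num) i809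

theorem i811 : Inv 53155648 true 314505201471458 13107419848834302 :=
  ok_step 53155648 t810 (by norm_num) (by norm_num) (by norm_num) i810

theorem i812 : Inv 53221184 true 315256861519390 13122593968291274 :=
  ok_step 53221184 t811 (by norm_num) (by norm_num) (by norm_num) i811

theorem i813 : Inv 53286720 false 316015091877819 13137884051865246 :=
  ok_step 53286720 t812 (by norm_num) (by norm_num) (by norm_num) i812

theorem i814 : Inv 53352256 true 316771481752172 13153114005897086 :=
  ok_step 53352256 t813 (by norm_num) (by norm_num) (by norm_num) i813

theorem i815 : Inv 53417792 true 317525922142566 13168288125354064 :=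
  ok_step 53417792 t814 (by norm_num) (by norm_num) (by norm_num) i814

theorem i816 : Inv 53483328 false 318280110556015 13183440769974530 :=
  ok_step 53483328 t815 (by norm_num) (by norm_num) (by norm_num) i815

theorem i817 : Inv 53548864 true 319040787622500 13198700788777432 :=
  ok_step 53548864 t816 (by norm_num) (by norm_num) (by norm_num) i816

theorem i818 : Inv 53614400 true 319807649646646 13214068181762734 :=
  ok_step 53614400 t817 (by norm_num) (by norm_num) (by norm_num) i817

theorem i819 : Inv 53679936 true 320570725887008 13229341085467509 :=
  ok_step 53679936 t818 (by norm_num) (by norm_num) (by norm_num) i818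

theorem i820 : Inv 53745472 false 321335057448233 13244622579106879 :=
  ok_step 53745472 t819 (by norm_num) (by norm_num) (by norm_num) i819

theorem i821 : Inv 53811008 true 322091503816818 13259723684119807 :=
  ok_step 53811008 t820 (by norm_num) (by norm_num) (by norm_num) i820

theorem i822 : Inv 53876544 true 322862975024660 13275108256974297 :=
  ok_step 53876544 t821 (by norm_num) (by norm_num) (by norm_num) i821

theorem i823 : Inv 53942080 false 323628165181463 13290351095907998 :=
  ok_step 53942080 t822 (by norm_num) (by norm_num) (by norm_num) i822

theorem i824 : Inv 54007616 true 324377874954132 13305263222359923 :=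
  ok_step 54007616 t823 (by norm_num) (by norm_num) (by norm_num) i823

theorem i825 : Inv 54073152 true 325151733469978 13320639205279802 :=
  ok_step 54073152 t824 (by norm_num) (by norm_num) (by norm_num) i824

theorem i826 : Inv 54138688 true 325921773427428 13335920698919198 :=
  ok_step 54138688 t825 (by norm_num) (by norm_num) (by norm_num) i825

theorem i827 : Inv 54204224 false 326698051655677 13351309566740973 :=
  ok_step 54204224 t826 (by norm_num) (by norm_num) (by norm_num) i826

theorem i828 : Inv 54269760 false 327474292886223 13366676959726277 :=
  ok_step 54269760 t827 (by norm_num) (by norm_num) (by norm_num) i827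

theorem i829 : Inv 54335296 true 328241803975874 13381851079183251 :=
  ok_step 54335296 t828 (by norm_num) (by norm_num) (by norm_num) i828

theorem i830 : Inv 54400832 true 329012093382484 13397063853345897 :=
  ok_step 54400832 t829 (by norm_num) (by norm_num) (by norm_num) i829

theorem i831 : Inv 54466368 false 329779496994541 13412203613064498 :=
  ok_step 54466368 t830 (by norm_num) (by norm_num) (by norm_num) i830

theorem i832 : Inv 54531904 true 330548479453706 13427351962717712 :=
  ok_step 54531904 t831 (by norm_num) (by norm_num) (by norm_num) i831

theorem i833 : Inv 54597440 false 331324497966267 13442624866422503 :=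
  ok_step 54597440 t832 (by norm_num) (by norm_num) (by norm_num) i832

theorem i834 : Inv 54662976 false 332098278331253 13457833345617844 :=
  ok_step 54662976 t833 (by norm_num) (by norm_num) (by norm_num) i833

theorem i835 : Inv 54728512 true 332879447430438 13473166378864763 :=
  ok_step 54728512 t834 (by norm_num) (by norm_num) (by norm_num) i834

theorem i836 : Inv 54794048 false 333653881877991 13488353383223649 :=
  ok_step 54794048 t835 (by norm_num) (by norm_num) (by norm_num) i835

theorem i837 : Inv 54859584 true 334429241888418 13503536092615219 :=
  ok_step 54859584 t836 (by norm_num) (by norm_num) (by norm_num) i836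

theorem i838 : Inv 54925120 true 335211788227464 13518843356058367 :=
  ok_step 54925120 t837 (by norm_num) (by norm_num) (by norm_num) i837

theorem i839 : Inv 54990656 true 335992851415364 13534103374861232 :=
  ok_step 54990656 t838 (by norm_num) (by norm_num) (by norm_num) i838

theorem i840 : Inv 55056192 false 336780678202487 13549479357781127 :=
  ok_step 55056192 t839 (by norm_num) (by norm_num) (by norm_num) i839

theorem i841 : Inv 55121728 false 337546413816019 13564404369134944 :=
  ok_step 55121728 t840 (by norm_num) (by norm_num) (by norm_num) i840

theorem i842 : Inv 55187264 true 338314932319134 13579363740227108 :=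
  ok_step 55187264 t841 (by norm_num) (by norm_num) (by norm_num) i841

theorem i843 : Inv 55252800 true 339103915492318 13594705363408619 :=
  ok_step 55252800 t842 (by norm_num) (by norm_num) (by norm_num) i842

theorem i844 : Inv 55318336 false 339882672095947 13609832238225337 :=
  ok_step 55318336 t843 (by norm_num) (by norm_num) (by norm_num) i843

theorem i845 : Inv 55383872 false 340667994760561 13625066487224457 :=
  ok_step 55383872 t844 (by norm_num) (by norm_num) (by norm_num) i844

theorem i846 : Inv 55449408 false 341450702267423 13640232016746820 :=
  ok_step 55449408 t845 (by norm_num) (by norm_num) (by norm_num) i845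

theorem i847 : Inv 55514944 true 342238659233046 13655479150647824 :=
  ok_step 55514944 t846 (by norm_num) (by norm_num) (by norm_num) i846

theorem i848 : Inv 55580480 true 343022993075520 13670640385202911 :=
  ok_step 55580480 t847 (by norm_num) (by norm_num) (by norm_num) i847

theorem i849 : Inv 55646016 true 343801129283886 13685664180804529 :=
  ok_step 55646016 t848 (by norm_num) (by norm_num) (by norm_num) i848

theorem i850 : Inv 55711552 false 344594549279027 13700967149280383 :=
  ok_step 55711552 t849 (by norm_num) (by norm_num) (by norm_num) i849

theorem i851 : Inv 55777088 true 345372852189568 13715956585143616 :=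
  ok_step 55777088 t850 (by norm_num) (by norm_num) (by norm_num) i850

theorem i852 : Inv 55842624 true 346159325345742 13731087754927626 :=
  ok_step 55842624 t851 (by norm_num) (by norm_num) (by norm_num) i851

theorem i853 : Inv 55908160 false 346956444223785 13746407903272689 :=
  ok_step 55908160 t852 (by norm_num) (by norm_num) (by norm_num) i852

theorem i854 : Inv 55973696 true 347743977647210 13761521893187527 :=
  ok_step 55973696 t853 (by norm_num) (by norm_num) (by norm_num) i853

theorem i855 : Inv 56039232 true 348543975335398 13776859221401771 :=
  ok_step 56039232 t854 (by norm_num) (by norm_num) (by norm_num) i854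

theorem i856 : Inv 56104768 true 349347152995264 13792239499288982 :=
  ok_step 56104768 t855 (by norm_num) (by norm_num) (by norm_num) i855

theorem i857 : Inv 56170304 false 350137911256307 13807366374105705 :=
  ok_step 56170304 t856 (by norm_num) (by norm_num) (by norm_num) i856

theorem i858 : Inv 56235840 false 350923404234641 13822372989838150 :=
  ok_step 56235840 t857 (by norm_num) (by norm_num) (by norm_num) i857

theorem i859 : Inv 56301376 false 351716790542659 13837512749556761 :=
  ok_step 56301376 t858 (by norm_num) (by norm_num) (by norm_num) i858

theorem i860 : Inv 56366912 false 352513579010853 13852699753915621 :=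
  ok_step 56366912 t859 (by norm_num) (by norm_num) (by norm_num) i859

theorem i861 : Inv 56432448 false 353317609245279 13868007017358787 :=
  ok_step 56432448 t860 (by norm_num) (by norm_num) (by norm_num) i860

theorem i862 : Inv 56497984 false 354115125154755 13883172546881171 :=
  ok_step 56497984 t861 (by norm_num) (by norm_num) (by norm_num) i861

theorem i863 : Inv 56563520 true 354919786982888 13898454040520532 :=
  ok_step 56563520 t862 (by norm_num) (by norm_num) (by norm_num) i862

theorem i864 : Inv 56629056 false 355719942787077 13913636749912102 :=
  ok_step 56629056 t863 (by norm_num) (by norm_num) (by norm_num) i863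

theorem i865 : Inv 56694592 false 356517967731981 13928759329761553 :=
  ok_step 56694592 t864 (by norm_num) (by norm_num) (by norm_num) i864

theorem i866 : Inv 56760128 true 357318618241268 13943911974382041 :=
  ok_step 56760128 t865 (by norm_num) (by norm_num) (by norm_num) i865

theorem i867 : Inv 56825664 true 358115763026456 13958983014623887 :=
  ok_step 56825664 t866 (by norm_num) (by norm_num) (by norm_num) i866

theorem i868 : Inv 56891200 true 358910870326836 13973998220290910 :=
  ok_step 56891200 t867 (by norm_num) (by norm_num) (by norm_num) i867

theorem i869 : Inv 56956736 false 359713381955159 13989137980009522 :=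
  ok_step 56956736 t868 (by norm_num) (by norm_num) (by norm_num) i868

theorem i870 : Inv 57022272 true 360517047386296 14004277739728139 :=
  ok_step 57022272 t869 (by norm_num) (by norm_num) (by norm_num) i869

theorem i871 : Inv 57087808 true 361324265077752 14019469039054293 :=
  ok_step 57087808 t870 (by norm_num) (by norm_num) (by norm_num) i870

theorem i872 : Inv 57153344 false 362134350699505 14034698993086112 :=
  ok_step 57153344 t871 (by norm_num) (by norm_num) (by norm_num) i871

theorem i873 : Inv 57218880 true 362939870550186 14049821572935530 :=
  ok_step 57218880 t872 (by norm_num) (by norm_num) (by norm_num) i872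

theorem i874 : Inv 57284416 true 363737043243754 14064772354093102 :=
  ok_step 57284416 t873 (by norm_num) (by norm_num) (by norm_num) i873

theorem i875 : Inv 57349952 false 364552207376767 14080045257797895 :=
  ok_step 57349952 t874 (by norm_num) (by norm_num) (by norm_num) i874

theorem i876 : Inv 57415488 true 365359813530702 14095154952745403 :=
  ok_step 57415488 t875 (by norm_num) (by norm_num) (by norm_num) i875

theorem i877 : Inv 57481024 true 366170293851544 14110303302398598 :=
  ok_step 57481024 t876 (by norm_num) (by norm_num) (by norm_num) i876

theorem i878 : Inv 57546560 true 366986759913800 14125546141332302 :=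
  ok_step 57546560 t877 (by norm_num) (by norm_num) (by norm_num) i877

theorem i879 : Inv 57612096 false 367799207943995 14140698785952819 :=
  ok_step 57612096 t878 (by norm_num) (by norm_num) (by norm_num) i878

theorem i880 : Inv 57677632 false 368606696800513 14155739761423638 :=
  ok_step 57677632 t879 (by norm_num) (by norm_num) (by norm_num) i879

theorem i881 : Inv 57743168 true 369419606272956 14170862341273083 :=
  ok_step 57743168 t880 (by norm_num) (by norm_num) (by norm_num) i880

theorem i882 : Inv 57808704 false 370237829077779 14186070820468433 :=
  ok_step 57808704 t881 (by norm_num) (by norm_num) (by norm_num) i881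

theorem i883 : Inv 57874240 false 371055244674049 14201244939925406 :=
  ok_step 57874240 t882 (by norm_num) (by norm_num) (by norm_num) i882

theorem i884 : Inv 57939776 false 371867099898953 14216298800298101 :=
  ok_step 57939776 t883 (by norm_num) (by norm_num) (by norm_num) i883

theorem i885 : Inv 58005312 false 372698425410933 14231696258054490 :=
  ok_step 58005312 t884 (by norm_num) (by norm_num) (by norm_num) i884

theorem i886 : Inv 58070848 false 373524656214837 14246982046661141 :=
  ok_step 58070848 t885 (by norm_num) (by norm_num) (by norm_num) i885

theorem i887 : Inv 58136384 false 374341825589671 14262083151674068 :=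
  ok_step 58136384 t886 (by norm_num) (by norm_num) (by norm_num) i886

theorem i888 : Inv 58201920 true 375166550587954 14277304515771278 :=
  ok_step 58201920 t887 (by norm_num) (by norm_num) (by norm_num) i887

theorem i889 : Inv 58267456 false 375986379408177 14292422800653399 :=
  ok_step 58267456 t888 (by norm_num) (by norm_num) (by norm_num) i888

theorem i890 : Inv 58332992 false 376813310858821 14307652754685220 :=
  ok_step 58332992 t889 (by norm_num) (by norm_num) (by norm_num) i889

theorem i891 : Inv 58398528 false 377629029316127 14322659370417632 :=
  ok_step 58398528 t890 (by norm_num) (by norm_num) (by norm_num) i890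

theorem i892 : Inv 58464064 true 378447417037858 14337696050921150 :=
  ok_step 58464064 t891 (by norm_num) (by norm_num) (by norm_num) i891

theorem i893 : Inv 58529600 true 379278068239672 14352943184822161 :=
  ok_step 58529600 t892 (by norm_num) (by norm_num) (by norm_num) i892

theorem i894 : Inv 58595136 true 380102858222856 14368065764671607 :=
  ok_step 58595136 t893 (by norm_num) (by norm_num) (by norm_num) i893

theorem i895 : Inv 58660672 true 380935374717606 14383312898572631 :=
  ok_step 58660672 t894 (by norm_num) (by norm_num) (by norm_num) i894

theorem i896 : Inv 58726208 true 381754266418692 14398293744501272 :=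
  ok_step 58726208 t895 (by norm_num) (by norm_num) (by norm_num) i895

theorem i897 : Inv 58791744 false 382586412247443 14413502223696613 :=
  ok_step 58791744 t896 (by norm_num) (by norm_num) (by norm_num) i896

theorem i898 : Inv 58857280 false 383411834423091 14428568968971183 :=
  ok_step 58857280 t897 (by norm_num) (by norm_num) (by norm_num) i897

theorem i899 : Inv 58922816 true 384251255868978 14443871937447034 :=
  ok_step 58922816 t898 (by norm_num) (by norm_num) (by norm_num) i898

theorem i900 : Inv 58988352 true 385080172612098 14458968747492692 :=
  ok_step 58988352 t899 (by norm_num) (by norm_num) (by norm_num) i899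

theorem i901 : Inv 59053888 false 385912252023019 14474108507211308 :=
  ok_step 59053888 t900 (by norm_num) (by norm_num) (by norm_num) i900

theorem i902 : Inv 59119424 true 386747619729278 14489286921635573 :=
  ok_step 59119424 t901 (by norm_num) (by norm_num) (by norm_num) i901

theorem i903 : Inv 59184960 false 387573737573709 14504284947433419 :=
  ok_step 59184960 t902 (by norm_num) (by norm_num) (by norm_num) i902

theorem i904 : Inv 59250496 true 388414982430144 14519536376301744 :=
  ok_step 59250496 t903 (by norm_num) (by norm_num) (by norm_num) i903

theorem i905 : Inv 59316032 true 389248503886490 14534633186347404 :=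
  ok_step 59316032 t904 (by norm_num) (by norm_num) (by norm_num) i904

theorem i906 : Inv 59381568 true 390088644177082 14549833075608175 :=
  ok_step 59381568 t905 (by norm_num) (by norm_num) (by norm_num) i905

theorem i907 : Inv 59447104 false 390918188635761 14564826806438727 :=
  ok_step 59447104 t906 (by norm_num) (by norm_num) (by norm_num) i906

theorem i908 : Inv 59512640 false 391750194759273 14579846307073055 :=
  ok_step 59512640 t907 (by norm_num) (by norm_num) (by norm_num) i907

theorem i909 : Inv 59578176 true 392580853414244 14594822858034386 :=
  ok_step 59578176 t908 (by norm_num) (by norm_num) (by norm_num) i908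

theorem i910 : Inv 59643712 true 393419701537682 14609932552981942 :=
  ok_step 59643712 t909 (by norm_num) (by norm_num) (by norm_num) i909

theorem i911 : Inv 59709248 false 394261976911019 14625089492569726 :=
  ok_step 59709248 t910 (by norm_num) (by norm_num) (by norm_num) i910

theorem i912 : Inv 59774784 false 395103622431459 14640216367386457 :=
  ok_step 59774784 t911 (by norm_num) (by norm_num) (by norm_num) i911

theorem i913 : Inv 59840320 false 395944515252547 14655313177432087 :=
  ok_step 59840320 t912 (by norm_num) (by norm_num) (by norm_num) i912

theorem i914 : Inv 59905856 true 396785252254646 14670388512641272 :=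
  ok_step 59905856 t913 (by norm_num) (by norm_num) (by norm_num) i913

theorem i915 : Inv 59971392 false 397644174053589 14685777380463033 :=
  ok_step 59971392 t914 (by norm_num) (by norm_num) (by norm_num) i914

theorem i916 : Inv 60036928 true 398495877575698 14701015924429484 :=
  ok_step 60036928 t915 (by norm_num) (by norm_num) (by norm_num) i915

theorem i917 : Inv 60102464 true 399341659562962 14716134209311590 :=
  ok_step 60102464 t916 (by norm_num) (by norm_num) (by norm_num) i916

theorem i918 : Inv 60168000 false 400184152119087 14731179479749688 :=
  ok_step 60168000 t917 (by norm_num) (by norm_num) (by norm_num) i917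

theorem i919 : Inv 60233536 true 401030458103976 14746271994828032 :=
  ok_step 60233536 t918 (by norm_num) (by norm_num) (by norm_num) i918

theorem i920 : Inv 60299072 false 401872138562009 14761270020625858 :=
  ok_step 60299072 t919 (by norm_num) (by norm_num) (by norm_num) i919

theorem i921 : Inv 60364608 false 402719919856965 14776358240736910 :=
  ok_step 60364608 t920 (by norm_num) (by norm_num) (by norm_num) i920

theorem i922 : Inv 60430144 true 403559565443400 14791283252090732 :=
  ok_step 60430144 t921 (by norm_num) (by norm_num) (by norm_num) i921

theorem i923 : Inv 60495680 true 404414752439422 14806470256449595 :=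
  ok_step 60495680 t922 (by norm_num) (by norm_num) (by norm_num) i922

theorem i924 : Inv 60561216 true 405281761477990 14821850534336786 :=
  ok_step 60561216 t923 (by norm_num) (by norm_num) (by norm_num) i923

theorem i925 : Inv 60626752 false 406130683627969 14836895804774846 :=
  ok_step 60626752 t924 (by norm_num) (by norm_num) (by norm_num) i924

theorem i926 : Inv 60692288 false 406980644957219 14851941075212961 :=
  ok_step 60692288 t925 (by norm_num) (by norm_num) (by norm_num) i925

theorem i927 : Inv 60757824 true 407837718151258 14867093719833456 :=
  ok_step 60757824 t926 (by norm_num) (by norm_num) (by norm_num) i926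

theorem i928 : Inv 60823360 true 408690730141718 14882160465108041 :=
  ok_step 60823360 t927 (by norm_num) (by norm_num) (by norm_num) i927

theorem i929 : Inv 60888896 false 409550385537815 14897330289597721 :=
  ok_step 60888896 t928 (by norm_num) (by norm_num) (by norm_num) i928

theorem i930 : Inv 60954432 true 410403169133666 14912358380166621 :=
  ok_step 60954432 t929 (by norm_num) (by norm_num) (by norm_num) i929

theorem i931 : Inv 61019968 false 411268333073245 14927592629165746 :=
  ok_step 61019968 t930 (by norm_num) (by norm_num) (by norm_num) i930

theorem i932 : Inv 61085504 true 412124168027388 14942642194571163 :=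
  ok_step 61085504 t931 (by norm_num) (by norm_num) (by norm_num) i931

theorem i933 : Inv 61151040 true 412982265525144 14957717529780338 :=
  ok_step 61151040 t932 (by norm_num) (by norm_num) (by norm_num) i932

theorem i934 : Inv 61216576 true 413839082354924 14972754210283816 :=
  ok_step 61216576 t933 (by norm_num) (by norm_num) (by norm_num) i933

theorem i935 : Inv 61282112 false 414690081325007 14987674926670317 :=
  ok_step 61282112 t934 (by norm_num) (by norm_num) (by norm_num) i934

theorem i936 : Inv 61347648 false 415558052166667 15002874815931051 :=
  ok_step 61347648 t935 (by norm_num) (by norm_num) (by norm_num) i935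

theorem i937 : Inv 61413184 false 416429898942621 15018126244799375 :=
  ok_step 61413184 t936 (by norm_num) (by norm_num) (by norm_num) i936

theorem i938 : Inv 61478720 true 417293701756010 15033218759877734 :=
  ok_step 61478720 t937 (by norm_num) (by norm_num) (by norm_num) i937

theorem i939 : Inv 61544256 false 418155724689057 15048268325283145 :=
  ok_step 61544256 t938 (by norm_num) (by norm_num) (by norm_num) i938

theorem i940 : Inv 61609792 false 419025191757949 15063429559838242 :=
  ok_step 61609792 t939 (by norm_num) (by norm_num) (by norm_num) i939

theorem i941 : Inv 61675328 false 419892869263685 15078543549753056 :=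
  ok_step 61675328 t940 (by norm_num) (by norm_num) (by norm_num) i940

theorem i942 : Inv 61740864 false 420767147509147 15093756323915678 :=
  ok_step 61740864 t941 (by norm_num) (by norm_num) (by norm_num) i941

theorem i943 : Inv 61806400 true 421637789285450 15108887493699711 :=
  ok_step 61806400 t942 (by norm_num) (by norm_num) (by norm_num) i942

theorem i944 : Inv 61871936 false 422506136417057 15123967123876169 :=
  ok_step 61871936 t943 (by norm_num) (by norm_num) (by norm_num) i943

theorem i945 : Inv 61937472 true 423382334797262 15139162718169640 :=
  ok_step 61937472 t944 (by norm_num) (by norm_num) (by norm_num) i944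

theorem i946 : Inv 62003008 true 424260330160086 15154375492332274 :=
  ok_step 62003008 t945 (by norm_num) (by norm_num) (by norm_num) i945

theorem i947 : Inv 62068544 false 425125480501097 15169352043293608 :=
  ok_step 62068544 t946 (by norm_num) (by norm_num) (by norm_num) i946

theorem i948 : Inv 62134080 false 426009059836431 15184629241965693 :=
  ok_step 62134080 t947 (by norm_num) (by norm_num) (by norm_num) i947

theorem i949 : Inv 62199616 true 426885487219340 15199764706716989 :=
  ok_step 62199616 t948 (by norm_num) (by norm_num) (by norm_num) i948

theorem i950 : Inv 62265152 false 427759105893873 15214840041926178 :=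
  ok_step 62265152 t949 (by norm_num) (by norm_num) (by norm_num) i949

theorem i951 : Inv 62330688 true 428628413075156 15229820887854823 :=
  ok_step 62330688 t950 (by norm_num) (by norm_num) (by norm_num) i950

theorem i952 : Inv 62396224 false 429510107095059 15245003597246410 :=
  ok_step 62396224 t951 (by norm_num) (by norm_num) (by norm_num) i951

theorem i953 : Inv 62461760 true 430385237865476 15260053162651784 :=
  ok_step 62461760 t952 (by norm_num) (by norm_num) (by norm_num) i952

theorem i954 : Inv 62527296 false 431267535592037 15275214397206870 :=
  ok_step 62527296 t953 (by norm_num) (by norm_num) (by norm_num) i953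

theorem i955 : Inv 62592832 true 432142752907256 15290233897841204 :=
  ok_step 62592832 t954 (by norm_num) (by norm_num) (by norm_num) i954

theorem i956 : Inv 62658368 true 433027777129046 15305408017298186 :=
  ok_step 62658368 t955 (by norm_num) (by norm_num) (by norm_num) i955

theorem i957 : Inv 62723904 false 433909086917575 15320504827343844 :=
  ok_step 62723904 t956 (by norm_num) (by norm_num) (by norm_num) i956

theorem i958 : Inv 62789440 false 434785921415085 15335507148108973 :=
  ok_step 62789440 t957 (by norm_num) (by norm_num) (by norm_num) i957

theorem i959 : Inv 62854976 true 435665056083014 15350530943710612 :=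
  ok_step 62854976 t958 (by norm_num) (by norm_num) (by norm_num) i958

theorem i960 : Inv 62920512 false 436559694790247 15365808142382726 :=
  ok_step 62920512 t959 (by norm_num) (by norm_num) (by norm_num) i959

theorem i961 : Inv 62986048 false 437447337022323 15380947902101325 :=
  ok_step 62986048 t960 (by norm_num) (by norm_num) (by norm_num) i960

theorem i962 : Inv 63051584 false 438333884044369 15396053302081541 :=
  ok_step 63051584 t961 (by norm_num) (by norm_num) (by norm_num) i961

theorem i963 : Inv 63117120 false 439223371597907 15411193061800129 :=
  ok_step 63117120 t962 (by norm_num) (by norm_num) (by norm_num) i962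

theorem i964 : Inv 63182656 true 440110879599150 15426281281911196 :=
  ok_step 63182656 t963 (by norm_num) (by norm_num) (by norm_num) i963

theorem i965 : Inv 63248192 true 441003481153106 15441442516466306 :=
  ok_step 63248192 t964 (by norm_num) (by norm_num) (by norm_num) i964

theorem i966 : Inv 63313728 true 441892201339702 15456522146642767 :=
  ok_step 63313728 t965 (by norm_num) (by norm_num) (by norm_num) i965

theorem i967 : Inv 63379264 false 442779937731407 15471571712048180 :=
  ok_step 63379264 t966 (by norm_num) (by norm_num) (by norm_num) i966

theorem i968 : Inv 63444800 true 443671130999016 15486659932159248 :=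
  ok_step 63444800 t967 (by norm_num) (by norm_num) (by norm_num) i967

theorem i969 : Inv 63510336 false 444562740990791 15501743857303043 :=
  ok_step 63510336 t968 (by norm_num) (by norm_num) (by norm_num) i968

theorem i970 : Inv 63575872 false 445460984410691 15516922271727322 :=
  ok_step 63575872 t969 (by norm_num) (by norm_num) (by norm_num) i969

theorem i971 : Inv 63641408 false 446349216473443 15531916002557853 :=
  ok_step 63641408 t970 (by norm_num) (by norm_num) (by norm_num) i970

theorem i972 : Inv 63706944 false 447239893274803 15546935503192206 :=
  ok_step 63706944 t971 (by norm_num) (by norm_num) (by norm_num) i971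

theorem i973 : Inv 63772480 true 448135945105072 15562028018270539 :=
  ok_step 63772480 t972 (by norm_num) (by norm_num) (by norm_num) i972

theorem i974 : Inv 63838016 false 449024240908837 15576978799428133 :=
  ok_step 63838016 t973 (by norm_num) (by norm_num) (by norm_num) i973

theorem i975 : Inv 63903552 false 449927116515363 15592157213852444 :=
  ok_step 63903552 t974 (by norm_num) (by norm_num) (by norm_num) i974

theorem i976 : Inv 63969088 false 450819667194785 15607146649715703 :=
  ok_step 63969088 t975 (by norm_num) (by norm_num) (by norm_num) i975

theorem i977 : Inv 64034624 true 451728105957002 15622385193682135 :=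
  ok_step 64034624 t976 (by norm_num) (by norm_num) (by norm_num) i976

theorem i978 : Inv 64100160 false 452627480961243 15637460528891288 :=
  ok_step 64100160 t977 (by norm_num) (by norm_num) (by norm_num) i977

theorem i979 : Inv 64165696 false 453522518593805 15652445669787255 :=
  ok_step 64165696 t978 (by norm_num) (by norm_num) (by norm_num) i978

theorem i980 : Inv 64231232 true 454421168315726 15667473760356180 :=
  ok_step 64231232 t979 (by norm_num) (by norm_num) (by norm_num) i979

theorem i981 : Inv 64296768 true 455330634306772 15682669354649648 :=
  ok_step 64296768 t980 (by norm_num) (by norm_num) (by norm_num) i980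

theorem i982 : Inv 64362304 true 456238453447978 15697821999270145 :=
  ok_step 64362304 t981 (by norm_num) (by norm_num) (by norm_num) i981

theorem i983 : Inv 64427840 false 457154538331703 15713099197942238 :=
  ok_step 64427840 t982 (by norm_num) (by norm_num) (by norm_num) i982

theorem i984 : Inv 64493376 true 458060212058672 15728183123086005 :=
  ok_step 64493376 t983 (by norm_num) (by norm_num) (by norm_num) i983

theorem i985 : Inv 64558912 true 458953767739440 15743052299864970 :=
  ok_step 64558912 t984 (by norm_num) (by norm_num) (by norm_num) i984

theorem i986 : Inv 64624448 false 459868772227865 15758265074027603 :=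
  ok_step 64624448 t985 (by norm_num) (by norm_num) (by norm_num) i985

theorem i987 : Inv 64689984 false 460779147645137 15773383358909755 :=
  ok_step 64689984 t986 (by norm_num) (by norm_num) (by norm_num) i986

theorem i988 : Inv 64755520 true 461692385660940 15788531708562958 :=
  ok_step 64755520 t987 (by norm_num) (by norm_num) (by norm_num) i987

theorem i989 : Inv 64821056 false 462600330112455 15803581273968344 :=
  ok_step 64821056 t988 (by norm_num) (by norm_num) (by norm_num) i988

theorem i990 : Inv 64886592 false 463515809009017 15818738213556132 :=
  ok_step 64886592 t989 (by norm_num) (by norm_num) (by norm_num) i989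

theorem i991 : Inv 64952128 false 464416628710477 15833637455106130 :=
  ok_step 64952128 t990 (by norm_num) (by norm_num) (by norm_num) i990

theorem i992 : Inv 65017664 false 465319919144401 15848562466459962 :=
  ok_step 65017664 t991 (by norm_num) (by norm_num) (by norm_num) i991

theorem i993 : Inv 65083200 false 466228023569489 15863551902323228 :=
  ok_step 65083200 t992 (by norm_num) (by norm_num) (by norm_num) i992

theorem i994 : Inv 65148736 true 467136651700524 15878532748251878 :=
  ok_step 65148736 t993 (by norm_num) (by norm_num) (by norm_num) i993

theorem i995 : Inv 65214272 true 468055451214278 15893668213003186 :=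
  ok_step 65214272 t994 (by norm_num) (by norm_num) (by norm_num) i994

theorem i996 : Inv 65279808 true 468961341113270 15908576044487803 :=
  ok_step 65279808 t995 (by norm_num) (by norm_num) (by norm_num) i995

theorem i997 : Inv 65345344 false 469880809337347 15923694329369938 :=
  ok_step 65345344 t996 (by norm_num) (by norm_num) (by norm_num) i996

theorem i998 : Inv 65410880 false 470803422073461 15938846973990416 :=
  ok_step 65410880 t997 (by norm_num) (by norm_num) (by norm_num) i997

theorem i999 : Inv 65476416 true 471723950231986 15953948079003349 :=
  ok_step 65476416 t998 (by norm_num) (by norm_num) (by norm_num) i998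

theorem i1000 : Inv 65541952 false 472651689687727 15969156558198701 :=
  ok_step 65541952 t999 (by norm_num) (by norm_num) (by norm_num) i999

theorem i1001 : Inv 65607488 false 473568685406547 15984171763865724 :=
  ok_step 65607488 t1000 (by norm_num) (by norm_num) (by norm_num) i1000

theorem i1002 : Inv 65673024 false 474490013627941 15999242804107583 :=
  ok_step 65673024 t1001 (by norm_num) (by norm_num) (by norm_num) i1001

theorem i1003 : Inv 65738560 true 475413703442566 16014335319185921 :=
  ok_step 65738560 t1002 (by norm_num) (by norm_num) (by norm_num) i1002

theorem i1004 : Inv 65804096 false 476332003909451 16029329050016450 :=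
  ok_step 65804096 t1003 (by norm_num) (by norm_num) (by norm_num) i1003

theorem i1005 : Inv 65869632 true 477266757156366 16044571888950146 :=
  ok_step 65869632 t1004 (by norm_num) (by norm_num) (by norm_num) i1004

theorem i1006 : Inv 65935168 false 478178713729333 16059432475794506 :=
  ok_step 65935168 t1005 (by norm_num) (by norm_num) (by norm_num) i1005

theorem i1007 : Inv 66000704 true 479103715601218 16074486336167206 :=
  ok_step 66000704 t1006 (by norm_num) (by norm_num) (by norm_num) i1006

theorem i1008 : Inv 66066240 true 480018674842290 16089364102880740 :=
  ok_step 66066240 t1007 (by norm_num) (by norm_num) (by norm_num) i1007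

theorem i1009 : Inv 66131776 true 480956750587316 16104602646847191 :=
  ok_step 66131776 t1008 (by norm_num) (by norm_num) (by norm_num) i1008

theorem i1010 : Inv 66197312 false 481877628899647 16119549133037460 :=
  ok_step 66197312 t1009 (by norm_num) (by norm_num) (by norm_num) i1009

theorem i1011 : Inv 66262848 true 482809486600878 16134654533017692 :=
  ok_step 66262848 t1010 (by norm_num) (by norm_num) (by norm_num) i1010

theorem i1012 : Inv 66328384 true 483729400120144 16149553774567715 :=
  ok_step 66328384 t1011 (by norm_num) (by norm_num) (by norm_num) i1011

theorem i1013 : Inv 66393920 false 484659913593607 16164611929907679 :=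
  ok_step 66393920 t1012 (by norm_num) (by norm_num) (by norm_num) i1012

theorem i1014 : Inv 66459456 true 485596663317364 16179751689626276 :=
  ok_step 66459456 t1013 (by norm_num) (by norm_num) (by norm_num) i1013

theorem i1015 : Inv 66524992 true 486524364932534 16194732535554937 :=
  ok_step 66524992 t1014 (by norm_num) (by norm_num) (by norm_num) i1014

theorem i1016 : Inv 66590528 false 487466155275207 16209928129848421 :=
  ok_step 66590528 t1015 (by norm_num) (by norm_num) (by norm_num) i1015

theorem i1017 : Inv 66656064 false 488387960821697 16224784421725502 :=
  ok_step 66656064 t1016 (by norm_num) (by norm_num) (by norm_num) i1016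

theorem i1018 : Inv 66721600 true 489328676377938 16239928476411415 :=
  ok_step 66721600 t1017 (by norm_num) (by norm_num) (by norm_num) i1017

theorem i1019 : Inv 66787136 false 490255626226307 16254840602863321 :=
  ok_step 66787136 t1018 (by norm_num) (by norm_num) (by norm_num) i1018

theorem i1020 : Inv 66852672 true 491187764023084 16269817153824674 :=
  ok_step 66852672 t1019 (by norm_num) (by norm_num) (by norm_num) i1019

theorem i1021 : Inv 66918208 true 492123358755022 16284836654459003 :=
  ok_step 66918208 t1020 (by norm_num) (by norm_num) (by norm_num) i1020

theorem i1022 : Inv 66983744 true 493052369743074 16299735896009029 :=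
  ok_step 66983744 t1021 (by norm_num) (by norm_num) (by norm_num) i1021

theorem i1023 : Inv 67049280 true 493998642875210 16314897130564104 :=
  ok_step 67049280 t1022 (by norm_num) (by norm_num) (by norm_num) i1022

theorem i1024 : Inv 67114816 true 494937525932998 16329925221133054 :=
  ok_step 67114816 t1023 (by norm_num) (by norm_num) (by norm_num) i1023

theorem i1025 : Inv 67180352 false 495882023030465 16345030621113309 :=
  ok_step 67180352 t1024 (by norm_num) (by norm_num) (by norm_num) i1024

theorem i1026 : Inv 67245888 true 496827174231626 16360127431158949 :=
  ok_step 67245888 t1025 (by norm_num) (by norm_num) (by norm_num) i1025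

theorem i1027 : Inv 67311424 false 497763020386673 16375065327414650 :=
  ok_step 67311424 t1026 (by norm_num) (by norm_num) (by norm_num) i1026

theorem i1028 : Inv 67376960 true 498710286652438 16390166432427581 :=
  ok_step 67376960 t1027 (by norm_num) (by norm_num) (by norm_num) i1027

theorem i1029 : Inv 67442496 false 499658203358351 16405267537440516 :=
  ok_step 67442496 t1028 (by norm_num) (by norm_num) (by norm_num) i1028

theorem i1030 : Inv 67508032 true 500609739143014 16420407297159144 :=
  ok_step 67508032 t1029 (by norm_num) (by norm_num) (by norm_num) i1029

theorem i1031 : Inv 67573568 true 501559092257996 16435499812237496 :=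
  ok_step 67573568 t1030 (by norm_num) (by norm_num) (by norm_num) i1030

theorem i1032 : Inv 67639104 false 502498414093373 16450420528624003 :=
  ok_step 67639104 t1031 (by norm_num) (by norm_num) (by norm_num) i1031

theorem i1033 : Inv 67704640 false 503443653685477 16465418554421830 :=
  ok_step 67704640 t1032 (by norm_num) (by norm_num) (by norm_num) i1032

theorem i1034 : Inv 67770176 true 504392380850812 16480455234925339 :=
  ok_step 67770176 t1033 (by norm_num) (by norm_num) (by norm_num) i1033

theorem i1035 : Inv 67835712 true 505330502241734 16495311526802388 :=
  ok_step 67835712 t1034 (by norm_num) (by norm_num) (by norm_num) i1034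

theorem i1036 : Inv 67901248 false 506276451444789 16510279487829157 :=
  ok_step 67901248 t1035 (by norm_num) (by norm_num) (by norm_num) i1035

theorem i1037 : Inv 67966784 true 507225759419330 16525281808594292 :=
  ok_step 67966784 t1036 (by norm_num) (by norm_num) (by norm_num) i1036

theorem i1038 : Inv 68032320 false 508177344973527 16540309899163201 :=
  ok_step 68032320 t1037 (by norm_num) (by norm_num) (by norm_num) i1037

theorem i1039 : Inv 68097856 true 509132029174636 16555368054503168 :=
  ok_step 68097856 t1038 (by norm_num) (by norm_num) (by norm_num) i1038

theorem i1040 : Inv 68163392 false 510075639585539 16570241526249433 :=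
  ok_step 68163392 t1039 (by norm_num) (by norm_num) (by norm_num) i1039

theorem i1041 : Inv 68228928 true 511043616287950 16585480070215863 :=
  ok_step 68228928 t1040 (by norm_num) (by norm_num) (by norm_num) i1040

theorem i1042 : Inv 68294464 false 512008973045991 16600667074574714 :=
  ok_step 68294464 t1041 (by norm_num) (by norm_num) (by norm_num) i1041

theorem i1043 : Inv 68360000 false 512967741215179 16615733819849294 :=
  ok_step 68360000 t1042 (by norm_num) (by norm_num) (by norm_num) i1042

theorem i1044 : Inv 68425536 true 513919901777032 16630680306039570 :=
  ok_step 68425536 t1043 (by norm_num) (by norm_num) (by norm_num) i1043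

theorem i1045 : Inv 68491072 false 514877084691265 16645695511706585 :=
  ok_step 68491072 t1044 (by norm_num) (by norm_num) (by norm_num) i1044

theorem i1046 : Inv 68556608 true 515836830802532 16660732192210109 :=
  ok_step 68556608 t1045 (by norm_num) (by norm_num) (by norm_num) i1045

theorem i1047 : Inv 68622144 true 516787206978248 16675609958923665 :=
  ok_step 68622144 t1046 (by norm_num) (by norm_num) (by norm_num) i1046

theorem i1048 : Inv 68687680 true 517752221642138 16690702474002011 :=
  ok_step 68687680 t1047 (by norm_num) (by norm_num) (by norm_num) i1047

theorem i1049 : Inv 68753216 true 518725305523678 16705906658230045 :=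
  ok_step 68753216 t1048 (by norm_num) (by norm_num) (by norm_num) i1048

theorem i1050 : Inv 68818752 true 519690236383356 16720969108537346 :=
  ok_step 68818752 t1049 (by norm_num) (by norm_num) (by norm_num) i1049

theorem i1051 : Inv 68884288 false 520643280386689 16735833990349013 :=
  ok_step 68884288 t1050 (by norm_num) (by norm_num) (by norm_num) i1050

theorem i1052 : Inv 68949824 true 521603846759864 16750797656408495 :=
  ok_step 68949824 t1051 (by norm_num) (by norm_num) (by norm_num) i1051

theorem i1053 : Inv 69015360 true 522561601509424 16765705487893122 :=
  ok_step 69015360 t1052 (by norm_num) (by norm_num) (by norm_num) i1052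

theorem i1054 : Inv 69080896 false 523525103200759 16780690628789090 :=
  ok_step 69080896 t1053 (by norm_num) (by norm_num) (by norm_num) i1053

theorem i1055 : Inv 69146432 false 524476107450675 16795465316287532 :=
  ok_step 69146432 t1054 (by norm_num) (by norm_num) (by norm_num) i1054

theorem i1056 : Inv 69211968 false 525452085345963 16810613665940735 :=
  ok_step 69211968 t1055 (by norm_num) (by norm_num) (by norm_num) i1055

theorem i1057 : Inv 69277504 true 526419158450218 16825607396771273 :=
  ok_step 69277504 t1056 (by norm_num) (by norm_num) (by norm_num) i1056

theorem i1058 : Inv 69343040 true 527385897388562 16840583947732586 :=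
  ok_step 69343040 t1057 (by norm_num) (by norm_num) (by norm_num) i1057

theorem i1059 : Inv 69408576 true 528355216563370 16855586268497740 :=
  ok_step 69408576 t1058 (by norm_num) (by norm_num) (by norm_num) i1058

theorem i1060 : Inv 69474112 false 529332254665371 16870695963445280 :=
  ok_step 69474112 t1059 (by norm_num) (by norm_num) (by norm_num) i1059

theorem i1061 : Inv 69539648 false 530303959048443 16885706874145004 :=
  ok_step 69539648 t1060 (by norm_num) (by norm_num) (by norm_num) i1060

theorem i1062 : Inv 69605184 true 531270039870420 16900614705629634 :=
  ok_step 69605184 t1061 (by norm_num) (by norm_num) (by norm_num) i1061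

theorem i1063 : Inv 69670720 false 532245667715745 16915659976067724 :=
  ok_step 69670720 t1062 (by norm_num) (by norm_num) (by norm_num) i1062

theorem i1064 : Inv 69736256 false 533228486776165 16930799735786324 :=
  ok_step 69736256 t1063 (by norm_num) (by norm_num) (by norm_num) i1063

theorem i1065 : Inv 69801792 false 534201347368491 16945771991780375 :=
  ok_step 69801792 t1064 (by norm_num) (by norm_num) (by norm_num) i1064

theorem i1066 : Inv 69867328 true 535179728771874 16960812967251178 :=
  ok_step 69867328 t1065 (by norm_num) (by norm_num) (by norm_num) i1065

theorem i1067 : Inv 69932864 true 536158048497786 16975841057820067 :=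
  ok_step 69932864 t1066 (by norm_num) (by norm_num) (by norm_num) i1066

theorem i1068 : Inv 69998400 true 537144285763314 16990976522571386 :=
  ok_step 69998400 t1067 (by norm_num) (by norm_num) (by norm_num) i1067

theorem i1069 : Inv 70063936 false 538118697231863 17005918713794379 :=
  ok_step 70063936 t1068 (by norm_num) (by norm_num) (by norm_num) i1068

theorem i1070 : Inv 70129472 false 539096403935071 17020895264755746 :=
  ok_step 70129472 t1069 (by norm_num) (by norm_num) (by norm_num) i1069

theorem i1071 : Inv 70195008 false 540077553701081 17035910470422761 :=
  ok_step 70195008 t1070 (by norm_num) (by norm_num) (by norm_num) i1070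

theorem i1072 : Inv 70260544 false 541054565130623 17050848366678433 :=
  ok_step 70260544 t1071 (by norm_num) (by norm_num) (by norm_num) i1071

theorem i1073 : Inv 70326080 false 542033332939263 17065799147836010 :=
  ok_step 70326080 t1072 (by norm_num) (by norm_num) (by norm_num) i1072

theorem i1074 : Inv 70391616 true 543015117786766 17080779993764666 :=
  ok_step 70391616 t1073 (by norm_num) (by norm_num) (by norm_num) i1073

theorem i1075 : Inv 70457152 true 543982466270584 17095528911459324 :=
  ok_step 70457152 t1074 (by norm_num) (by norm_num) (by norm_num) i1074

theorem i1076 : Inv 70522688 true 544967068933204 17110526937257170 :=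
  ok_step 70522688 t1075 (by norm_num) (by norm_num) (by norm_num) i1075

theorem i1077 : Inv 70588224 false 545950189861623 17125490603316645 :=
  ok_step 70588224 t1076 (by norm_num) (by norm_num) (by norm_num) i1076

theorem i1078 : Inv 70653760 true 546941570961190 17140561643558506 :=
  ok_step 70653760 t1077 (by norm_num) (by norm_num) (by norm_num) i1077

theorem i1079 : Inv 70719296 false 547932452643999 17155615503931177 :=
  ok_step 70719296 t1078 (by norm_num) (by norm_num) (by norm_num) i1078

theorem i1080 : Inv 70784832 true 548915200316570 17170527630383103 :=
  ok_step 70784832 t1079 (by norm_num) (by norm_num) (by norm_num) i1079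

theorem iEnd : Inv 70856896 false 550005415702529 17187058959505623 :=
  okEnd_step t1080 (by norm_num) (by norm_num) (by norm_num) i1080

end Pool.Agent.H36E13726
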